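import Pool.Agent.Helper56.WF.St

/-! # Project WF, module Arm: the one-arm bound at `pH` -/

set_option autoImplicit false

open scoped BigOperators ENNReal Topology
open Pool.LE Pool.NL

namespace Pool.WF

/-- a polynomial times a decaying exponential is bounded -/
private lemma bdd_Arm (K : ℕ) (hK : 1 ≤ K) : ∃ M : ℝ, 0 ≤ M ∧ ∀ m : ℕ, 1 ≤ m →
    (m : ℝ) ^ 90 * (1 / 4 : ℝ) ^ (3 * (m / (2 * K))) ≤ M := by
  have hT : Filter.Tendsto (fun n : ℕ => (n : ℝ) ^ 90 * (1 / 64 : ℝ) ^ n) Filter.atTop (𝓝 0) :=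
    tendsto_pow_const_mul_const_pow_of_abs_lt_one 90 (by rw [abs_of_pos] <;> norm_num)
  obtain ⟨B, hB⟩ := hT.bddAbove_range
  have hB' : ∀ n : ℕ, (n : ℝ) ^ 90 * (1 / 64 : ℝ) ^ n ≤ B := fun n => hB ⟨n, rfl⟩
  have hB0 : 0 ≤ B := by
    have := hB' 0
    simpa using this
  refine ⟨(2 * (K : ℝ)) ^ 90 * (64 * B), by positivity, fun m hm => ?_⟩
  set q := m / (2 * K) with hq
  have h1 : m ≤ 2 * K * (q + 1) := by
    have h2 : m = 2 * K * q + m % (2 * K) := (Nat.div_add_mod m (2 * K)).symm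
    have h3 : m % (2 * K) < 2 * K := Nat.mod_lt _ (by omega)
    calc m = 2 * K * q + m % (2 * K) := h2
      _ ≤ 2 * K * q + 2 * K := by omega
      _ = 2 * K * (q + 1) := by ring
  have h1' : (m : ℝ) ≤ 2 * (K : ℝ) * ((q + 1 : ℕ) : ℝ) := by exact_mod_cast h1
  have h4 : (m : ℝ) ^ 90 ≤ (2 * (K : ℝ)) ^ 90 * ((q + 1 : ℕ) : ℝ) ^ 90 := by
    rw [← mul_pow]
    exact pow_le_pow_left₀ (by positivity) h1' 90
  have h5 : (1 / 4 : ℝ) ^ (3 * q) = (1 / 64 : ℝ) ^ q := by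
    rw [pow_mul]; norm_num
  have h6 : (1 / 64 : ℝ) ^ q = 64 * (1 / 64 : ℝ) ^ (q + 1) := by
    rw [pow_succ]; ring
  calc (m : ℝ) ^ 90 * (1 / 4 : ℝ) ^ (3 * q)
      ≤ ((2 * (K : ℝ)) ^ 90 * ((q + 1 : ℕ) : ℝ) ^ 90) * (1 / 64 : ℝ) ^ q := by
        rw [h5]
        exact mul_le_mul_of_nonneg_right h4 (by positivity)
    _ = (2 * (K : ℝ)) ^ 90 * (64 * (((q + 1 : ℕ) : ℝ) ^ 90 * (1 / 64 : ℝ) ^ (q + 1))) := by
        rw [h6]; ring
    _ ≤ (2 * (K : ℝ)) ^ 90 * (64 * B) := by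
        apply mul_le_mul_of_nonneg_left _ (by positivity)
        exact mul_le_mul_of_nonneg_left (hB' _) (by norm_num)

private lemma mem_clu_Arm {V : Type} [DecidableEq V] (L : Finset V) (ω : Finset (Sym2 V))
    (x y : V) : y ∈ clu L ω x ↔ y ∈ L ∧ con ω x y := by
  classical
  simp [clu]

private lemma four_Arm (a b : ℝ) :
    (a + b) ^ 4 ≤ 8 * (a ^ 4 + b ^ 4) := by
  have h1 : (a + b) ^ 2 ≤ 2 * (a ^ 2 + b ^ 2) := by nlinarith [sq_nonneg (a - b)]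
  have h2 : (a ^ 2 + b ^ 2) ^ 2 ≤ 2 * (a ^ 4 + b ^ 4) := by nlinarith [sq_nonneg (a ^ 2 - b ^ 2)]
  have h3 : 0 ≤ (a + b) ^ 2 := by positivity
  calc (a + b) ^ 4 = ((a + b) ^ 2) ^ 2 := by ring
    _ ≤ (2 * (a ^ 2 + b ^ 2)) ^ 2 := pow_le_pow_left₀ h3 h1 2
    _ = 4 * (a ^ 2 + b ^ 2) ^ 2 := by ring
    _ ≤ 8 * (a ^ 4 + b ^ 4) := by linarith

private lemma union_Arm (hB : StBasic) {V : Type} [DecidableEq V] (E : Finset (Sym2 V)) (p : ℝ)
    (hp : 0 ≤ p) (hp1 : p ≤ 1) (A A1 A2 : Finset (Sym2 V) → Prop)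
    (h : ∀ ω, ω ⊆ E → A ω → A1 ω ∨ A2 ω) : pr E p A ≤ pr E p A1 + pr E p A2 := by
  obtain ⟨hmono, -, hadd, -⟩ := hB V E p hp hp1
  have h1 : ex E p (fun ω => ind (A ω)) ≤ ex E p (fun ω => ind (A1 ω) + ind (A2 ω)) := by
    apply hmono
    intro ω hω
    by_cases hA : A ω
    · rcases h ω hω hA with h1 | h1
      · by_cases h2 : A2 ω
        · simp [ind, hA, h1, h2]
        · simp [ind, hA, h1, h2]
      · by_cases h2 : A1 ω
        · simp [ind, hA, h1, h2]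
        · simp [ind, hA, h1, h2]
    · by_cases h1 : A1 ω <;> by_cases h2 : A2 ω <;> simp [ind, hA, h1, h2]
  rw [hadd] at h1
  exact h1

private lemma kapow_Arm (κ : ℝ) (d N : ℕ) (hN : 1 ≤ N) (h0 : 0 ≤ κ) (h : κ ≤ 1 + 11 / (N : ℝ)) :
    κ ^ (2 * d * N) ≤ Real.exp (22 * d) := by
  have hN' : (0 : ℝ) < N := by exact_mod_cast hN
  have h1 : κ ≤ Real.exp (11 / (N : ℝ)) := by
    have := Real.add_one_le_exp (11 / (N : ℝ))
    linarith
  calc κ ^ (2 * d * N) ≤ (Real.exp (11 / (N : ℝ))) ^ (2 * d * N) := pow_le_pow_left₀ h0 h1 _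
    _ = Real.exp (22 * d) := by
        rw [← Real.exp_nat_mul]
        congr 1
        push_cast
        field_simp
        ring

/-- Module Arm. -/
theorem hArm (hT : StTree4) (hK : StKap) (hX : StChiUp) (hD : StDec) (hG : StArmG)
    (hPE : StPE) (hF : StFG) (hB : StBasic) (hH : StHh) (hC : StClu) (hB1 : StB1) (hB7 : StB7)
    (hS6 : StS6d) (hBox : StBox) (hPL : StPHlow) : StArm := by
  obtain ⟨dX, hdX, hX⟩ := hX
  obtain ⟨dD, hdD, hD⟩ := hD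
  obtain ⟨dP, hdP, hPE⟩ := hPE
  refine ⟨max dX (max dD dP), le_trans hdX (le_max_left _ _), fun d hd => ?_⟩
  have hd1 : dX ≤ d := le_trans (le_max_left _ _) hd
  have hd2 : dD ≤ d := le_trans (le_trans (le_max_left _ _) (le_max_right _ _)) hd
  have hd3 : dP ≤ d := le_trans (le_trans (le_max_right _ _) (le_max_right _ _)) hd
  have hd0 : 0 < d := lt_of_lt_of_le hdX hd1
  replace hX := hX d hd1
  replace hD := hD d hd2
  replace hPE := hPE d hd3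
  obtain ⟨hP0, hP1⟩ := hS6 d hd0
  set P := pH d with hPdef
  obtain ⟨K, hK1⟩ := exists_nat_ge (512 / P ^ 2)
  have hK1' : (1 : ℝ) ≤ 512 / P ^ 2 := by
    rw [le_div_iff₀ (by positivity)]
    nlinarith
  have hKge : 1 ≤ K := by
    have : (1 : ℝ) ≤ K := le_trans hK1' hK1
    exact_mod_cast this
  obtain ⟨M, hM0, hM⟩ := bdd_Arm K hKge
  set e := Real.exp (22 * (d : ℝ)) with he
  have he0 : 0 < e := Real.exp_pos _
  refine ⟨8 * (e * (8 / P) ^ 3 + e * (8 / P) ^ 3 * M), by positivity, fun i m R hm => ?_⟩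
  have hm' : (1 : ℝ) ≤ m := by exact_mod_cast hm
  have hm0 : (0 : ℝ) < m := by linarith
  set t : ℝ := (m : ℝ) ^ 15 with ht
  have ht1 : 1 ≤ t := one_le_pow₀ hm'
  have ht0 : 0 < t := by linarith
  set δ : ℝ := P / (2 * t) with hδ
  have hδ0 : 0 < δ := by positivity
  have hδ1 : δ ≤ P / 2 := by
    rw [hδ]
    apply div_le_div_of_nonneg_left hP0.le (by norm_num)
    linarith
  set p : ℝ := P - δ with hp
  have hpP : p < P := by linarith
  have hp2 : P / 2 ≤ p := by linarith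
  have hp0 : 0 < p := by linarith
  have hp1 : p < 1 := by linarith
  have hN1 : 1 ≤ m ^ 30 := Nat.one_le_pow _ _ hm
  have hNt : ((m ^ 30 : ℕ) : ℝ) = t ^ 2 := by
    rw [ht]; push_cast; ring
  -- susceptibility
  have hχ1 : 1 ≤ chi d p := (hB1 d p hd0 hp0.le hpP).2.2.1
  have hχ : chi d p ≤ 8 * t / P := by
    have h1 := hX p hp0 hpP
    have h2 : P - p = δ := by rw [hp]; ring
    rw [h2, hδ] at h1
    rw [le_div_iff₀ hP0]
    have h3 : chi d p * (P / (2 * t)) = chi d p * P / (2 * t) := by ring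
    rw [h3, div_le_iff₀ (by positivity)] at h1
    linarith
  -- the cost
  have hκ0 : 1 ≤ kap p P := hK.1 p P hp0 hp1 hP0.le (by linarith)
  have hκ : kap p P ≤ 1 + 11 / ((m ^ 30 : ℕ) : ℝ) := by
    have h1 := hK.2 p δ hp0 hδ0.le (by linarith) (by rw [hp]; linarith)
    have h2 : p + δ = P := by rw [hp]; ring
    rw [h2] at h1
    have h3 : δ / p ≤ 1 / t := by
      rw [div_le_div_iff₀ hp0 ht0]
      have : δ * t = P / 2 := by
        rw [hδ]; field_simp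
      rw [this]; linarith
    have h4 : (δ / p) ^ 2 ≤ (1 / t) ^ 2 := pow_le_pow_left₀ (by positivity) h3 2
    rw [hNt]
    have h5 : (1 / t) ^ 2 = 1 / t ^ 2 := by rw [div_pow, one_pow]
    rw [h5] at h4
    have h6 : 11 / t ^ 2 = 11 * (1 / t ^ 2) := by ring
    rw [h6]
    linarith
  have hκp : kap p P ^ (2 * d * m ^ 30) ≤ e :=
    kapow_Arm _ d (m ^ 30) hN1 (by linarith) hκ
  have hκp0 : 0 ≤ kap p P ^ (2 * d * m ^ 30) := pow_nonneg (by linarith) _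
  -- the finite graph
  have hFG : FG (bx d R) (Eb d R) (2 * d) := (hF d (bx d R)).1
  have h0mem : (0 : Zd d) ∈ bx d R := by
    rw [(hBox d).2.1 R 0]
    intro j
    simp
  set Q2 : Finset (Zd d) → Prop := fun L => ∃ y ∈ L, y i = ((m ^ 11 : ℕ) : ℤ) with hQ2
  set A1 : Finset (Sym2 (Zd d)) → Prop := Ev (bx d R) 0 (m ^ 30) (fun _ => False) True with hA1
  set A2 : Finset (Sym2 (Zd d)) → Prop := Ev (bx d R) 0 (m ^ 30) Q2 False with hA2
  have hun : pr (Eb d R) P (armF i (m ^ 11)) ≤ pr (Eb d R) P A1 + pr (Eb d R) P A2 := by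
    apply union_Arm hB _ _ hP0.le (by linarith)
    intro ω hω hA
    obtain ⟨y, hy, hcon⟩ := hA
    by_cases hX' : m ^ 30 ≤ Xc (bx d R) ω 0
    · left
      exact Or.inr ⟨hX', trivial⟩
    · right
      refine Or.inl ⟨by omega, y, ?_, hy⟩
      have hyL : y ∈ bx d R := (hC _ (bx d R) (Eb d R) ω (2 * d) hFG hω).2.2.2.1 0 y h0mem hcon
      exact (mem_clu_Arm _ _ _ _).mpr ⟨hyL, hcon⟩
  -- first event
  have hBp := hB _ (Eb d R) p hp0.le hp1.le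
  obtain ⟨-, -, -, -, -, -, hprf, hprm, -, hMark⟩ := hBp
  have ha : pr (Eb d R) p A1 ≤ 8 / (P * t) := by
    have h1 : pr (Eb d R) p A1 ≤ pr (Eb d R) p
        (fun ω => ((m ^ 30 : ℕ) : ℝ) ≤ (Xc (bx d R) ω 0 : ℝ)) := by
      apply hprm
      intro ω hω hA
      rcases hA with ⟨-, h⟩ | ⟨h, -⟩
      · exact h.elim
      · exact_mod_cast h
    have h2 := hMark (fun ω => (Xc (bx d R) ω 0 : ℝ)) ((m ^ 30 : ℕ) : ℝ)
      (fun ω _ => Nat.cast_nonneg _) (by exact_mod_cast hN1)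
    have h3 : ex (Eb d R) p (fun ω => (Xc (bx d R) ω 0 : ℝ)) = hh (bx d R) (Eb d R) p 0 :=
      ((hH _ (bx d R) (Eb d R) (2 * d) p hFG hp0.le hp1.le).1 0).symm
    have h4 : hh (bx d R) (Eb d R) p 0 ≤ chi d p := (hPE p hp0.le hpP (bx d R)).1 0
    rw [h3] at h2
    refine le_trans h1 (le_trans h2 ?_)
    rw [hNt, div_le_div_iff₀ (by positivity) (by positivity)]
    have h5 : hh (bx d R) (Eb d R) p 0 ≤ 8 * t / P := le_trans h4 hχ
    rw [le_div_iff₀ hP0] at h5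
    calc hh (bx d R) (Eb d R) p 0 * (P * t) = (hh (bx d R) (Eb d R) p 0 * P) * t := by ring
      _ ≤ (8 * t) * t := mul_le_mul_of_nonneg_right h5 ht0.le
      _ = 8 * t ^ 2 := by ring
  have ha0 : 0 ≤ pr (Eb d R) p A1 := (hprf A1).1
  have hT1 := hT _ (bx d R) (Eb d R) (2 * d) p P hFG hp0 hp1 hP0.le (by linarith) 0 h0mem (m ^ 30)
    hN1 (fun _ => False) True
  have hT2 := hT _ (bx d R) (Eb d R) (2 * d) p P hFG hp0 hp1 hP0.le (by linarith) 0 h0mem (m ^ 30)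
    hN1 Q2 False
  rw [← hA1] at hT1
  rw [← hA2] at hT2
  have ht3 : t ^ 3 = (m : ℝ) ^ 45 := by rw [ht]; ring
  have hI : (m : ℝ) ^ 45 * (pr (Eb d R) P A1) ^ 4 ≤ e * (8 / P) ^ 3 := by
    have h1 : (pr (Eb d R) P A1) ^ 4 ≤ e * (8 / (P * t)) ^ 3 := by
      refine le_trans hT1 ?_
      apply mul_le_mul hκp (pow_le_pow_left₀ ha0 ha 3) (by positivity) he0.le
    calc (m : ℝ) ^ 45 * (pr (Eb d R) P A1) ^ 4 ≤ (m : ℝ) ^ 45 * (e * (8 / (P * t)) ^ 3) :=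
          mul_le_mul_of_nonneg_left h1 (by positivity)
      _ = e * (8 / P) ^ 3 := by
          rw [← ht3]
          field_simp
  -- second event
  have hR0 : 1 ≤ K * m ^ 10 := Nat.one_le_iff_ne_zero.mpr
    (Nat.mul_ne_zero (by omega) (pow_ne_zero _ (by omega)))
  have h8 : 8 * chi d p ^ 2 ≤ ((K * m ^ 10 : ℕ) : ℝ) ^ 3 := by
    have h1 : chi d p ^ 2 ≤ (8 * t / P) ^ 2 := pow_le_pow_left₀ (by linarith) hχ 2
    have h2 : 8 * (8 * t / P) ^ 2 = (512 / P ^ 2) * t ^ 2 := by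
      field_simp
      norm_num
    have h3 : ((K * m ^ 10 : ℕ) : ℝ) ^ 3 = (K : ℝ) ^ 3 * t ^ 2 := by
      rw [ht]; push_cast; ring
    have h4 : (K : ℝ) ≤ (K : ℝ) ^ 3 := by
      have hK' : (1 : ℝ) ≤ K := by exact_mod_cast hKge
      calc (K : ℝ) = (K : ℝ) ^ 1 := (pow_one _).symm
        _ ≤ (K : ℝ) ^ 3 := pow_le_pow_right₀ hK' (by norm_num)
    calc 8 * chi d p ^ 2 ≤ 8 * (8 * t / P) ^ 2 := by linarith
      _ = (512 / P ^ 2) * t ^ 2 := h2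
      _ ≤ (K : ℝ) ^ 3 * t ^ 2 :=
          mul_le_mul_of_nonneg_right (le_trans hK1 h4) (by positivity)
      _ = ((K * m ^ 10 : ℕ) : ℝ) ^ 3 := h3.symm
  have hdec := hD p hp0.le hpP i (K * m ^ 10) hR0 h8 (m ^ 11)
  have hq : m ^ 11 / (2 * (K * m ^ 10)) = m / (2 * K) := by
    have h1 : m ^ 11 = m * m ^ 10 := by ring
    have h2 : 2 * (K * m ^ 10) = 2 * K * m ^ 10 := by ring
    rw [h1, h2]
    exact Nat.mul_div_mul_right _ _ (pow_pos (by omega) _)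
  rw [hq] at hdec
  have hb : pr (Eb d R) p A2 ≤ 8 * t / P * (1 / 4 : ℝ) ^ (m / (2 * K)) := by
    have h1 : pr (Eb d R) p A2 ≤ pr (Eb d R) p (armF i (m ^ 11)) := by
      apply hprm
      intro ω hω hA
      rcases hA with ⟨-, y, hy, hyi⟩ | ⟨-, h⟩
      · exact ⟨y, hyi, ((mem_clu_Arm _ _ _ _).mp hy).2⟩
      · exact h.elim
    have h2 := le_trans (hG d p i (m ^ 11) R hp0.le hp1.le) hdec
    rw [(hprf (armF i (m ^ 11))).2.2.1] at h2
    have h3 : 0 ≤ chi d p * (1 / 4 : ℝ) ^ (m / (2 * K)) := by positivity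
    rw [ENNReal.ofReal_le_ofReal_iff h3] at h2
    refine le_trans h1 (le_trans h2 ?_)
    exact mul_le_mul_of_nonneg_right hχ (by positivity)
  have hb0 : 0 ≤ pr (Eb d R) p A2 := (hprf A2).1
  have hII : (m : ℝ) ^ 45 * (pr (Eb d R) P A2) ^ 4 ≤ e * (8 / P) ^ 3 * M := by
    have h1 : (pr (Eb d R) P A2) ^ 4 ≤ e * (8 * t / P * (1 / 4 : ℝ) ^ (m / (2 * K))) ^ 3 := by
      refine le_trans hT2 ?_
      apply mul_le_mul hκp (pow_le_pow_left₀ hb0 hb 3) (by positivity) he0.le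
    have h2 : (1 / 4 : ℝ) ^ (3 * (m / (2 * K))) = ((1 / 4 : ℝ) ^ (m / (2 * K))) ^ 3 := by
      rw [mul_comm 3, pow_mul]
    have h3 := hM m hm
    rw [h2] at h3
    calc (m : ℝ) ^ 45 * (pr (Eb d R) P A2) ^ 4
        ≤ (m : ℝ) ^ 45 * (e * (8 * t / P * (1 / 4 : ℝ) ^ (m / (2 * K))) ^ 3) :=
          mul_le_mul_of_nonneg_left h1 (by positivity)
      _ = e * (8 / P) ^ 3 * ((m : ℝ) ^ 45 * t ^ 3 * ((1 / 4 : ℝ) ^ (m / (2 * K))) ^ 3) := by
          rw [mul_pow, div_pow, mul_pow, div_pow]; ring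
      _ = e * (8 / P) ^ 3 * ((m : ℝ) ^ 90 * ((1 / 4 : ℝ) ^ (m / (2 * K))) ^ 3) := by
          rw [ht3]; ring
      _ ≤ e * (8 / P) ^ 3 * M := mul_le_mul_of_nonneg_left h3 (by positivity)
  -- conclusion
  obtain ⟨-, -, -, -, -, -, hprf', -⟩ := hB _ (Eb d R) P hP0.le (by linarith)
  have hc0 : 0 ≤ pr (Eb d R) P (armF i (m ^ 11)) := (hprf' _).1
  have hs := four_Arm (pr (Eb d R) P A1) (pr (Eb d R) P A2)
  calc (m : ℝ) ^ 45 * (pr (Eb d R) P (armF i (m ^ 11))) ^ 4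
      ≤ (m : ℝ) ^ 45 * (8 * ((pr (Eb d R) P A1) ^ 4 + (pr (Eb d R) P A2) ^ 4)) := by
        apply mul_le_mul_of_nonneg_left _ (by positivity)
        exact le_trans (pow_le_pow_left₀ hc0 hun 4) hs
    _ = 8 * ((m : ℝ) ^ 45 * (pr (Eb d R) P A1) ^ 4 + (m : ℝ) ^ 45 * (pr (Eb d R) P A2) ^ 4) := by
        ring
    _ ≤ 8 * (e * (8 / P) ^ 3 + e * (8 / P) ^ 3 * M) := by linarith

end Pool.WF
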