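import Pool.Agent.Helper56.WF.St
import Pool.Agent.Helper84.LE.BWT

set_option autoImplicit false

open scoped BigOperators ENNReal Topology
open Pool.LE Pool.NL

namespace Pool.WF

theorem hArmG (_hBox : StBox) : StArmG := by
  intro d p i L R hp0 hp1
  have h1 : Pr (Eb d R) p (armF i L) ≤
      ∑' y : Zd d, Pr (Eb d R) p (fun ω => y i = (L : ℤ) ∧ con ω 0 y) :=
    Pr_exists_le (fun (y : Zd d) ω => y i = (L : ℤ) ∧ con ω 0 y)
  refine h1.trans ?_
  unfold Gs
  refine ENNReal.tsum_le_tsum fun y => ?_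
  by_cases hy : y i = (L : ℤ)
  · rw [if_pos hy]
    have h2 : (fun ω : Finset (Sym2 (Zd d)) => y i = (L : ℤ) ∧ con ω 0 y) =
        fun ω => con ω 0 y := by
      funext ω
      simp [hy]
    rw [h2]
    exact le_iSup (fun R : ℕ => Pr (Eb d R) p (fun ω => con ω 0 y)) R
  · rw [if_neg hy]
    have h2 : (fun ω : Finset (Sym2 (Zd d)) => y i = (L : ℤ) ∧ con ω 0 y) =
        fun _ => False := by
      funext ω
      simp [hy]
    rw [h2]
    unfold Pr ExE
    simp

end Pool.WF
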