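import Pool.Agent.Helper56.WF.St

set_option autoImplicit false

open scoped BigOperators ENNReal Topology
open Pool.LE Pool.NL Filter MeasureTheory

namespace Pool.WF

private theorem con_mono_ArmW {d : ℕ} {η η' : Finset (Sym2 (Zd d))} (h : η ⊆ η') (x y : Zd d)
    (hc : con η x y) : con η' x y := by
  unfold con at hc ⊢
  exact hc.mono (SimpleGraph.fromEdgeSet_mono (by exact_mod_cast h))

open Pool.Agent.Helper56.WP in
theorem hArmW (hL : StLawW) (hR : StReW) : StArmW := by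
  intro d _ p r
  have h1 : (arm d r : Set (Cfg d)) = ⋃ R : ℕ, {ω : Cfg d | armF 0 r (opW R ω)} := by
    ext ω
    obtain ⟨hc, -, -⟩ := hR d ω
    simp only [arm, Set.mem_ofPred_eq, Set.mem_iUnion, armF]
    constructor
    · rintro ⟨y, hy, hyc⟩
      obtain ⟨R, hR'⟩ := (hc y).1 hyc
      exact ⟨R, y, hy, hR'⟩
    · rintro ⟨R, y, hy, hyc⟩
      exact ⟨y, hy, (hc y).2 ⟨R, hyc⟩⟩
  have hmono : Monotone fun R : ℕ => {ω : Cfg d | armF 0 r (opW R ω)} := by
    intro R R' hRR ω hω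
    obtain ⟨-, hm, -⟩ := hR d ω
    obtain ⟨y, hy, hyc⟩ := hω
    exact ⟨y, hy, con_mono_ArmW (hm R R' hRR) 0 y hyc⟩
  rw [h1, hmono.measure_iUnion]
  exact iSup_congr fun R => (hL d R p (armF 0 r)).1

end Pool.WF
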