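import Pool.Agent.Helper56.WF.St
import Pool.Agent.Helper84.LE.BWT

/-! # Project WF: module Cp (domination by the lattice two-point function) -/

set_option autoImplicit false

open scoped BigOperators ENNReal Topology
open Pool.LE Pool.NL

namespace Pool.WF

theorem hCp (hTD : StTauDom) (hTB : StTauBasic) (hB : StBasic) (hF : StFG) : StCp := by
  intro d S p x y h0 h1
  obtain ⟨-, hlat⟩ := hF d S
  have hdom := hTD d p (ES S) x y h0 h1 hlat
  obtain ⟨-, -, -, hTof, hT01⟩ := hTB d p h0 h1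
  obtain ⟨-, -, -, -, -, -, hpr, -⟩ := hB (Zd d) (ES S) p h0 h1
  obtain ⟨hp0, hp1, hpE, -⟩ := hpr (fun ω => con ω x y)
  rw [hpE, ← hTof] at hdom
  exact (ENNReal.ofReal_le_ofReal_iff (hT01 _).1).1 hdom

end Pool.WF
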