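import Pool.Agent.Helper56.WF.St

set_option autoImplicit false

open scoped BigOperators ENNReal Topology
open Pool.LE Pool.NL Filter

namespace Pool.WF

private theorem ratio_Dbl (k d : ℕ) :
    Tendsto (fun n : ℕ => (((n - k : ℕ) : ℝ) / n) ^ d) atTop (𝓝 1) := by
  have h1 : Tendsto (fun n : ℕ => ((n - k : ℕ) : ℝ) / n) atTop (𝓝 1) := by
    have h2 : Tendsto (fun n : ℕ => 1 - (k : ℝ) / n) atTop (𝓝 (1 - 0)) :=
      tendsto_const_nhds.sub (tendsto_const_div_atTop_nhds_zero_nat (k : ℝ))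
    rw [sub_zero] at h2
    refine h2.congr' ?_
    filter_upwards [eventually_ge_atTop (max k 1)] with n hn
    have hk : k ≤ n := (le_max_left _ _).trans hn
    have hn0 : (n : ℝ) ≠ 0 := by
      have : 1 ≤ n := (le_max_right _ _).trans hn
      positivity
    rw [Nat.cast_sub hk]
    field_simp
  simpa using h1.pow d

theorem hDbl (hFV : StFV) (hL : StHcLim) (hB1 : StB1) : StDbl := by
  obtain ⟨d₁, hd₁, hFV⟩ := hFV
  refine ⟨d₁, hd₁, fun d hd p₁ p₂ hp1 hp12 hp2 hchi => ?_⟩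
  have h := hFV d hd p₁ p₂ hp1 hp12 hp2 hchi
  have hd1 : 1 ≤ d := hd₁.trans hd
  -- n → ∞
  have step1 : ∀ m : ℕ, hc d m p₁ + (p₂ - p₁) * (2 * d) *
      (hc d m p₁ ^ 2 - chi d p₁ ^ 2 / 4) ≤ chi d p₂ := by
    intro m
    have hlim : Tendsto (fun n : ℕ => (((n - 2 * m : ℕ) : ℝ) / n) ^ d * hc d m p₁ +
        (p₂ - p₁) * (2 * d) * ((((n - (2 * m + 2) : ℕ) : ℝ) / n) ^ d * hc d m p₁ ^ 2 -
          chi d p₁ ^ 2 / 4)) atTop (𝓝 (1 * hc d m p₁ + (p₂ - p₁) * (2 * d) *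
      (1 * hc d m p₁ ^ 2 - chi d p₁ ^ 2 / 4))) :=
      ((ratio_Dbl (2 * m) d).mul_const _).add
        ((((ratio_Dbl (2 * m + 2) d).mul_const _).sub_const _).const_mul _)
    rw [one_mul, one_mul] at hlim
    refine le_of_tendsto hlim ?_
    filter_upwards [eventually_ge_atTop (2 * m + 2)] with n hn
    have hn0 : (0 : ℝ) < (n : ℝ) := by
      have : 1 ≤ n := by omega
      positivity
    have hnd : (0 : ℝ) < (n : ℝ) ^ d := pow_pos hn0 d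
    have h1 := h m n hn
    have h2 : n - 2 * m - 2 = n - (2 * m + 2) := by omega
    rw [h2] at h1
    have h3 : ((((n - 2 * m : ℕ) : ℝ) / n) ^ d * hc d m p₁ +
        (p₂ - p₁) * (2 * d) * ((((n - (2 * m + 2) : ℕ) : ℝ) / n) ^ d * hc d m p₁ ^ 2 -
          chi d p₁ ^ 2 / 4)) * (n : ℝ) ^ d =
        ((n - 2 * m : ℕ) : ℝ) ^ d * hc d m p₁ + (p₂ - p₁) * (2 * d) *
        (((n - (2 * m + 2) : ℕ) : ℝ) ^ d * hc d m p₁ ^ 2 - (n : ℝ) ^ d * (chi d p₁ ^ 2 / 4)) := by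
      rw [div_pow, div_pow]
      field_simp
    have h4 : ((((n - 2 * m : ℕ) : ℝ) / n) ^ d * hc d m p₁ +
        (p₂ - p₁) * (2 * d) * ((((n - (2 * m + 2) : ℕ) : ℝ) / n) ^ d * hc d m p₁ ^ 2 -
          chi d p₁ ^ 2 / 4)) * (n : ℝ) ^ d ≤ chi d p₂ * (n : ℝ) ^ d := by
      rw [h3, mul_comm (chi d p₂)]
      exact h1
    exact le_of_mul_le_mul_right h4 hnd
  -- m → ∞
  have hlim2 := hL d p₁ hd1 hp1.le (hp12.trans hp2)
  have step2 : chi d p₁ + (p₂ - p₁) * (2 * d) * (chi d p₁ ^ 2 - chi d p₁ ^ 2 / 4) ≤ chi d p₂ := by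
    have hlim3 : Tendsto (fun m : ℕ => hc d m p₁ + (p₂ - p₁) * (2 * d) *
        (hc d m p₁ ^ 2 - chi d p₁ ^ 2 / 4)) atTop
        (𝓝 (chi d p₁ + (p₂ - p₁) * (2 * d) * (chi d p₁ ^ 2 - chi d p₁ ^ 2 / 4))) :=
      hlim2.add (((hlim2.pow 2).sub_const _).const_mul _)
    exact le_of_tendsto' hlim3 step1
  obtain ⟨-, -, hchi1, -, -, -, -⟩ := hB1 d p₁ (by omega) hp1.le (hp12.trans hp2)
  have hδ : 0 < p₂ - p₁ := sub_pos.mpr hp12
  have hdr : (1 : ℝ) ≤ d := by exact_mod_cast hd1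
  have h5 : (p₂ - p₁) * (2 * d) * (chi d p₁ ^ 2 - chi d p₁ ^ 2 / 4) ≤ chi d p₁ := by linarith
  have h6 : (p₂ - p₁) * chi d p₁ * (3 / 2 * d) * chi d p₁ ≤ 1 * chi d p₁ := by
    calc (p₂ - p₁) * chi d p₁ * (3 / 2 * d) * chi d p₁
        = (p₂ - p₁) * (2 * d) * (chi d p₁ ^ 2 - chi d p₁ ^ 2 / 4) := by ring
      _ ≤ 1 * chi d p₁ := by rw [one_mul]; exact h5
  have h7 : (p₂ - p₁) * chi d p₁ * (3 / 2 * d) ≤ 1 := le_of_mul_le_mul_right h6 (by linarith)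
  have h8 : 0 ≤ (p₂ - p₁) * chi d p₁ := mul_nonneg hδ.le (by linarith)
  nlinarith

end Pool.WF
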