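import Pool.Agent.Helper56.WF.St

/-!
# Project WF (MP_65faa7), module Dec: exponential decay on the scale `χ^{2/3}`
-/

set_option autoImplicit false

open scoped BigOperators ENNReal Topology
open Pool.LE Pool.NL

namespace Pool.WF

private theorem pt_Dec {d : ℕ} (i : Fin d) (R₀ : ℕ) (x : Zd d) (t : ENNReal) :
    ∑ r ∈ Finset.Ioc R₀ (2 * R₀), ((r : ENNReal) ^ 2 * if x i = (r : ℤ) then t else 0) ≤
      ENNReal.ofReal (LE.sq x) * t := by
  by_cases h : ∃ r ∈ Finset.Ioc R₀ (2 * R₀), x i = (r : ℤ)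
  · obtain ⟨r, hr, hx⟩ := h
    rw [Finset.sum_eq_single_of_mem r hr]
    · rw [if_pos hx]
      refine mul_le_mul_left ?_ t
      have h1 : ((r : ENNReal)) ^ 2 = ENNReal.ofReal ((r : ℝ) ^ 2) := by
        rw [ENNReal.ofReal_pow (Nat.cast_nonneg r), ENNReal.ofReal_natCast]
      rw [h1]
      apply ENNReal.ofReal_le_ofReal
      have h2 : ((x i : ℤ) : ℝ) ^ 2 ≤ LE.sq x := by
        unfold LE.sq
        exact Finset.single_le_sum (f := fun j => ((x j : ℤ) : ℝ) ^ 2)
          (fun j _ => sq_nonneg _) (Finset.mem_univ i)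
      rw [hx] at h2
      exact_mod_cast h2
    · intro s _ hs
      rw [if_neg, mul_zero]
      intro h'
      apply hs
      rw [hx] at h'
      exact_mod_cast h'.symm
  · push Not at h
    rw [Finset.sum_eq_zero]
    · exact zero_le
    · intro r hr
      rw [if_neg (h r hr), mul_zero]

private theorem sum_Dec {d : ℕ} (p : ℝ) (i : Fin d) (R₀ : ℕ) :
    ∑ r ∈ Finset.Ioc R₀ (2 * R₀), ((r : ENNReal) ^ 2 * Gs d p i r) ≤
      ∑' x : Zd d, ENNReal.ofReal (LE.sq x) * tauE d p x := by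
  have h1 : ∑ r ∈ Finset.Ioc R₀ (2 * R₀), ((r : ENNReal) ^ 2 * Gs d p i r) =
      ∑' x : Zd d, ∑ r ∈ Finset.Ioc R₀ (2 * R₀),
        ((r : ENNReal) ^ 2 * if x i = (r : ℤ) then tauE d p x else 0) := by
    rw [Summable.tsum_finsetSum fun _ _ => ENNReal.summable]
    refine Finset.sum_congr rfl fun r _ => ?_
    rw [ENNReal.tsum_mul_left]
    rfl
  rw [h1]
  exact ENNReal.tsum_le_tsum fun x => pt_Dec i R₀ x _

private theorem pow_Dec (hS : StSubm) {d : ℕ} {p : ℝ} (i : Fin d) (hp : 0 ≤ p) (hp' : p ≤ 1 / 2)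
    (r t k : ℕ) : Gs d p i (r * k + t) ≤ Gs d p i r ^ k * Gs d p i t := by
  induction k with
  | zero => rw [mul_zero, zero_add, pow_zero, one_mul]
  | succ k ih =>
    have e : r * (k + 1) + t = r + (r * k + t) := by ring
    rw [e]
    refine (hS d p i r (r * k + t) hp hp').trans ?_
    calc Gs d p i r * Gs d p i (r * k + t) ≤ Gs d p i r * (Gs d p i r ^ k * Gs d p i t) :=
          mul_le_mul_right ih _
      _ = Gs d p i r ^ (k + 1) * Gs d p i t := by ring

theorem hDec (hM : StMom) (hS : StSubm) (hB1 : StB1) (hTB : StTauBasic) (_hS6 : StS6d) :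
    StDec := by
  obtain ⟨d₁, hd₁, hM⟩ := hM
  refine ⟨d₁, hd₁, fun d hd p hp0 hpH i R₀ hR₀ hχ L => ?_⟩
  have hdpos : 0 < d := by omega
  obtain ⟨hp2, hSQ, hχ1, -, -, -, -⟩ := hB1 d p hdpos hp0 hpH
  obtain ⟨-, -, -, hofR, hnn⟩ := hTB d p hp0 (by linarith)
  have hMom := hM d hd p hp0 hpH
  set χ := chi d p with hχdef
  -- the total sum
  have hsummable : Summable fun x : Zd d => tau d p x := by
    refine Summable.of_nonneg_of_le (fun x => (hnn x).1) (fun x => ?_) hSQ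
    have h1 : 0 ≤ LE.sq x := by
      unfold LE.sq
      exact Finset.sum_nonneg fun j _ => sq_nonneg _
    have h2 : (1 : ℝ) ≤ Qw x := by unfold Qw; linarith
    rw [abs_of_nonneg (hnn x).1]
    nlinarith [(hnn x).1]
  have htot : ∑' x : Zd d, tauE d p x = ENNReal.ofReal χ := by
    rw [hχdef]
    unfold chi
    rw [ENNReal.ofReal_tsum_of_nonneg (fun x => (hnn x).1) hsummable]
    exact tsum_congr fun x => (hofR x).symm
  have hGχ : ∀ r, Gs d p i r ≤ ENNReal.ofReal χ := by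
    intro r
    rw [← htot]
    unfold Gs
    refine ENNReal.tsum_le_tsum fun x => ?_
    split_ifs
    · exact le_rfl
    · exact zero_le
  -- a good scale
  obtain ⟨r, hr, hGr⟩ : ∃ r ∈ Finset.Ioc R₀ (2 * R₀), Gs d p i r ≤ ENNReal.ofReal (1 / 4) := by
    by_contra hcon
    push Not at hcon
    have h1 := (sum_Dec p i R₀).trans hMom
    have h2 : ∑ _r ∈ Finset.Ioc R₀ (2 * R₀), ENNReal.ofReal (((R₀ : ℝ) + 1) ^ 2 * (1 / 4)) ≤
        ∑ r ∈ Finset.Ioc R₀ (2 * R₀), ((r : ENNReal) ^ 2 * Gs d p i r) := by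
      refine Finset.sum_le_sum fun r hr => ?_
      rw [ENNReal.ofReal_mul (by positivity)]
      refine mul_le_mul' ?_ (hcon r hr).le
      rw [ENNReal.ofReal_pow (by positivity)]
      gcongr
      have h3 : (R₀ : ℝ) + 1 ≤ (r : ℝ) := by
        rw [Finset.mem_Ioc] at hr
        exact_mod_cast hr.1
      calc ENNReal.ofReal ((R₀ : ℝ) + 1) ≤ ENNReal.ofReal (r : ℝ) := ENNReal.ofReal_le_ofReal h3
        _ = (r : ENNReal) := ENNReal.ofReal_natCast r
    have h4 := h2.trans h1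
    rw [Finset.sum_const, Nat.card_Ioc, nsmul_eq_mul] at h4
    have h5 : 2 * R₀ - R₀ = R₀ := by omega
    rw [h5, ← ENNReal.ofReal_natCast, ← ENNReal.ofReal_mul (by positivity),
      ENNReal.ofReal_le_ofReal_iff (by positivity)] at h4
    have h6 : (1 : ℝ) ≤ R₀ := by exact_mod_cast hR₀
    nlinarith [sq_nonneg (R₀ : ℝ)]
  have hr' := Finset.mem_Ioc.1 hr
  have hrpos : 0 < r := by omega
  have h1 := pow_Dec hS i hp0 hp2 r (L % r) (L / r)
  rw [Nat.div_add_mod] at h1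
  refine h1.trans ?_
  have h2 : L / (2 * R₀) ≤ L / r := Nat.div_le_div_left hr'.2 hrpos
  rw [ENNReal.ofReal_mul (by linarith), mul_comm, ENNReal.ofReal_pow (by norm_num)]
  refine mul_le_mul' (hGχ _) ?_
  calc Gs d p i r ^ (L / r) ≤ ENNReal.ofReal (1 / 4) ^ (L / r) := by gcongr
    _ ≤ ENNReal.ofReal (1 / 4) ^ (L / (2 * R₀)) := by
        refine pow_le_pow_of_le_one zero_le ?_ h2
        exact ENNReal.ofReal_le_one.2 (by norm_num)

end Pool.WF
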