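import Pool.Agent.Helper56.WF.St
import Pool.Agent.Helper84.LE.BGR

/-! # Project WF, module Der: derivative of the total mean cluster size -/

set_option autoImplicit false

open scoped BigOperators ENNReal Topology
open Pool.LE Pool.NL

namespace Pool.WF

open Classical in
private lemma ind3_Der (A B C : Prop) : ind A * ind B * ind (¬ C) = if A ∧ B ∧ ¬ C then (1 : ℝ) else 0 := by
  unfold ind
  by_cases hA : A
  · by_cases hB : B
    · by_cases hC : ¬ C
      · rw [if_pos hA, if_pos hB, if_pos hC, if_pos ⟨hA, hB, hC⟩]; norm_num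
      · rw [if_neg hC, mul_zero, if_neg (fun h => hC h.2.2)]
    · rw [if_neg hB, mul_zero, zero_mul, if_neg (fun h => hB h.2.1)]
  · rw [if_neg hA, zero_mul, zero_mul, if_neg (fun h => hA h.1)]

open Classical in
private lemma count_Der {V : Type} [DecidableEq V] (E ω : Finset (Sym2 V)) (x y : V) :
    ∑ ub ∈ drt E, ind (con ω ub.1 x) * ind (con ω ub.2 y) * ind (¬ con ω ub.1 ub.2) ≤
      ∑ e ∈ E, if ¬ con ω x y ∧ con (insert e ω) x y then (1 : ℝ) else 0 := by
  have h1 : ∑ ub ∈ drt E, ind (con ω ub.1 x) * ind (con ω ub.2 y) * ind (¬ con ω ub.1 ub.2) =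
      (((drt E).filter (fun ub => con ω ub.1 x ∧ con ω ub.2 y ∧ ¬ con ω ub.1 ub.2)).card : ℝ) := by
    rw [Finset.card_filter]
    push_cast
    exact Finset.sum_congr rfl fun ub _ => ind3_Der _ _ _
  have h2 : (∑ e ∈ E, if ¬ con ω x y ∧ con (insert e ω) x y then (1 : ℝ) else 0) =
      ((E.filter (fun e => ¬ con ω x y ∧ con (insert e ω) x y)).card : ℝ) := by
    rw [Finset.card_filter]
    push_cast
    rfl
  rw [h1, h2]
  have h3 : ((drt E).filter (fun ub => con ω ub.1 x ∧ con ω ub.2 y ∧ ¬ con ω ub.1 ub.2)).card ≤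
      (E.filter (fun e => ¬ con ω x y ∧ con (insert e ω) x y)).card := by
    refine Finset.card_le_card_of_injOn (fun ub => s(ub.1, ub.2)) ?_ ?_
    · intro ub hub
      rw [Finset.mem_coe, Finset.mem_filter] at hub
      rw [Finset.mem_coe, Finset.mem_filter]
      obtain ⟨hd, hx, hy, hn⟩ := hub
      refine ⟨mem_drt'.1 hd, fun h => hn (con_trans hx (con_trans h (con_symm hy))), ?_⟩
      have hsub : ω ⊆ insert s(ub.1, ub.2) ω := Finset.subset_insert _ _
      exact con_trans (con_mono hsub (con_symm hx))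
        (con_trans (con_of_mem (Finset.mem_insert_self _ _)) (con_mono hsub hy))
    · intro ub hub vc hvc h
      rw [Finset.mem_coe, Finset.mem_filter] at hub hvc
      obtain ⟨-, hx, hy, hn⟩ := hub
      obtain ⟨-, hx', hy', hn'⟩ := hvc
      have h' : s(ub.1, ub.2) = s(vc.1, vc.2) := h
      rw [Sym2.eq_iff] at h'
      rcases h' with ⟨h1, h2⟩ | ⟨h1, h2⟩
      · exact Prod.ext h1 h2
      · exfalso
        rw [← h2] at hx'
        exact hn (con_trans hx (con_symm hx'))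
  exact_mod_cast h3

open Classical in
private lemma path_Der {V : Type} [DecidableEq V] (hC : StClu) (L : Finset V) (E ω : Finset (Sym2 V)) (D : ℕ)
    (hG : FG L E D) (hω : ω ⊆ E) :
    ∑ ub ∈ drt E, (Xc L ω ub.1 : ℝ) * Xc L ω ub.2 * ind (¬ con ω ub.1 ub.2) ≤
      ∑ x ∈ L, ∑ y ∈ L, ∑ e ∈ E, if ¬ con ω x y ∧ con (insert e ω) x y then (1 : ℝ) else 0 := by
  obtain ⟨-, -, -, -, -, hX, -⟩ := hC V L E ω D hG hω
  have h1 : ∑ ub ∈ drt E, (Xc L ω ub.1 : ℝ) * Xc L ω ub.2 * ind (¬ con ω ub.1 ub.2) =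
      ∑ ub ∈ drt E, ∑ x ∈ L, ∑ y ∈ L,
        ind (con ω ub.1 x) * ind (con ω ub.2 y) * ind (¬ con ω ub.1 ub.2) := by
    refine Finset.sum_congr rfl fun ub _ => ?_
    rw [hX, hX, Finset.sum_mul_sum, Finset.sum_mul]
    refine Finset.sum_congr rfl fun x _ => ?_
    rw [Finset.sum_mul]
  rw [h1, Finset.sum_comm]
  refine Finset.sum_le_sum fun x _ => ?_
  rw [Finset.sum_comm]
  exact Finset.sum_le_sum fun y _ => count_Der E ω x y

theorem hDer (hR : StRusso) (hB : StBasic) (hC : StClu) : StDer := by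
  classical
  intro V _ L E D p hG hp0 hp1
  have hR' : ∀ x y : V, ∃ D : ℝ, HasDerivAt (fun q : ℝ => cp E q x y) D p ∧
      ex E p (fun ω => ∑ e ∈ E, if ¬ con ω x y ∧ con (insert e ω) x y then (1 : ℝ) else 0) ≤ D := by
    intro x y
    obtain ⟨D0, h1, h2⟩ := hR V E (fun ω => con ω x y) (fun ω η h hc => con_mono h hc) p hp0 hp1
    refine ⟨D0, ?_, ?_⟩
    · have he : (fun q : ℝ => cp E q x y) = fun q : ℝ => Ex E q (fun ω => if con ω x y then (1 : ℝ) else 0) := by
        funext q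
        unfold cp pr
        refine congrArg (Ex E q) ?_
        funext ω
        unfold ind
        split_ifs <;> rfl
      rw [he]
      exact h1
    · exact h2
  choose D0 hD0 hD1 using hR'
  refine ⟨∑ x ∈ L, ∑ y ∈ L, D0 x y, ?_, ?_⟩
  · unfold hh
    exact HasDerivAt.fun_sum fun x _ => HasDerivAt.fun_sum fun y _ => hD0 x y
  · obtain ⟨hmono, -, -, -, -, hsum, -⟩ := hB V E p hp0.le hp1.le
    have h1 : brg L E p = ex E p (fun ω => ∑ ub ∈ drt E,
        (Xc L ω ub.1 : ℝ) * Xc L ω ub.2 * ind (¬ con ω ub.1 ub.2)) := by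
      rw [hsum]
      rfl
    have h2 : ex E p (fun ω => ∑ x ∈ L, ∑ y ∈ L, ∑ e ∈ E,
        if ¬ con ω x y ∧ con (insert e ω) x y then (1 : ℝ) else 0) ≤ ∑ x ∈ L, ∑ y ∈ L, D0 x y := by
      rw [hsum V L (fun x ω => ∑ y ∈ L, ∑ e ∈ E,
        if ¬ con ω x y ∧ con (insert e ω) x y then (1 : ℝ) else 0)]
      refine Finset.sum_le_sum fun x _ => ?_
      rw [hsum V L (fun y ω => ∑ e ∈ E,
        if ¬ con ω x y ∧ con (insert e ω) x y then (1 : ℝ) else 0)]
      exact Finset.sum_le_sum fun y _ => hD1 x y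
    rw [h1]
    exact (hmono _ _ fun ω hω => path_Der hC L E ω D hG hω).trans h2

end Pool.WF
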