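import Pool.Agent.Helper56.WF.St
import Pool.Agent.Helper84.LE.BWT
import Pool.Agent.Helper84.LE.BGR
import Pool.Agent.Helper22.NL.StZ

/-! # Project WF: the finite volume inequality -/

set_option autoImplicit false

open scoped BigOperators ENNReal Topology
open Pool.LE Pool.NL

namespace Pool.WF
namespace FV

/-- the points of the box at distance at least `k` from the complement -/
noncomputable def inn (d n k : ℕ) : Finset (Zd d) :=
  Fintype.piFinset fun _ => Finset.Ico (k : ℤ) ((n : ℤ) - k)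

theorem mem_inn (d n k : ℕ) (x : Zd d) : x ∈ inn d n k ↔ ∀ i, (k : ℤ) ≤ x i ∧ x i < (n : ℤ) - k := by
  unfold inn
  rw [Fintype.mem_piFinset]
  simp only [Finset.mem_Ico]

theorem card_inn (d n k : ℕ) (h : 2 * k ≤ n) : (inn d n k).card = (n - 2 * k) ^ d := by
  unfold inn
  rw [Fintype.card_piFinset]
  simp only [Int.card_Ico, Finset.prod_const, Finset.card_univ, Fintype.card_fin]
  congr 1
  omega

theorem chi_mono (hB1 : StB1) (hTM : StTauMono) (hTB : StTauBasic) {d : ℕ} {p q : ℝ} (hd : 0 < d)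
    (h0 : 0 ≤ p) (hpq : p ≤ q) (hq : q < pH d) : chi d p ≤ chi d q := by
  obtain ⟨hp2, hS, -⟩ := hB1 d p hd h0 (lt_of_le_of_lt hpq hq)
  obtain ⟨hq2, hS', -⟩ := hB1 d q hd (h0.trans hpq) hq
  have hsum : ∀ r : ℝ, SumQ (tau d r) → (∀ x, 0 ≤ tau d r x) → Summable (tau d r) := by
    intro r hr hr0
    refine Summable.of_nonneg_of_le hr0 (fun x => ?_) hr
    have h1 : 1 ≤ Qw x := by
      unfold Qw LE.sq
      have : 0 ≤ ∑ i, ((x i : ℝ)) ^ 2 := Finset.sum_nonneg fun i _ => by positivity
      linarith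
    have h2 := abs_of_nonneg (hr0 x)
    rw [h2]
    nlinarith [hr0 x]
  obtain ⟨-, -, -, he, hb⟩ := hTB d p h0 (by linarith)
  obtain ⟨-, -, -, he', hb'⟩ := hTB d q (h0.trans hpq) (by linarith)
  unfold chi
  refine Summable.tsum_le_tsum (fun x => ?_) (hsum p hS fun x => (hb x).1) (hsum q hS' fun x => (hb' x).1)
  have h1 := hTM d p q x h0 hpq (by linarith)
  rw [← he, ← he'] at h1
  exact (ENNReal.ofReal_le_ofReal_iff (hb' x).1).1 h1

end FV

open FV in
theorem hFV (hD : StDer) (hPE : StPE) (hHc : StHc) (hP1 : StPair1) (_hF : StFG) (hC : StClu)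
    (hH : StHh) (hBn : StBn) (hB1 : StB1) (hBox : StBox) (hTM : StTauMono) (hTB : StTauBasic)
    (_hS6 : StS6d) : StFV := by
  obtain ⟨d₁, hd₁, hPE⟩ := hPE
  refine ⟨d₁, hd₁, ?_⟩
  intro d hd p₁ p₂ hp₁ hlt hp₂ hchi m n hmn
  have hd0 : 0 < d := by omega
  obtain ⟨hG, hcard, -, hmem, -⟩ := hBn d n
  obtain ⟨-, hbx, hnb, -, -, -, hbx1, hES, -, -, -, hnbc, -⟩ := hBox d
  set S := Bn d n with hS
  set E := ES (Bn d n) with hE
  obtain ⟨hp₂', -⟩ := hB1 d p₂ hd0 (by linarith) hp₂
  obtain ⟨hmono, hc0, hlow⟩ := hHc d m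
  have hchi1 : 0 ≤ chi d p₁ := by
    obtain ⟨-, -, h, -⟩ := hB1 d p₁ hd0 hp₁.le (hlt.trans hp₂)
    linarith
  set c : ℝ := (2 * d) * (((n - 2 * m - 2 : ℕ) : ℝ) ^ d * hc d m p₁ ^ 2 -
    (n : ℝ) ^ d * (chi d p₁ ^ 2 / 4)) with hcd
  -- lower bound of the derivative
  have hbrg : ∀ q : ℝ, p₁ ≤ q → q ≤ p₂ → c ≤ brg S E q := by
    intro q hq1 hq2
    have hq0 : 0 ≤ q := by linarith
    have hq12 : q ≤ 1 / 2 := by linarith
    have hqH : q < pH d := lt_of_le_of_lt hq2 hp₂
    obtain ⟨hh0, hcp, -, -, hh1⟩ := hH (Zd d) S E (2 * d) q hG hq0 (by linarith)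
    have hhn : ∀ x, 0 ≤ hh S E q x := by
      intro x
      unfold hh
      exact Finset.sum_nonneg fun y _ => (hcp x y).2.1
    have hin : ∀ ab ∈ drt E, ab.1 ∈ S ∧ ab.2 ∈ S := by
      intro ab hab
      have h1 := mem_drt'.1 hab
      exact ⟨hG.inside _ h1 _ (Sym2.mem_mk_left _ _), hG.inside _ h1 _ (Sym2.mem_mk_right _ _)⟩
    have h1 : ∑ ab ∈ drt E, (hh S E q ab.1 * hh S E q ab.2 - chi d q ^ 2 / 16) ≤ brg S E q := by
      unfold brg
      refine Finset.sum_le_sum fun ab hab => ?_
      have h2 := hP1 (Zd d) S E (2 * d) q hG hq0 hq12 ab.1 (hin ab hab).1 ab.2 (hin ab hab).2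
      have h3 := (hPE d hd q hq0 hqH S).2 ab hab
      linarith
    have h2 : ∑ ab ∈ drt E, (hh S E q ab.1 * hh S E q ab.2 - chi d q ^ 2 / 16) =
        ∑ ab ∈ drt E, hh S E q ab.1 * hh S E q ab.2 - ((drt E).card : ℝ) * (chi d q ^ 2 / 16) := by
      rw [Finset.sum_sub_distrib, Finset.sum_const, nsmul_eq_mul]
    have h3 : ((drt E).card : ℝ) ≤ 2 * d * (n : ℝ) ^ d := by
      obtain ⟨-, -, -, -, -, -, h4, -⟩ := hC (Zd d) S E ∅ (2 * d) hG (Finset.empty_subset _)
      rw [hcard] at h4
      exact_mod_cast h4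
    have h4 : chi d q ^ 2 / 16 ≤ chi d p₁ ^ 2 / 4 := by
      have h5 := chi_mono hB1 hTM hTB hd0 hq0 hq2 hp₂
      have h6 : 0 ≤ chi d q := by
        obtain ⟨-, -, h, -⟩ := hB1 d q hd0 hq0 hqH
        linarith
      have h7 : chi d q ≤ 2 * chi d p₁ := h5.trans hchi
      nlinarith
    have h5 : 2 * (d : ℝ) * (((n - 2 * m - 2 : ℕ) : ℝ) ^ d * hc d m p₁ ^ 2) ≤
        ∑ ab ∈ drt E, hh S E q ab.1 * hh S E q ab.2 := by
      classical
      have h6 : (inn d n (m + 1)).card = (n - 2 * m - 2) ^ d := by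
        rw [card_inn d n (m + 1) (by omega)]
        congr 1
      have hsub : (inn d n (m + 1)).biUnion (fun a => (nb a).image (fun b => (a, b))) ⊆ drt E := by
        intro q' hq'
        obtain ⟨a, ha, hq''⟩ := Finset.mem_biUnion.1 hq'
        obtain ⟨b, hb, rfl⟩ := Finset.mem_image.1 hq''
        rw [mem_drt, hE, hES]
        have ha' := (mem_inn d n (m + 1) a).1 ha
        refine ⟨(hmem a).2 fun i => ?_, (hmem b).2 fun i => ?_, hb⟩
        · have := ha' i
          push_cast at this
          omega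
        · obtain ⟨j, hj⟩ := (hnb a b).1 hb
          have h7 := ha' i
          push_cast at h7
          have h8 : |b i - a i| ≤ 1 := by
            rcases hj with hj | hj
            · rw [hj, Pi.add_apply]
              by_cases hij : i = j
              · subst hij; simp
              · simp [Pi.single_eq_of_ne hij]
            · rw [hj, Pi.sub_apply]
              by_cases hij : i = j
              · subst hij; simp
              · simp [Pi.single_eq_of_ne hij]
          have h9 := abs_le.1 h8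
          omega
      have h7 : ∑ ab ∈ (inn d n (m + 1)).biUnion (fun a => (nb a).image (fun b => (a, b))),
          hh S E q ab.1 * hh S E q ab.2 ≤ ∑ ab ∈ drt E, hh S E q ab.1 * hh S E q ab.2 :=
        Finset.sum_le_sum_of_subset_of_nonneg hsub fun ab _ _ => mul_nonneg (hhn _) (hhn _)
      refine le_trans ?_ h7
      rw [Finset.sum_biUnion]
      · have h8 : ∀ a ∈ inn d n (m + 1), 2 * (d : ℝ) * hc d m p₁ ^ 2 ≤
            ∑ ab ∈ (nb a).image (fun b => (a, b)), hh S E q ab.1 * hh S E q ab.2 := by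
          intro a ha
          have ha' := (mem_inn d n (m + 1) a).1 ha
          rw [Finset.sum_image (fun b _ b' _ h => (Prod.mk.inj h).2)]
          have h9 : ∀ b ∈ nb a, hc d m p₁ ^ 2 ≤ hh S E q a * hh S E q b := by
            intro b hb
            have h10 : hc d m q ≤ hh S E q a := by
              refine hlow q S a hq0 (by linarith) fun y hy => (hmem _).2 fun i => ?_
              have h11 := abs_le.1 ((hbx m y).1 hy i)
              have h12 := ha' i
              push_cast at h12
              rw [Pi.add_apply]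
              omega
            have h11 : hc d m q ≤ hh S E q b := by
              refine hlow q S b hq0 (by linarith) fun y hy => (hmem _).2 fun i => ?_
              have h11 := abs_le.1 ((hbx m y).1 hy i)
              have h12 := ha' i
              push_cast at h12
              obtain ⟨j, hj⟩ := (hnb a b).1 hb
              have h8 : |b i - a i| ≤ 1 := by
                rcases hj with hj | hj
                · rw [hj, Pi.add_apply]
                  by_cases hij : i = j
                  · subst hij; simp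
                  · simp [Pi.single_eq_of_ne hij]
                · rw [hj, Pi.sub_apply]
                  by_cases hij : i = j
                  · subst hij; simp
                  · simp [Pi.single_eq_of_ne hij]
              have h9 := abs_le.1 h8
              rw [Pi.add_apply]
              omega
            have h12 : hc d m p₁ ≤ hc d m q := hmono p₁ q hp₁.le hq1 (by linarith)
            have h13 := hc0 p₁ hp₁.le (by linarith)
            nlinarith
          have h10 := Finset.card_nsmul_le_sum (nb a) _ _ h9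
          rw [hnbc, nsmul_eq_mul] at h10
          push_cast at h10
          exact h10
        have h9 := Finset.card_nsmul_le_sum (inn d n (m + 1)) _ _ h8
        rw [h6, nsmul_eq_mul] at h9
        push_cast at h9
        linarith
      · intro a _ b _ hab
        rw [Function.onFun, Finset.disjoint_left]
        intro z hz hz'
        obtain ⟨u, _, rfl⟩ := Finset.mem_image.1 hz
        obtain ⟨v, _, hv⟩ := Finset.mem_image.1 hz'
        exact hab (Prod.mk.inj hv).1.symm
    have h8 : 0 ≤ chi d q ^ 2 / 16 := by positivity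
    have h9 : ((drt E).card : ℝ) * (chi d q ^ 2 / 16) ≤ 2 * d * (n : ℝ) ^ d * (chi d p₁ ^ 2 / 4) :=
      mul_le_mul h3 h4 h8 (by positivity)
    rw [hcd]
    linarith
  -- mean value inequality
  set F : ℝ → ℝ := fun q => ∑ x ∈ S, hh S E q x with hFdef
  have hder : ∀ q : ℝ, p₁ ≤ q → q ≤ p₂ → ∃ D' : ℝ, HasDerivAt F D' q ∧ c ≤ D' := by
    intro q h1 h2
    obtain ⟨D', h3, h4⟩ := hD (Zd d) S E (2 * d) q hG (by linarith) (by linarith)
    exact ⟨D', h3, (hbrg q h1 h2).trans h4⟩
  have hmv : c * (p₂ - p₁) ≤ F p₂ - F p₁ := by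
    refine Convex.mul_sub_le_image_sub_of_le_deriv (convex_Icc p₁ p₂) ?_ ?_ ?_ p₁
      (Set.left_mem_Icc.2 hlt.le) p₂ (Set.right_mem_Icc.2 hlt.le) hlt.le
    · intro q hq
      obtain ⟨D', h3, -⟩ := hder q hq.1 hq.2
      exact h3.continuousAt.continuousWithinAt
    · intro q hq
      rw [interior_Icc] at hq
      obtain ⟨D', h3, -⟩ := hder q hq.1.le hq.2.le
      exact h3.differentiableAt.differentiableWithinAt
    · intro q hq
      rw [interior_Icc] at hq
      obtain ⟨D', h3, h4⟩ := hder q hq.1.le hq.2.le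
      rw [h3.deriv]
      exact h4
  have hF1 : ((n - 2 * m : ℕ) : ℝ) ^ d * Pool.WF.hc d m p₁ ≤ F p₁ := by
    obtain ⟨-, hcp, -, -, -⟩ := hH (Zd d) S E (2 * d) p₁ hG hp₁.le (by linarith)
    have h1 : inn d n m ⊆ S := by
      intro x hx
      have h2 := (mem_inn d n m x).1 hx
      refine (hmem x).2 fun i => ?_
      have := h2 i
      omega
    have h2 : ∀ x ∈ inn d n m, Pool.WF.hc d m p₁ ≤ hh S E p₁ x := by
      intro x hx
      have h3 := (mem_inn d n m x).1 hx
      refine hlow p₁ S x hp₁.le (by linarith) fun y hy => (hmem _).2 fun i => ?_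
      have h11 := abs_le.1 ((hbx m y).1 hy i)
      have h12 := h3 i
      rw [Pi.add_apply]
      omega
    have h3 := Finset.card_nsmul_le_sum _ _ _ h2
    rw [card_inn d n m (by omega), nsmul_eq_mul] at h3
    push_cast at h3
    refine h3.trans ?_
    refine Finset.sum_le_sum_of_subset_of_nonneg h1 fun x _ _ => ?_
    unfold hh
    exact Finset.sum_nonneg fun y _ => (hcp x y).2.1
  have hF2 : F p₂ ≤ (n : ℝ) ^ d * chi d p₂ := by
    have h1 := Finset.sum_le_card_nsmul S (fun x => hh S E p₂ x) (chi d p₂)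
      (fun x _ => (hPE d hd p₂ (by linarith) hp₂ S).1 x)
    rw [hcard, nsmul_eq_mul] at h1
    push_cast at h1
    exact h1
  have e1 : (p₂ - p₁) * (2 * d) * (((n - 2 * m - 2 : ℕ) : ℝ) ^ d * Pool.WF.hc d m p₁ ^ 2 -
      (n : ℝ) ^ d * (chi d p₁ ^ 2 / 4)) = c * (p₂ - p₁) := by
    rw [hcd]; ring
  rw [e1]
  linarith

end Pool.WF
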