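import Pool.Agent.Helper56.WF.St
import Pool.Agent.Helper84.LE.St5

/-!
# Project WF, module FinW
-/

set_option autoImplicit false

open scoped BigOperators ENNReal Topology
open Pool.LE Pool.NL

namespace Pool.WF

theorem hFinW (hS : StSum) (hA : StArmW) (hP : StPcW) (hB8 : StB8) : StFinW := by
  obtain ⟨d₁, hd₁, hS⟩ := hS
  obtain ⟨d₂, hd₂, hB8⟩ := hB8
  refine ⟨max d₁ d₂, ?_⟩
  intro d _ hd p hp
  have h1 : d₁ ≤ d := (le_max_left _ _).trans hd
  have h2 : d₂ ≤ d := (le_max_right _ _).trans hd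
  have hpH : (p : ℝ) = pH d := by
    rw [hp]
    exact hP d (by omega) (hB8 d h2).2.2.1
  unfold Pool.Agent.Helper56.WP.aw
  have hsum : ∑' r : ℕ, Pool.Agent.Helper56.WP.perc d p (Pool.Agent.Helper56.WP.arm d r) ≠ ⊤ := by
    have h3 : (fun r : ℕ => Pool.Agent.Helper56.WP.perc d p (Pool.Agent.Helper56.WP.arm d r)) =
        fun r : ℕ => ⨆ R : ℕ, Pr (Eb d R) (pH d) (armF (0 : Fin d) r) := by
      funext r
      rw [hA d p r, hpH]
    rw [h3]
    exact hS d h1 0
  exact ENNReal.mul_ne_top (ENNReal.mul_ne_top ENNReal.ofNat_ne_top (ENNReal.natCast_ne_top d)) hsum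

end Pool.WF
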