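import Pool.Agent.Helper56.WF.St
import Pool.Agent.Helper84.LE.BWT
import Pool.Agent.Helper84.LE.BGR
import Pool.Agent.Helper84.LE.M_TauDom

/-! # Project WF: module Hc (mean cluster size of the centre of a box) -/

set_option autoImplicit false

open scoped BigOperators ENNReal Topology
open Pool.LE Pool.NL

namespace Pool.WF

/-- comparison of `cp` through `Pr` -/
theorem cp_le_cp_Hc (hB : StBasic) {V : Type} [DecidableEq V] {E F : Finset (Sym2 V)} {p q : ℝ}
    {a b a' b' : V} (hp0 : 0 ≤ p) (hp1 : p ≤ 1) (hq0 : 0 ≤ q) (hq1 : q ≤ 1)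
    (h : Pr E p (fun ω => con ω a b) ≤ Pr F q (fun ω => con ω a' b')) :
    cp E p a b ≤ cp F q a' b' := by
  obtain ⟨-, -, -, -, -, -, hpr, -⟩ := hB V E p hp0 hp1
  obtain ⟨-, -, -, -, -, -, hpr', -⟩ := hB V F q hq0 hq1
  obtain ⟨-, -, hpE, -⟩ := hpr (fun ω => con ω a b)
  obtain ⟨h0, -, hpE', -⟩ := hpr' (fun ω => con ω a' b')
  rw [hpE, hpE'] at h
  exact (ENNReal.ofReal_le_ofReal_iff h0).1 h

theorem cp_nonneg_Hc (hB : StBasic) {V : Type} [DecidableEq V] {E : Finset (Sym2 V)} {p : ℝ}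
    {a b : V} (hp0 : 0 ≤ p) (hp1 : p ≤ 1) : 0 ≤ cp E p a b := by
  obtain ⟨-, -, -, -, -, -, hpr, -⟩ := hB V E p hp0 hp1
  exact (hpr (fun ω => con ω a b)).1

theorem hHc (hT : StTransl) (hB : StBasic) (hBox : StBox) : StHc := by
  intro d m
  refine ⟨?_, ?_, ?_⟩
  · intro p q h0 hpq h1
    unfold hc hh
    refine Finset.sum_le_sum fun y _ => ?_
    exact cp_le_cp_Hc hB h0 (hpq.trans h1) (h0.trans hpq) h1 (Pr_mono_p h0 hpq h1 con_inc)
  · intro p h0 h1
    unfold hc hh
    exact Finset.sum_nonneg fun y _ => cp_nonneg_Hc hB h0 h1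
  · intro p S x h0 h1 hS
    obtain ⟨-, -, -, -, hadd, -, -, hES, hlat, -⟩ := hBox d
    have hsub : trE x (Eb d m) ⊆ ES S := by
      intro e he
      induction e using Sym2.ind with
      | _ a b =>
        rw [mem_trE] at he
        obtain ⟨ha, hb, hab⟩ := (hES _ _ _).1 he
        have ha' : x + (-x + a) = a := by abel
        have hb' : x + (-x + b) = b := by abel
        refine (hES _ _ _).2 ⟨?_, ?_, ?_⟩
        · have := hS _ ha; rwa [ha'] at this
        · have := hS _ hb; rwa [hb'] at this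
        · have := (hadd _ _ x).1 hab
          rwa [ha', hb'] at this
    have hterm : ∀ y ∈ bx d m, cp (Eb d m) p 0 y ≤ cp (ES S) p x (x + y) := by
      intro y _
      refine cp_le_cp_Hc hB h0 h1 h0 h1 ?_
      have htr := (hT d p (Eb d m) x 0 y).2
      rw [add_zero] at htr
      rw [← htr]
      exact Pr_mono_edges hsub h0 h1 con_inc
    unfold hc hh
    calc ∑ y ∈ bx d m, cp (Eb d m) p 0 y ≤ ∑ y ∈ bx d m, cp (ES S) p x (x + y) :=
          Finset.sum_le_sum hterm
      _ = ∑ z ∈ (bx d m).map (Equiv.addLeft x).toEmbedding, cp (ES S) p x z := by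
          rw [Finset.sum_map]
          rfl
      _ ≤ ∑ z ∈ S, cp (ES S) p x z := by
          refine Finset.sum_le_sum_of_subset_of_nonneg ?_ fun z _ _ => cp_nonneg_Hc hB h0 h1
          intro z hz
          obtain ⟨y, hy, rfl⟩ := Finset.mem_map.1 hz
          exact hS y hy

end Pool.WF
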