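import Pool.Agent.Helper56.WF.St
import Pool.Agent.Helper84.LE.BWT
import Pool.Agent.Helper84.LE.BGR

/-!
# Project WF (MP_65faa7), module HcLim: the mean cluster size of the centre of a large box
-/

set_option autoImplicit false

open scoped BigOperators ENNReal Topology
open Pool.LE Pool.NL Filter

namespace Pool.WF

private theorem cp_lim_HcLim (hTB : StTauBasic) (hB : StBasic) (hBox : StBox) {d : ℕ} {p : ℝ}
    (hp : 0 ≤ p) (hp1 : p ≤ 1) (y : Zd d) :
    Tendsto (fun m => cp (Eb d m) p 0 y) atTop (𝓝 (tau d p y)) := by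
  have hEb := (hBox d).2.2.2.2.2.2.2.2.2.1
  have hmono : Monotone fun R : ℕ => Pr (Eb d R) p (fun ω => con ω 0 y) := by
    intro R R' hRR'
    exact Pr_mono_edges (hEb R R' hRR') hp hp1 fun ω η h hc => con_mono h hc
  have h1 := tendsto_atTop_iSup hmono
  have hne : (⨆ R : ℕ, Pr (Eb d R) p (fun ω => con ω 0 y)) ≠ ⊤ :=
    ne_top_of_le_ne_top ENNReal.one_ne_top ((hTB d p hp hp1).1 y)
  have h2 := (ENNReal.tendsto_toReal hne).comp h1
  refine h2.congr fun m => ?_
  have h3 := (hB (Zd d) (Eb d m) p hp hp1).2.2.2.2.2.2.1 (fun ω => con ω 0 y)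
  show (Pr (Eb d m) p (fun ω => con ω 0 y)).toReal = pr (Eb d m) p (fun ω => con ω 0 y)
  rw [h3.2.2.1, ENNReal.toReal_ofReal h3.1]

theorem hHcLim (hB1 : StB1) (hTB : StTauBasic) (hTD : StTauDom) (hB : StBasic)
    (hBox : StBox) (_hS6 : StS6d) : StHcLim := by
  intro d p hd hp0 hpH
  obtain ⟨hp2, hSQ, -⟩ := hB1 d p hd hp0 hpH
  have hp1 : p ≤ 1 := by linarith
  obtain ⟨-, -, -, hofR, hnn⟩ := hTB d p hp0 hp1
  have hsummable : Summable fun x : Zd d => tau d p x := by
    refine Summable.of_nonneg_of_le (fun x => (hnn x).1) (fun x => ?_) hSQ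
    have h1 : 0 ≤ LE.sq x := by
      unfold LE.sq
      exact Finset.sum_nonneg fun j _ => sq_nonneg _
    have h2 : (1 : ℝ) ≤ Qw x := by unfold Qw; linarith
    rw [abs_of_nonneg (hnn x).1]
    nlinarith [(hnn x).1]
  classical
  set f : ℕ → Zd d → ℝ := fun m y => if y ∈ bx d m then cp (Eb d m) p 0 y else 0 with hf
  have hcp : ∀ (m : ℕ) (y : Zd d), 0 ≤ cp (Eb d m) p 0 y ∧ cp (Eb d m) p 0 y ≤ tau d p y := by
    intro m y
    have h3 := (hB (Zd d) (Eb d m) p hp0 hp1).2.2.2.2.2.2.1 (fun ω => con ω 0 y)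
    refine ⟨h3.1, ?_⟩
    have h4 := hTD d p (Eb d m) 0 y hp0 hp1 ((hBox d).2.2.2.2.2.2.2.2.1 (bx d m))
    rw [h3.2.2.1, sub_zero, ← hofR, ENNReal.ofReal_le_ofReal_iff (hnn y).1] at h4
    exact h4
  have hsum : ∀ m, hc d m p = ∑' y, f m y := by
    intro m
    rw [tsum_eq_sum (s := bx d m) fun y hy => if_neg hy]
    unfold hc hh
    exact Finset.sum_congr rfl fun y hy => (if_pos hy).symm
  simp only [hsum]
  unfold chi
  refine tendsto_tsum_of_dominated_convergence (bound := fun y => tau d p y) hsummable ?_ ?_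
  · intro y
    refine (cp_lim_HcLim hTB hB hBox hp0 hp1 y).congr' ?_
    obtain ⟨N, hN⟩ : ∃ N : ℕ, ∀ i, |y i| ≤ (N : ℤ) := by
      refine ⟨∑ i, (y i).natAbs, fun i => ?_⟩
      have h1 : (y i).natAbs ≤ ∑ j, (y j).natAbs :=
        Finset.single_le_sum (f := fun j => (y j).natAbs) (fun _ _ => Nat.zero_le _)
          (Finset.mem_univ i)
      rw [Int.abs_eq_natAbs]
      exact_mod_cast h1
    filter_upwards [eventually_ge_atTop N] with m hm
    have hy : y ∈ bx d m := by
      rw [(hBox d).2.1]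
      exact fun i => (hN i).trans (by exact_mod_cast hm)
    exact (if_pos hy).symm
  · refine Eventually.of_forall fun m y => ?_
    simp only [hf]
    split_ifs
    · rw [Real.norm_of_nonneg (hcp m y).1]
      exact (hcp m y).2
    · rw [norm_zero]
      exact (hnn y).1

end Pool.WF
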