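import Pool.Agent.Helper56.WF.St

set_option autoImplicit false

open scoped BigOperators ENNReal Topology
open Pool.LE Pool.NL

namespace Pool.WF

private theorem amgm_Hol (α β : ℝ) (hα : 0 ≤ α) (hβ : 0 ≤ β) :
    α * β ^ 3 ≤ ((α + 3 * β) / 4) ^ 4 := by
  have h : 0 ≤ (α - β) ^ 2 * (α ^ 2 + 14 * α * β + 81 * β ^ 2) := by positivity
  nlinarith [h]

private theorem key_Hol (A B x y u v : ℝ) (hA : 0 ≤ A) (hB : 0 ≤ B) (hx : 0 ≤ x) (hy : 0 ≤ y)
    (hu : 0 ≤ u) (hv : 0 ≤ v) (h1 : u ^ 4 ≤ A * x ^ 3) (h2 : v ^ 4 ≤ B * y ^ 3) :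
    (u + v) ^ 4 ≤ (A + B) * (x + y) ^ 3 := by
  rcases (add_nonneg hA hB).eq_or_lt with h | hT
  · have hA0 : A = 0 := by linarith
    have hB0 : B = 0 := by linarith
    subst hA0; subst hB0
    have hu0 : u = 0 := by
      have : u ^ 4 ≤ 0 := by linarith
      have h3 : u ^ 4 = 0 := le_antisymm this (by positivity)
      exact pow_eq_zero_iff (by norm_num) |>.mp h3
    have hv0 : v = 0 := by
      have : v ^ 4 ≤ 0 := by linarith
      have h3 : v ^ 4 = 0 := le_antisymm this (by positivity)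
      exact pow_eq_zero_iff (by norm_num) |>.mp h3
    rw [hu0, hv0]; norm_num
  rcases (add_nonneg hx hy).eq_or_lt with h | hS
  · have hx0 : x = 0 := by linarith
    have hy0 : y = 0 := by linarith
    subst hx0; subst hy0
    have hu0 : u = 0 := by
      have : u ^ 4 ≤ 0 := by simpa using h1
      have h3 : u ^ 4 = 0 := le_antisymm this (by positivity)
      exact pow_eq_zero_iff (by norm_num) |>.mp h3
    have hv0 : v = 0 := by
      have : v ^ 4 ≤ 0 := by simpa using h2
      have h3 : v ^ 4 = 0 := le_antisymm this (by positivity)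
      exact pow_eq_zero_iff (by norm_num) |>.mp h3
    rw [hu0, hv0]; norm_num
  set T := A + B with hTdef
  set S := x + y with hSdef
  have hTS : 0 ≤ T * S ^ 3 := by positivity
  obtain ⟨l, hl0, hl⟩ : ∃ l : ℝ, 0 ≤ l ∧ l ^ 4 = T * S ^ 3 := by
    refine ⟨(T * S ^ 3) ^ ((1 : ℝ) / 4), Real.rpow_nonneg hTS _, ?_⟩
    rw [← Real.rpow_natCast, ← Real.rpow_mul hTS]
    norm_num
  have hu' : u ≤ l * ((A / T + 3 * (x / S)) / 4) := by
    apply le_of_pow_le_pow_left₀ (n := 4) (by norm_num) (by positivity)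
    calc u ^ 4 ≤ A * x ^ 3 := h1
      _ = l ^ 4 * ((A / T) * (x / S) ^ 3) := by
        rw [hl]; field_simp
      _ ≤ l ^ 4 * ((A / T + 3 * (x / S)) / 4) ^ 4 :=
        mul_le_mul_of_nonneg_left (amgm_Hol _ _ (by positivity) (by positivity)) (by positivity)
      _ = _ := by ring
  have hv' : v ≤ l * ((B / T + 3 * (y / S)) / 4) := by
    apply le_of_pow_le_pow_left₀ (n := 4) (by norm_num) (by positivity)
    calc v ^ 4 ≤ B * y ^ 3 := h2
      _ = l ^ 4 * ((B / T) * (y / S) ^ 3) := by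
        rw [hl]; field_simp
      _ ≤ l ^ 4 * ((B / T + 3 * (y / S)) / 4) ^ 4 :=
        mul_le_mul_of_nonneg_left (amgm_Hol _ _ (by positivity) (by positivity)) (by positivity)
      _ = _ := by ring
  have e1 : A / T + B / T = 1 := by rw [← add_div]; exact div_self hT.ne'
  have e2 : x / S + y / S = 1 := by rw [← add_div]; exact div_self hS.ne'
  have hsum : u + v ≤ l := by
    have : l * ((A / T + 3 * (x / S)) / 4) + l * ((B / T + 3 * (y / S)) / 4) =
        l * ((A / T + B / T) + 3 * (x / S + y / S)) / 4 := by ring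
    rw [e1, e2] at this
    linarith
  calc (u + v) ^ 4 ≤ l ^ 4 := pow_le_pow_left₀ (add_nonneg hu hv) hsum 4
    _ = _ := hl

theorem hHol : StHol := by
  intro p p' a b a' b' K hp hp1 hp' hp'1 ha hb ha' hb' hK h1 h2
  have h1p : 0 < 1 - p := by linarith
  have h1p' : 0 ≤ 1 - p' := by linarith
  have key := key_Hol (p' ^ 4 / p ^ 3 * K) ((1 - p') ^ 4 / (1 - p) ^ 3 * K) (p * a) ((1 - p) * b)
    (p' * a') ((1 - p') * b') (by positivity) (by positivity) (by positivity) (by positivity)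
    (by positivity) (by positivity)
    (by
      calc (p' * a') ^ 4 = p' ^ 4 * a' ^ 4 := by ring
        _ ≤ p' ^ 4 * (K * a ^ 3) := mul_le_mul_of_nonneg_left h1 (by positivity)
        _ = p' ^ 4 / p ^ 3 * K * (p * a) ^ 3 := by field_simp)
    (by
      calc ((1 - p') * b') ^ 4 = (1 - p') ^ 4 * b' ^ 4 := by ring
        _ ≤ (1 - p') ^ 4 * (K * b ^ 3) := mul_le_mul_of_nonneg_left h2 (by positivity)
        _ = (1 - p') ^ 4 / (1 - p) ^ 3 * K * ((1 - p) * b) ^ 3 := by field_simp)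
  calc _ ≤ _ := key
    _ = _ := by unfold kap; ring

end Pool.WF
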