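import Pool.Agent.Helper56.WF.St
import Pool.Agent.Helper84.LE.BKP

set_option autoImplicit false

open scoped BigOperators ENNReal Topology
open Pool.LE Pool.NL

namespace Pool.WF

private theorem kp_inv_K3 {V : Type} [DecidableEq V] (T : V → V → ENNReal) (φ : V ≃ V)
    (h : ∀ x y, T (φ x) (φ y) = T x y) (n : ℕ) : ∀ x y, kp T n (φ x) (φ y) = kp T n x y := by
  induction n with
  | zero =>
    intro x y
    show (if φ x = φ y then (1 : ENNReal) else 0) = if x = y then 1 else 0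
    by_cases hxy : x = y
    · simp [hxy]
    · rw [if_neg hxy, if_neg (fun h' => hxy (φ.injective h'))]
  | succ n ih =>
    intro x y
    show (∑' z, T (φ x) z * kp T n z (φ y)) = ∑' z, T x z * kp T n z y
    rw [← φ.tsum_eq]
    refine tsum_congr fun z => ?_
    rw [h, ih]

/-- the symmetry around `x` -/
private def sy_K3 {d : ℕ} (x : Zd d) (σ : Equiv.Perm (Fin d)) (s : Fin d → ℤˣ) : Zd d ≃ Zd d where
  toFun z := x + sgp σ s (z - x)
  invFun y := x + fun i => (s (σ.symm i) : ℤ) * (y - x) (σ.symm i)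
  left_inv := by
    intro z
    funext i
    show x i + (s (σ.symm i) : ℤ) * (x (σ.symm i) + (s (σ.symm i) : ℤ) * (z - x) (σ (σ.symm i)) -
      x (σ.symm i)) = z i
    rw [Equiv.apply_symm_apply, add_sub_cancel_left, ← mul_assoc, ← Units.val_mul,
      Int.units_mul_self]
    simp
  right_inv := by
    intro z
    funext i
    show x i + (s i : ℤ) * (x (σ i) + (s (σ.symm (σ i)) : ℤ) * (z - x) (σ.symm (σ i)) -
      x (σ i)) = z i
    rw [Equiv.symm_apply_apply, add_sub_cancel_left, ← mul_assoc, ← Units.val_mul,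
      Int.units_mul_self]
    simp

private theorem tauE_sym_K3 (hTB : StTauBasic) {d : ℕ} {p : ℝ} (h0 : 0 ≤ p) (h1 : p ≤ 1)
    (σ : Equiv.Perm (Fin d)) (s : Fin d → ℤˣ) (x : Zd d) : tauE d p (sgp σ s x) = tauE d p x := by
  obtain ⟨-, -, hS, hE, -⟩ := hTB d p h0 h1
  rw [← hE, ← hE, hS]

private theorem tk_sy_K3 (hTB : StTauBasic) {d : ℕ} {p : ℝ} (h0 : 0 ≤ p) (h1 : p ≤ 1) (x : Zd d)
    (σ : Equiv.Perm (Fin d)) (s : Fin d → ℤˣ) (u v : Zd d) :
    tk d p (sy_K3 x σ s u) (sy_K3 x σ s v) = tk d p u v := by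
  show tauE d p (x + sgp σ s (v - x) - (x + sgp σ s (u - x))) = tauE d p (v - u)
  have : x + sgp σ s (v - x) - (x + sgp σ s (u - x)) = sgp σ s (v - u) := by
    funext i
    simp only [sgp, Pi.add_apply, Pi.sub_apply]
    ring
  rw [this, tauE_sym_K3 hTB h0 h1]

private theorem nb_K3 (hTB : StTauBasic) (hBox : StBox) {d : ℕ} {p : ℝ} (h0 : 0 ≤ p) (h1 : p ≤ 1)
    (n : ℕ) (x : Zd d) (i₀ : Fin d) (b : Zd d) (hb : b ∈ nb x) :
    kp (tk d p) n b x = kp (tk d p) n (x + Pi.single i₀ 1) x := by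
  obtain ⟨i, hi⟩ := ((hBox d).2.2.1 x b).1 hb
  have key : ∀ ε : ℤˣ, kp (tk d p) n (x + Pi.single i (ε : ℤ)) x =
      kp (tk d p) n (x + Pi.single i₀ 1) x := by
    intro ε
    have h2 := kp_inv_K3 (tk d p) (sy_K3 x (Equiv.swap i₀ i) (fun _ => ε))
      (fun u v => tk_sy_K3 hTB h0 h1 x _ _ u v) n (x + Pi.single i₀ 1) x
    have e1 : sy_K3 x (Equiv.swap i₀ i) (fun _ => ε) (x + Pi.single i₀ 1) =
        x + Pi.single i (ε : ℤ) := by
      show x + sgp (Equiv.swap i₀ i) (fun _ => ε) (x + Pi.single i₀ 1 - x) = _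
      rw [add_sub_cancel_left]
      congr 1
      funext k
      show (ε : ℤ) * (Pi.single i₀ (1 : ℤ) : Zd d) (Equiv.swap i₀ i k) = _
      by_cases hk : k = i
      · subst hk
        rw [Equiv.swap_apply_right]
        simp
      · rw [Pi.single_eq_of_ne hk, Pi.single_eq_of_ne, mul_zero]
        intro h3
        apply hk
        have := congrArg (Equiv.swap i₀ i) h3
        rwa [Equiv.swap_apply_self, Equiv.swap_apply_left] at this
    have e2 : sy_K3 x (Equiv.swap i₀ i) (fun _ => ε) x = x := by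
      show x + sgp (Equiv.swap i₀ i) (fun _ => ε) (x - x) = x
      rw [sub_self]
      have : sgp (Equiv.swap i₀ i) (fun _ => ε) (0 : Zd d) = 0 := by
        funext k; simp [sgp]
      rw [this, add_zero]
    rw [e1, e2] at h2
    exact h2
  rcases hi with rfl | rfl
  · exact key 1
  · have h3 := key (-1)
    have e3 : x + Pi.single i ((-1 : ℤˣ) : ℤ) = x - Pi.single i 1 := by
      rw [sub_eq_add_neg]
      congr 1
      funext k
      by_cases hk : k = i
      · subst hk; simp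
      · simp [Pi.single_eq_of_ne hk]
    rw [e3] at h3
    exact h3

theorem hK3 (hK : StKpTau) (hTM : StTauMono) (hTB : StTauBasic) (hP : StPHlow)
    (hBox : StBox) (hS6 : StS6d) : StK3 := by
  obtain ⟨C, hC, d₁, hd⟩ := hK 3
  obtain ⟨N, hN⟩ := exists_nat_ge ((16 * C) ^ 2)
  refine ⟨max (max 1 d₁) N, le_trans (le_max_left _ _) (le_max_left _ _), ?_⟩
  intro d hdd p hp0 hp x b hb
  have hd1 : 1 ≤ d := le_trans (le_trans (le_max_left _ _) (le_max_left _ _)) hdd
  have hd2 : d₁ ≤ d := le_trans (le_trans (le_max_right _ _) (le_max_left _ _)) hdd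
  have hd3 : N ≤ d := le_trans (le_max_right _ _) hdd
  obtain ⟨hp1, hp2⟩ := hS6 d hd1
  have hp3 : pH d ≤ 1 := by linarith
  have hdpos : (0 : ℝ) < d := by exact_mod_cast hd1
  have hmono : kp (tk d p) 3 b x ≤ kp (tk d (pH d)) 3 b x :=
    kp_mono (fun u v => hTM d p (pH d) _ hp0 hp hp3) 3 b x
  refine hmono.trans ?_
  have hs := (hd d hd2 x x).2
  have i₀ : Fin d := ⟨0, hd1⟩
  have h1 : ∑ b' ∈ nb x, ENNReal.ofReal (pH d) * kp (tk d (pH d)) 3 b' x =
      ((2 * d : ℕ) : ENNReal) * (ENNReal.ofReal (pH d) * kp (tk d (pH d)) 3 b x) := by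
    rw [← (hBox d).2.2.2.2.2.2.2.2.2.2.2.1 x, ← nsmul_eq_mul]
    refine Finset.sum_eq_card_nsmul fun b' hb' => ?_
    rw [nb_K3 hTB hBox hp1.le hp3 3 x i₀ b' hb', nb_K3 hTB hBox hp1.le hp3 3 x i₀ b hb]
  rw [h1, ← mul_assoc] at hs
  have h2 : (1 : ENNReal) ≤ ((2 * d : ℕ) : ENNReal) * ENNReal.ofReal (pH d) := by
    have h3 := hP d hd1
    have h4 : (1 : ℝ) ≤ (2 * d : ℕ) * pH d := by
      rw [div_le_iff₀ (by positivity)] at h3
      push_cast
      linarith
    rw [← ENNReal.ofReal_natCast, ← ENNReal.ofReal_mul (by positivity), ← ENNReal.ofReal_one]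
    exact ENNReal.ofReal_le_ofReal h4
  have h5 : kp (tk d (pH d)) 3 b x ≤ ENNReal.ofReal (C / Real.sqrt d) :=
    le_trans (by simpa using mul_le_mul_left h2 (kp (tk d (pH d)) 3 b x)) hs
  refine h5.trans (ENNReal.ofReal_le_ofReal ?_)
  have h6 : 16 * C ≤ Real.sqrt d := by
    apply Real.le_sqrt_of_sq_le
    exact hN.trans (by exact_mod_cast hd3)
  have h7 : 0 < Real.sqrt d := Real.sqrt_pos.2 hdpos
  rw [div_le_div_iff₀ h7 (by norm_num)]
  linarith

end Pool.WF
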