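import Pool.Agent.Helper56.WF.St

/-!
Project WF, module Kap.
-/

set_option autoImplicit false

open scoped BigOperators ENNReal Topology
open Pool.LE Pool.NL

namespace Pool.WF

private theorem amgm_Kap (x p : ℝ) (hp : 0 < p) : 4 * x - 3 * p ≤ x ^ 4 / p ^ 3 := by
  rw [le_div_iff₀ (by positivity)]
  nlinarith [mul_nonneg (sq_nonneg (x - p)) (show (0:ℝ) ≤ (x + p) ^ 2 + 2 * p ^ 2 by positivity)]

theorem hKap : StKap := by
  constructor
  · intro p p' hp hp1 _ _
    have h1 := amgm_Kap p' p hp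
    have h2 := amgm_Kap (1 - p') (1 - p) (by linarith)
    unfold kap
    linarith
  · intro p δ hp hδ hδp hpδ
    have hq : 0 < 1 - p := by linarith
    set t := δ / p with ht
    set s := δ / (1 - p) with hs
    have h1 : δ = p * t := by rw [ht]; field_simp
    have h2 : δ = (1 - p) * s := by rw [hs]; field_simp
    have ht0 : 0 ≤ t := by positivity
    have hs0 : 0 ≤ s := by positivity
    have ht1 : t ≤ 1 := by rw [ht, div_le_one hp]; exact hδp
    have hst : s ≤ t := by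
      rw [hs, ht]
      exact div_le_div_of_nonneg_left hδ hp (by linarith)
    have e1 : (p + δ) ^ 4 / p ^ 3 = p * (1 + t) ^ 4 := by
      rw [div_eq_iff (by positivity), h1]; ring
    have e2 : (1 - (p + δ)) ^ 4 / (1 - p) ^ 3 = (1 - p) * (1 - s) ^ 4 := by
      have : 1 - (p + δ) = (1 - p) * (1 - s) := by rw [h2]; ring
      rw [div_eq_iff (by positivity), this]; ring
    have e3 : kap p (p + δ) = 1 + 6 * (δ * (t + s)) + 4 * (δ * (t ^ 2 - s ^ 2)) + δ * (t ^ 3 + s ^ 3) := by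
      unfold kap
      rw [e1, e2]
      have a1 : p * (1 + t) ^ 4 = p + 4 * δ + 6 * (δ * t) + 4 * (δ * t ^ 2) + δ * t ^ 3 := by
        rw [h1]; ring
      have a2 : (1 - p) * (1 - s) ^ 4 = (1 - p) - 4 * δ + 6 * (δ * s) - 4 * (δ * s ^ 2) + δ * s ^ 3 := by
        have : (1 - p) * (1 - s) ^ 4 = (1 - p) - 4 * ((1 - p) * s) + 6 * ((1 - p) * s * s)
            - 4 * ((1 - p) * s * s ^ 2) + (1 - p) * s * s ^ 3 := by ring
        rw [this, ← h2]
      rw [a1, a2]; ring
    rw [e3]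
    have hδt : δ ≤ t / 2 := by rw [h1]; nlinarith
    have b1 : δ * (t + s) ≤ t ^ 2 := by
      calc δ * (t + s) ≤ (t / 2) * (t + t) := by gcongr
        _ = t ^ 2 := by ring
    have b2 : δ * (t ^ 2 - s ^ 2) ≤ t ^ 2 / 2 := by
      calc δ * (t ^ 2 - s ^ 2) ≤ δ * t ^ 2 := by
            apply mul_le_mul_of_nonneg_left _ hδ
            nlinarith [sq_nonneg s]
        _ ≤ (t / 2) * t ^ 2 := by gcongr
        _ ≤ t ^ 2 / 2 := by nlinarith [sq_nonneg t]
    have b3 : δ * (t ^ 3 + s ^ 3) ≤ t ^ 2 := by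
      calc δ * (t ^ 3 + s ^ 3) ≤ (t / 2) * (t ^ 3 + t ^ 3) := by gcongr
        _ = t ^ 2 * t ^ 2 := by ring
        _ ≤ t ^ 2 * 1 := by
            apply mul_le_mul_of_nonneg_left _ (sq_nonneg t)
            exact pow_le_one₀ ht0 ht1
        _ = t ^ 2 := mul_one _
    nlinarith [sq_nonneg t]

end Pool.WF
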