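import Pool.Agent.Helper56.WF.St

/-! Project WF, module LawW: the law of the finite configurations. -/

set_option autoImplicit false
open scoped BigOperators ENNReal Topology
open Pool.LE Pool.NL MeasureTheory Pool.Agent.Helper56.WP

namespace Pool.WF

private theorem mem_LawW {d R : ℕ} {ω : Cfg d} {e : Sym2 (Zd d)} :
    e ∈ opW R ω ↔ e ∈ Eb d R ∧ ω e = true := by
  unfold opW
  rw [Finset.mem_filter]

private theorem iff_LawW {d R : ℕ} {ω : Cfg d} {η : Finset (Sym2 (Zd d))} (hη : η ⊆ Eb d R) :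
    opW R ω = η ↔ ∀ e ∈ Eb d R, (ω e = true ↔ e ∈ η) := by
  constructor
  · rintro rfl e he
    rw [mem_LawW]
    exact ⟨fun h => ⟨he, h⟩, fun h => h.2⟩
  · intro h
    ext e
    rw [mem_LawW]
    exact ⟨fun ⟨h1, h2⟩ => (h e h1).1 h2, fun h1 => ⟨hη h1, (h e (hη h1)).2 h1⟩⟩

open Classical in
/-- the sets of the cylinder -/
private noncomputable def cs_LawW {d : ℕ} (η : Finset (Sym2 (Zd d))) (e : Sym2 (Zd d)) : Set Bool :=
  if e ∈ η then {true} else {false}

private theorem set_LawW {d R : ℕ} {η : Finset (Sym2 (Zd d))} (hη : η ⊆ Eb d R) :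
    {ω : Cfg d | opW R ω = η} = Set.pi (Eb d R) (fun e => cs_LawW η e) := by
  ext ω
  rw [Set.mem_ofPred_eq, iff_LawW hη, Set.mem_pi]
  refine forall_congr' fun e => forall_congr' fun he => ?_
  unfold cs_LawW
  by_cases h : e ∈ η
  · rw [if_pos h]
    simp [h]
  · rw [if_neg h]
    simp [h]

private theorem meas_LawW {d : ℕ} (η : Finset (Sym2 (Zd d))) (e : Sym2 (Zd d)) :
    MeasurableSet (cs_LawW η e) := MeasurableSet.of_discrete

private theorem vol_LawW {d : ℕ} (p : unitInterval) (η : Finset (Sym2 (Zd d))) (e : Sym2 (Zd d))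
    [Decidable (e ∈ η)] :
    (ProbabilityTheory.bernoulliMeasure true false p) (cs_LawW η e) =
      ENNReal.ofReal (if e ∈ η then (p : ℝ) else 1 - p) := by
  unfold cs_LawW
  by_cases h : e ∈ η
  · rw [if_pos h, if_pos h, ProbabilityTheory.bernoulliMeasure_apply_of_mem_of_notMem p
      MeasurableSet.of_discrete (Set.mem_singleton _) (by simp)]
    rw [ENNReal.ofReal, Real.toNNReal_of_nonneg p.2.1]
    rfl
  · rw [if_neg h, if_neg h, ProbabilityTheory.bernoulliMeasure_apply_of_notMem_of_mem p
      MeasurableSet.of_discrete (by simp) (Set.mem_singleton _)]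
    rw [ENNReal.ofReal, Real.toNNReal_of_nonneg (by linarith [p.2.2])]
    rfl

private theorem law_one_LawW {d R : ℕ} (p : unitInterval) {η : Finset (Sym2 (Zd d))}
    (hη : η ⊆ Eb d R) :
    perc d p {ω : Cfg d | opW R ω = η} = ENNReal.ofReal (wt (Eb d R) p η) := by
  classical
  rw [set_LawW hη]
  unfold perc
  rw [Measure.infinitePi_pi _ (fun e _ => meas_LawW η e)]
  rw [Finset.prod_congr rfl (fun e _ => vol_LawW p η e)]
  rw [← ENNReal.ofReal_prod_of_nonneg]
  · congr 1
    unfold wt
    rw [Finset.prod_ite, Finset.prod_const, Finset.prod_const]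
    congr 2
    · congr 1
      rw [Finset.filter_mem_eq_inter, Finset.inter_eq_right.2 hη]
    · congr 1
      ext e
      simp
  · intro e _
    split_ifs
    · exact p.2.1
    · linarith [p.2.2]

theorem hLawW : StLawW := by
  intro d R p A
  classical
  have hset : {ω : Cfg d | A (opW R ω)} =
      ⋃ η ∈ (Eb d R).powerset.filter A, {ω : Cfg d | opW R ω = η} := by
    ext ω
    simp only [Set.mem_ofPred_eq, Set.mem_iUnion, Finset.mem_filter, Finset.mem_powerset,
      exists_prop]
    constructor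
    · intro h
      refine ⟨opW R ω, ⟨?_, h⟩, rfl⟩
      exact Finset.filter_subset _ _
    · rintro ⟨η, ⟨_, hA⟩, rfl⟩
      exact hA
  have hm : ∀ η ∈ (Eb d R).powerset.filter A, MeasurableSet {ω : Cfg d | opW R ω = η} := by
    intro η hη
    rw [set_LawW (Finset.mem_powerset.1 (Finset.mem_filter.1 hη).1)]
    exact MeasurableSet.pi (Eb d R).countable_toSet (fun q _ => meas_LawW η q)
  rw [hset]
  refine ⟨?_, Finset.measurableSet_biUnion _ hm⟩
  rw [measure_biUnion_finset ?_ hm]
  · rw [Finset.sum_congr rfl (fun η hη =>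
      law_one_LawW p (Finset.mem_powerset.1 (Finset.mem_filter.1 hη).1))]
    unfold Pr ExE
    rw [Finset.sum_filter]
    refine Finset.sum_congr rfl fun η _ => ?_
    by_cases hA : A η
    · simp [hA]
    · simp [hA]
  · intro η _ ζ _ hne
    rw [Function.onFun, Set.disjoint_left]
    intro ω h1 h2
    exact hne (h1.symm.trans h2)

end Pool.WF
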