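import Pool.Agent.Helper56.WF.St

/-! Project WF, module Mom: the second moment below `pH`. -/

set_option autoImplicit false

open scoped BigOperators ENNReal Topology
open Pool.LE Pool.NL

namespace Pool.WF

theorem hMom (hB7 : StB7) (hB1 : StB1) (hTB : StTauBasic) (hFTb : StFTb) : StMom := by
  obtain ⟨C, _, d₁, h7⟩ := hB7
  refine ⟨max d₁ 1, le_max_right _ _, ?_⟩
  intro d hd p hp0 hpH
  have hd1 : d₁ ≤ d := le_trans (le_max_left _ _) hd
  have hd0 : 0 < d := lt_of_lt_of_le Nat.one_pos (le_trans (le_max_right _ _) hd)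
  obtain ⟨hp12, hSum, hchi, _, _, _, hlam⟩ := hB1 d p hd0 hp0 hpH
  obtain ⟨_, _, _, hofr, hnn⟩ := hTB d p hp0 (by linarith)
  obtain ⟨_, hSq, _⟩ := hFTb d (tau d p) hSum 0
  have hBd := ((h7 d hd1).1 p hp0 hpH).1
  have hmt := hBd.mt 0 (fun i => by simp [Real.pi_pos.le])
  have hDh : Dh (0 : Fin d → ℝ) = 1 := by
    unfold Dh
    have hdR : (d : ℝ) ≠ 0 := by exact_mod_cast hd0.ne'
    simp [hdR]
  have hMT : MT (tau d p) 0 = ∑' x : Zd d, LE.sq x * tau d p x := by
    unfold MT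
    refine tsum_congr fun x => ?_
    simp
  have hsqnn : ∀ x : Zd d, 0 ≤ LE.sq x := fun x => Finset.sum_nonneg fun i _ => sq_nonneg _
  have hterm : ∀ x : Zd d, 0 ≤ LE.sq x * tau d p x := fun x => mul_nonneg (hsqnn x) (hnn x).1
  have hchi0 : 0 < chi d p := by linarith
  have hbound : ∑' x : Zd d, LE.sq x * tau d p x ≤ 2 * chi d p ^ 2 := by
    rw [hDh, mul_one, hlam, hMT, abs_of_nonneg (tsum_nonneg hterm), div_pow, one_pow, mul_one_div,
      div_le_iff₀ (by positivity)] at hmt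
    exact hmt
  calc ∑' x : Zd d, ENNReal.ofReal (LE.sq x) * tauE d p x
      = ∑' x : Zd d, ENNReal.ofReal (LE.sq x * tau d p x) := by
        refine tsum_congr fun x => ?_
        rw [ENNReal.ofReal_mul (hsqnn x), hofr x]
    _ = ENNReal.ofReal (∑' x : Zd d, LE.sq x * tau d p x) :=
        (ENNReal.ofReal_tsum_of_nonneg hterm hSq).symm
    _ ≤ ENNReal.ofReal (2 * chi d p ^ 2) := ENNReal.ofReal_le_ofReal hbound

end Pool.WF
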