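import Pool.Agent.Helper56.WF.St
import Pool.Agent.Helper84.LE.BGR
import Pool.Agent.Helper84.LE.BKP

/-! # Project WF: module PE -/

set_option autoImplicit false

open scoped BigOperators ENNReal Topology
open Pool.LE Pool.NL

namespace Pool.WF

private theorem qw_one_PE {d : ℕ} (x : Zd d) : 1 ≤ Qw x := by
  have h : 0 ≤ LE.sq x := Finset.sum_nonneg fun i _ => sq_nonneg _
  unfold Qw
  linarith

private theorem tau_summable_PE {d : ℕ} {p : ℝ} (hS : SumQ (tau d p)) : Summable (tau d p) := by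
  refine Summable.of_norm_bounded hS fun x => ?_
  rw [Real.norm_eq_abs]
  have h1 := qw_one_PE x
  have h2 := abs_nonneg (tau d p x)
  nlinarith

private theorem hh_le_PE (hC : StCp) {d : ℕ} {p : ℝ} (h0 : 0 ≤ p) (h1 : p ≤ 1)
    (ht : ∀ x, 0 ≤ tau d p x) (hs : Summable (tau d p)) (S : Finset (Zd d)) (x : Zd d) :
    hh S (ES S) p x ≤ chi d p := by
  unfold hh chi
  calc ∑ y ∈ S, cp (ES S) p x y ≤ ∑ y ∈ S, tau d p (y - x) :=
        Finset.sum_le_sum fun y _ => hC d S p x y h0 h1
    _ = ∑ z ∈ S.image (fun y => y - x), tau d p z := by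
        rw [Finset.sum_image]
        intro a _ b _ hab
        exact sub_left_injective hab
    _ ≤ ∑' z, tau d p z := hs.sum_le_tsum _ (fun z _ => ht z)

theorem hPE (hK : StK3) (hC : StCp) (hH : StHh) (hF : StFG) (hB1 : StB1)
    (hTB : StTauBasic) (hBox : StBox) : StPE := by
  obtain ⟨d₁, hd1, hK⟩ := hK
  refine ⟨d₁, hd1, fun d hd p hp0 hpH S => ?_⟩
  obtain ⟨hp2, hSQ, hchi1, -, -, -, -⟩ := hB1 d p (by omega) hp0 hpH
  have hp1 : p ≤ 1 := by linarith
  obtain ⟨-, -, -, hTof, hT01⟩ := hTB d p hp0 hp1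
  have hsum := tau_summable_PE hSQ
  have hle := hh_le_PE hC hp0 hp1 (fun x => (hT01 x).1) hsum S
  refine ⟨hle, ?_⟩
  rintro ⟨a, b⟩ hab
  obtain ⟨-, hcp, -, -, hh1⟩ := hH (Zd d) S (ES S) (2 * d) p (hF d S).1 hp0 hp1
  have hbE : s(a, b) ∈ ES S := mem_drt.1 hab
  obtain ⟨-, -, -, -, -, -, -, hES, -⟩ := hBox d
  obtain ⟨_, _, hnb⟩ := (hES S a b).1 hbE
  have hk := hK d hd p hp0 hpH.le a b hnb
  -- the double sum
  have hdouble : ENNReal.ofReal (∑ w ∈ S, ∑ z ∈ S, tau d p (w - b) * tau d p (z - w) * tau d p (a - z)) ≤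
      kp (tk d p) 3 b a := by
    have e1 : kp (tk d p) 3 b a = ∑' w, tk d p b w * ∑' z, tk d p w z * tk d p z a := by
      change ∑' w, tk d p b w * (∑' z, tk d p w z * kp (tk d p) 1 z a) = _
      rw [kp_one]
    rw [e1, ENNReal.ofReal_sum_of_nonneg]
    · refine le_trans ?_ (ENNReal.sum_le_tsum S)
      refine Finset.sum_le_sum fun w _ => ?_
      rw [ENNReal.ofReal_sum_of_nonneg]
      · calc ∑ z ∈ S, ENNReal.ofReal (tau d p (w - b) * tau d p (z - w) * tau d p (a - z))
            = tk d p b w * ∑ z ∈ S, tk d p w z * tk d p z a := by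
              rw [Finset.mul_sum]
              refine Finset.sum_congr rfl fun z _ => ?_
              rw [mul_assoc, ENNReal.ofReal_mul (hT01 _).1, ENNReal.ofReal_mul (hT01 _).1,
                hTof, hTof, hTof]
              rfl
          _ ≤ tk d p b w * ∑' z, tk d p w z * tk d p z a :=
              mul_le_mul_right (ENNReal.sum_le_tsum S) _
      · intro z _
        exact mul_nonneg (mul_nonneg (hT01 _).1 (hT01 _).1) (hT01 _).1
    · intro w _
      exact Finset.sum_nonneg fun z _ => mul_nonneg (mul_nonneg (hT01 _).1 (hT01 _).1) (hT01 _).1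
  have hsmall : ∑ w ∈ S, ∑ z ∈ S, tau d p (w - b) * tau d p (z - w) * tau d p (a - z) ≤ 1 / 16 :=
    (ENNReal.ofReal_le_ofReal_iff (by norm_num)).1 (hdouble.trans hk)
  have hchi0 : 0 ≤ chi d p := by linarith
  -- bound of the error term
  calc pairErr S (ES S) p a b
      ≤ ∑ w ∈ S, ∑ z ∈ S, chi d p ^ 2 * (tau d p (w - b) * tau d p (z - w) * tau d p (a - z)) := by
        unfold pairErr
        refine Finset.sum_le_sum fun w hw => Finset.sum_le_sum fun z hz => ?_
        have c1 : 0 ≤ cp (ES S) p b w := (hcp b w).2.1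
        have c2 : 0 ≤ cp (ES S) p w z := (hcp w z).2.1
        have c3 : 0 ≤ cp (ES S) p z a := (hcp z a).2.1
        have t1 := hC d S p b w hp0 hp1
        have t2 := hC d S p w z hp0 hp1
        have t3 := hC d S p z a hp0 hp1
        have g1 := hle w
        have g2 := hle z
        have g3 : 0 ≤ hh S (ES S) p w := by linarith [hh1 w hw]
        have g4 : 0 ≤ hh S (ES S) p z := by linarith [hh1 z hz]
        calc cp (ES S) p b w * hh S (ES S) p w * cp (ES S) p w z * cp (ES S) p z a * hh S (ES S) p z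
            ≤ tau d p (w - b) * chi d p * tau d p (z - w) * tau d p (a - z) * chi d p := by
              have u1 : 0 ≤ tau d p (w - b) := (hT01 _).1
              have u2 : 0 ≤ tau d p (z - w) := (hT01 _).1
              have u3 : 0 ≤ tau d p (a - z) := (hT01 _).1
              gcongr
          _ = chi d p ^ 2 * (tau d p (w - b) * tau d p (z - w) * tau d p (a - z)) := by ring
    _ = chi d p ^ 2 * ∑ w ∈ S, ∑ z ∈ S, tau d p (w - b) * tau d p (z - w) * tau d p (a - z) := by
        rw [Finset.mul_sum]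
        refine Finset.sum_congr rfl fun w _ => ?_
        rw [Finset.mul_sum]
    _ ≤ chi d p ^ 2 * (1 / 16) := mul_le_mul_of_nonneg_left hsmall (by positivity)
    _ = chi d p ^ 2 / 16 := by ring

end Pool.WF
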