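import Pool.Agent.Helper56.WF.St
import Pool.Agent.Helper84.LE.BWT

set_option autoImplicit false

open scoped BigOperators ENNReal Topology
open Pool.LE Pool.NL

namespace Pool.WF

theorem hPHlow (hBox : StBox) : StPHlow := by
  intro d hd
  have hd' : (1 : ℝ) ≤ d := by exact_mod_cast hd
  have hbdd : BddAbove {p : ℝ | 0 ≤ p ∧ p ≤ 1 / 2 ∧ ∃ S : Finset (Zd d), 0 ∈ S ∧ phiS d p S < 1} :=
    ⟨1 / 2, fun p hp => hp.2.1⟩
  apply le_of_forall_lt_imp_le_of_dense
  intro p hp
  have h2 : 1 / (2 * (d : ℝ)) ≤ 1 / 2 := by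
    apply one_div_le_one_div_of_le (by norm_num)
    linarith
  rcases le_or_gt 0 p with h0 | h0
  · apply le_csSup hbdd
    refine ⟨h0, (hp.le.trans h2), {0}, Finset.mem_singleton_self 0, ?_⟩
    unfold phiS
    rw [Finset.sum_singleton]
    have hcard : ((nb (0 : Zd d) \ {0}).card : ℝ) ≤ 2 * d := by
      have h3 := (hBox d).2.2.2.2.2.2.2.2.2.2.2.1 0
      have h4 : (nb (0 : Zd d) \ {0}).card ≤ (nb (0 : Zd d)).card :=
        Finset.card_le_card Finset.sdiff_subset
      rw [h3] at h4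
      exact_mod_cast h4
    have hpr : (Pr (ES ({0} : Finset (Zd d))) p (fun ω => con ω 0 0)).toReal ≤ 1 := by
      have h5 := Pr_le_one h0 ((hp.le.trans h2).trans (by norm_num))
        (ES ({0} : Finset (Zd d))) (fun ω => con ω 0 0)
      exact ENNReal.toReal_le_of_le_ofReal zero_le_one (by simpa using h5)
    have h6 : ((nb (0 : Zd d) \ {0}).card : ℝ) *
        (Pr (ES ({0} : Finset (Zd d))) p (fun ω => con ω 0 0)).toReal ≤ 2 * d * 1 :=
      mul_le_mul hcard hpr ENNReal.toReal_nonneg (by positivity)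
    calc p * (((nb (0 : Zd d) \ {0}).card : ℝ) *
        (Pr (ES ({0} : Finset (Zd d))) p (fun ω => con ω 0 0)).toReal)
        ≤ p * (2 * d * 1) := mul_le_mul_of_nonneg_left h6 h0
      _ < 1 := by
        have h7 : 0 < 2 * (d : ℝ) := by linarith
        rw [lt_div_iff₀ h7] at hp
        linarith
  · have : (0 : ℝ) ≤ pH d := by
      unfold pH
      apply Real.sSup_nonneg
      intro x hx
      exact hx.1
    exact h0.le.trans this

end Pool.WF
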