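import Pool.Agent.Helper56.WF.St
import Pool.Agent.Helper84.LE.BWT
import Pool.Agent.Helper84.LE.BGR

/-!
# Project WF, module PcW: `pH` is the critical probability
-/

set_option autoImplicit false

open scoped BigOperators ENNReal Topology
open Pool.LE Pool.NL Pool.Agent.Helper56.WP Filter MeasureTheory

namespace Pool.WF

variable {d : ℕ}

private theorem bx_mono_PcW (hBox : StBox) {m R : ℕ} (h : m ≤ R) {x : Zd d} (hx : x ∈ bx d m) :
    x ∈ bx d R := by
  obtain ⟨-, b2, -⟩ := hBox d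
  rw [b2] at hx ⊢
  intro i
  exact (hx i).trans (by exact_mod_cast h)

private theorem zero_mem_PcW (n : ℕ) (hBox : StBox) : (0 : Zd d) ∈ bx d n := by
  obtain ⟨-, b2, -⟩ := hBox d
  rw [b2]
  intro i
  rw [Pi.zero_apply, abs_zero]
  exact Int.natCast_nonneg n

private theorem step_PcW (hBox : StBox) {m n : ℕ} {ω : Cfg d} {u v : Zd d}
    (h : (gr (opW m ω)).Adj u v) (hu : u ∈ bx d n) :
    (gr (opW (n + 1) ω)).Adj u v ∧ v ∈ bx d (n + 1) := by
  classical
  obtain ⟨-, -, -, -, -, -, b7, b8, -⟩ := hBox d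
  rw [gr_adj] at h ⊢
  unfold opW at h ⊢
  rw [Finset.mem_filter] at h ⊢
  obtain ⟨⟨h1, h2⟩, h3⟩ := h
  have h4 := (b8 (bx d m) u v).1 h1
  have h5 : v ∈ bx d (n + 1) := b7 u v n hu h4.2.2
  exact ⟨⟨⟨(b8 (bx d (n + 1)) u v).2 ⟨bx_mono_PcW hBox (by omega) hu, h5, h4.2.2⟩, h2⟩, h3⟩, h5⟩

private theorem exit_PcW (hBox : StBox) {m n : ℕ} {ω : Cfg d} {u v : Zd d}
    (q : (gr (opW m ω)).Walk u v) : u ∈ bx d n → v ∉ bx d n →
      ∃ z : Zd d, z ∉ bx d n ∧ con (opW (n + 1) ω) u z := by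
  induction q with
  | nil =>
    intro h1 h2
    exact absurd h1 h2
  | cons hadj r ih =>
    rename_i u w v
    intro h1 h2
    obtain ⟨h3, h4⟩ := step_PcW hBox hadj h1
    by_cases hwn : w ∈ bx d n
    · obtain ⟨z, hz1, hz2⟩ := ih hwn h2
      exact ⟨z, hz1, con_trans h3.reachable hz2⟩
    · exact ⟨w, hwn, h3.reachable⟩

private theorem out_anti_PcW (hBox : StBox) {n m : ℕ} {ω : Cfg d}
    (hnm : n ≤ m) (h : Out m (opW (m + 1) ω)) : Out n (opW (n + 1) ω) := by
  obtain ⟨y, hy, ⟨w⟩⟩ := h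
  exact exit_PcW hBox w (zero_mem_PcW n hBox) (fun h => hy (bx_mono_PcW hBox hnm h))

private instance prob_PcW (d : ℕ) (p : unitInterval) : IsProbabilityMeasure (perc d p) := by
  unfold perc
  infer_instance

private theorem th_mono_PcW {n : ℕ} {p q : ℝ} (h0 : 0 ≤ p) (hpq : p ≤ q) (h1 : q ≤ 1) :
    th d n p ≤ th d n q := by
  unfold th
  refine ENNReal.toReal_mono
    (ne_top_of_le_ne_top ENNReal.one_ne_top (Pr_le_one (h0.trans hpq) h1 _ _)) ?_
  refine Pr_mono_p h0 hpq h1 ?_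
  rintro ω η h ⟨y, hy, hc⟩
  exact ⟨y, hy, con_mono h hc⟩

/-- **PcW** the critical probability -/
theorem hPcW (hL : StLawW) (hR : StReW) (hTh : StTheta) (hTS : StThetaSub)
    (hPH : StPH) (hBox : StBox) : StPcW := by
  intro d hd hp2
  have hpos : 0 < pH d := (hPH d hd).1
  -- the event of an infinite cluster
  have hset : {ω : Cfg d | {x : Fin d → ℤ | (openG Set.univ ω).Reachable 0 x}.Infinite} =
      ⋂ n : ℕ, {ω | Out n (opW (n + 1) ω)} := by
    ext ω
    rw [Set.mem_iInter]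
    exact (hR d ω).2.2
  have hA : ∀ (p : unitInterval) (n : ℕ),
      (perc d p {ω | Out n (opW (n + 1) ω)}).toReal = th d n p := by
    intro p n
    rw [(hL d (n + 1) p (Out n)).1]
    rfl
  have hanti : Antitone (fun n : ℕ => {ω : Cfg d | Out n (opW (n + 1) ω)}) :=
    fun n m hnm ω hω => out_anti_PcW hBox hnm hω
  -- above `pH`
  have hup : ∀ p : unitInterval, pH d < p →
      perc d p {ω | {x : Fin d → ℤ | (openG Set.univ ω).Reachable 0 x}.Infinite} ≠ 0 := by
    intro p h1 h3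
    rw [hset] at h3
    have hlim := tendsto_measure_iInter_atTop (μ := perc d p)
      (s := fun n : ℕ => {ω : Cfg d | Out n (opW (n + 1) ω)})
      (fun n => (hL d (n + 1) p (Out n)).2.nullMeasurableSet) hanti
      ⟨0, measure_ne_top _ _⟩
    rw [h3] at hlim
    have hlim2 := (ENNReal.tendsto_toReal ENNReal.zero_ne_top).comp hlim
    have hlim3 : Tendsto (fun n => th d n p) atTop (𝓝 0) := by
      refine hlim2.congr ?_
      intro n
      exact hA p n
    obtain ⟨q, hq1, hq2, hq3⟩ : ∃ q : ℝ, pH d < q ∧ q ≤ 1 / 2 ∧ q ≤ p := by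
      rcases le_or_gt (p : ℝ) (1 / 2) with h | h
      · exact ⟨p, h1, h, le_rfl⟩
      · exact ⟨1 / 2, hp2, le_rfl, h.le⟩
    have hc : 0 < 1 - Real.exp (-2 * (q - pH d)) := by
      have : Real.exp (-2 * (q - pH d)) < 1 := by
        rw [← Real.exp_zero]
        exact Real.exp_lt_exp.2 (by linarith)
      linarith
    have hge := ge_of_tendsto hlim3 (Eventually.of_forall (fun n =>
      (hTh d hd hp2 n q hq1.le hq2).trans (th_mono_PcW (hpos.le.trans hq1.le) hq3 p.2.2)))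
    linarith
  -- everything in `[0, pH)` is in the set
  have hlow : ∀ p : ℝ, 0 ≤ p → p < pH d →
      p ∈ {p : ℝ | ∃ h : p ∈ unitInterval,
        perc d ⟨p, h⟩ {ω | {x : Fin d → ℤ | (openG Set.univ ω).Reachable 0 x}.Infinite} = 0} := by
    intro p h0 h1
    have h01 : p ≤ 1 := by linarith
    refine ⟨⟨h0, h01⟩, ?_⟩
    rw [hset]
    have hle : ∀ n : ℕ, (perc d ⟨p, ⟨h0, h01⟩⟩
        (⋂ n : ℕ, {ω : Cfg d | Out n (opW (n + 1) ω)})).toReal ≤ th d n p := by
      intro n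
      have h2 := hA ⟨p, ⟨h0, h01⟩⟩ n
      change _ = th d n p at h2
      rw [← h2]
      exact ENNReal.toReal_mono (measure_ne_top _ _) (measure_mono (Set.iInter_subset _ n))
    have h2 : (perc d ⟨p, ⟨h0, h01⟩⟩
        (⋂ n : ℕ, {ω : Cfg d | Out n (opW (n + 1) ω)})).toReal ≤ 0 :=
      ge_of_tendsto (hTS d p hd h0 h1) (Eventually.of_forall hle)
    have h3 : (perc d ⟨p, ⟨h0, h01⟩⟩
        (⋂ n : ℕ, {ω : Cfg d | Out n (opW (n + 1) ω)})).toReal = 0 :=
      le_antisymm h2 ENNReal.toReal_nonneg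
    rcases (ENNReal.toReal_eq_zero_iff _).1 h3 with h | h
    · exact h
    · exact absurd h (measure_ne_top _ _)
  unfold pcW
  refine csSup_eq_of_forall_le_of_forall_lt_exists_gt ⟨0, hlow 0 le_rfl hpos⟩ ?_ ?_
  · rintro p ⟨h, hp⟩
    by_contra hlt
    rw [not_le] at hlt
    exact hup ⟨p, h⟩ hlt hp
  · intro w hw
    refine ⟨(max w 0 + pH d) / 2, hlow _ ?_ ?_, ?_⟩
    · have := le_max_right w 0
      linarith
    · have h1 : max w 0 < pH d := max_lt hw hpos
      linarith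
    · have h1 : max w 0 < pH d := max_lt hw hpos
      have h2 := le_max_left w 0
      linarith

end Pool.WF
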