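import Pool.Agent.Helper56.WF.St
import Pool.Agent.Helper84.LE.BGR

/-!
# Project WF, module ReW: connections in the lattice and in boxes
-/

set_option autoImplicit false

open scoped BigOperators ENNReal Topology
open Pool.LE Pool.NL Pool.Agent.Helper56.WP

namespace Pool.WF

variable {d : ℕ}

private theorem nn_iff_ReW (hBox : StBox) (x y : Zd d) : nn x y ↔ y ∈ nb x := by
  obtain ⟨-, -, b3, -⟩ := hBox d
  rw [b3]
  unfold nn
  constructor
  · intro h
    have hnn : ∀ i ∈ (Finset.univ : Finset (Fin d)), 0 ≤ |x i - y i| := fun i _ => abs_nonneg _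
    obtain ⟨i, hi⟩ : ∃ i, |x i - y i| ≠ 0 := by
      by_contra hcon
      push Not at hcon
      rw [Finset.sum_eq_zero fun i _ => hcon i] at h
      exact absurd h (by norm_num)
    have h1 := Finset.add_sum_erase Finset.univ (fun i => |x i - y i|) (Finset.mem_univ i)
    have h2 : 0 ≤ ∑ j ∈ Finset.univ.erase i, |x j - y j| :=
      Finset.sum_nonneg fun j _ => abs_nonneg _
    have h3 : 1 ≤ |x i - y i| := Int.one_le_abs (fun h0 => hi (by rw [h0, abs_zero]))
    have h4 : ∑ j ∈ Finset.univ.erase i, |x j - y j| = 0 := by omega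
    have h5 : |x i - y i| = 1 := by omega
    have h6 : ∀ j, j ≠ i → y j = x j := by
      intro j hj
      have h7 := (Finset.sum_eq_zero_iff_of_nonneg (fun j _ => abs_nonneg _)).1 h4 j
        (Finset.mem_erase.2 ⟨hj, Finset.mem_univ j⟩)
      have h8 := abs_eq_zero.1 h7
      omega
    refine ⟨i, ?_⟩
    rcases (abs_eq (by norm_num : (0 : ℤ) ≤ 1)).1 h5 with h7 | h7
    · right
      funext j
      by_cases hj : j = i
      · rw [hj, Pi.sub_apply, Pi.single_eq_same]
        omega
      · rw [Pi.sub_apply, Pi.single_eq_of_ne hj, h6 j hj]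
        omega
    · left
      funext j
      by_cases hj : j = i
      · rw [hj, Pi.add_apply, Pi.single_eq_same]
        omega
      · rw [Pi.add_apply, Pi.single_eq_of_ne hj, h6 j hj]
        omega
  · rintro ⟨i, h | h⟩
    · rw [Finset.sum_eq_single i]
      · rw [h, Pi.add_apply, Pi.single_eq_same]
        have h1 : x i - (x i + 1) = -1 := by omega
        rw [h1]
        rfl
      · intro j _ hj
        rw [h, Pi.add_apply, Pi.single_eq_of_ne hj, add_zero, sub_self, abs_zero]
      · intro h1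
        exact absurd (Finset.mem_univ i) h1
    · rw [Finset.sum_eq_single i]
      · rw [h, Pi.sub_apply, Pi.single_eq_same]
        have h1 : x i - (x i - 1) = 1 := by omega
        rw [h1]
        rfl
      · intro j _ hj
        rw [h, Pi.sub_apply, Pi.single_eq_of_ne hj, sub_zero, sub_self, abs_zero]
      · intro h1
        exact absurd (Finset.mem_univ i) h1

private theorem opW_adj_ReW (hBox : StBox) {R : ℕ} {ω : Cfg d} {x y : Zd d} :
    (gr (opW R ω)).Adj x y ↔
      (openG Set.univ ω).Adj x y ∧ x ∈ bx d R ∧ y ∈ bx d R := by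
  classical
  obtain ⟨-, -, -, -, -, -, -, b8, -⟩ := hBox d
  rw [gr_adj]
  unfold opW
  rw [Finset.mem_filter]
  constructor
  · rintro ⟨⟨h1, h2⟩, h4⟩
    have h3 := (b8 (bx d R) x y).1 h1
    exact ⟨⟨h4, (nn_iff_ReW hBox x y).2 h3.2.2, Set.mem_univ _, Set.mem_univ _, h2⟩, h3.1, h3.2.1⟩
  · rintro ⟨⟨h1, h2, -, -, h3⟩, h4, h5⟩
    exact ⟨⟨(b8 (bx d R) x y).2 ⟨h4, h5, (nn_iff_ReW hBox x y).1 h2⟩, h3⟩, h1⟩

private theorem opW_le_ReW (hBox : StBox) (R : ℕ) (ω : Cfg d) :
    gr (opW R ω) ≤ openG Set.univ ω := by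
  intro x y h
  exact ((opW_adj_ReW hBox).1 h).1

private theorem bx_mono_ReW (hBox : StBox) {m R : ℕ} (h : m ≤ R) {x : Zd d} (hx : x ∈ bx d m) :
    x ∈ bx d R := by
  obtain ⟨-, b2, -⟩ := hBox d
  rw [b2] at hx ⊢
  intro i
  exact (hx i).trans (by exact_mod_cast h)

private theorem nb_ReW (hBox : StBox) {ω : Cfg d} {x y : Zd d}
    (h : (openG Set.univ ω).Adj x y) : y ∈ nb x := (nn_iff_ReW hBox x y).1 h.2.1

private theorem walk_ReW (hBox : StBox) {R : ℕ} {ω : Cfg d} {u v : Zd d}
    (q : (openG Set.univ ω).Walk u v) : ∀ m : ℕ, u ∈ bx d m → m + q.length ≤ R →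
      con (opW R ω) u v := by
  induction q with
  | nil =>
    intro m _ _
    exact SimpleGraph.Reachable.refl _
  | cons hadj r ih =>
    rename_i u w v
    intro m hu hm
    rw [SimpleGraph.Walk.length_cons] at hm
    obtain ⟨-, -, -, -, -, -, b7, -⟩ := hBox d
    have hw : w ∈ bx d (m + 1) := b7 u w m hu (nb_ReW hBox hadj)
    have hadj' : (gr (opW R ω)).Adj u w :=
      (opW_adj_ReW hBox).2 ⟨hadj, bx_mono_ReW hBox (by omega) hu, bx_mono_ReW hBox (by omega) hw⟩
    exact con_trans hadj'.reachable (ih (m + 1) hw (by omega))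

private theorem zero_mem_ReW (n : ℕ) (hBox : StBox) : (0 : Zd d) ∈ bx d n := by
  obtain ⟨-, b2, -⟩ := hBox d
  rw [b2]
  intro i
  rw [Pi.zero_apply, abs_zero]
  exact Int.natCast_nonneg n

private theorem exit_ReW (hBox : StBox) {n : ℕ} {ω : Cfg d} {u v : Zd d}
    (q : (openG Set.univ ω).Walk u v) : u ∈ bx d n → v ∉ bx d n →
      ∃ z : Zd d, z ∉ bx d n ∧ con (opW (n + 1) ω) u z := by
  induction q with
  | nil =>
    intro h1 h2
    exact absurd h1 h2
  | cons hadj r ih =>
    rename_i u w v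
    intro h1 h2
    obtain ⟨-, -, -, -, -, -, b7, -⟩ := hBox d
    have hw : w ∈ bx d (n + 1) := b7 u w n h1 (nb_ReW hBox hadj)
    have hadj' : (gr (opW (n + 1) ω)).Adj u w :=
      (opW_adj_ReW hBox).2 ⟨hadj, bx_mono_ReW hBox (by omega) h1, hw⟩
    by_cases hwn : w ∈ bx d n
    · obtain ⟨z, hz1, hz2⟩ := ih hwn h2
      exact ⟨z, hz1, con_trans hadj'.reachable hz2⟩
    · exact ⟨w, hwn, hadj'.reachable⟩

/-- **ReW** connections in the lattice and in boxes -/
theorem hReW (hBox : StBox) : StReW := by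
  classical
  intro d ω
  refine ⟨?_, ?_, ?_, ?_⟩
  · intro y
    constructor
    · rintro ⟨q⟩
      exact ⟨q.length, walk_ReW hBox q 0 (zero_mem_ReW 0 hBox) (by omega)⟩
    · rintro ⟨R, hR⟩
      exact hR.mono (opW_le_ReW hBox R ω)
  · intro R R' h
    obtain ⟨-, -, -, -, -, -, -, -, -, b10, -⟩ := hBox d
    unfold opW
    exact Finset.filter_subset_filter _ (b10 R R' h)
  · intro hinf n
    have h1 : ∃ y ∈ {x : Zd d | (openG Set.univ ω).Reachable 0 x},
        y ∉ (bx d n : Finset (Zd d)) := by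
      by_contra hcon
      push Not at hcon
      exact hinf ((bx d n).finite_toSet.subset fun y hy => Finset.mem_coe.2 (hcon y hy))
    obtain ⟨y, ⟨q⟩, hy⟩ := h1
    exact exit_ReW hBox q (zero_mem_ReW n hBox) hy
  · intro hout hfin
    obtain ⟨-, b2, -⟩ := hBox d
    let F := hfin.toFinset
    let n : ℕ := ∑ x ∈ F, ∑ i, (x i).natAbs
    obtain ⟨y, hy, hc⟩ := hout n
    have hyr : (openG Set.univ ω).Reachable 0 y := hc.mono (opW_le_ReW hBox (n + 1) ω)
    have hyF : y ∈ F := by
      rw [Set.Finite.mem_toFinset]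
      exact hyr
    apply hy
    rw [b2]
    intro i
    have h1 : (y i).natAbs ≤ ∑ i, (y i).natAbs :=
      Finset.single_le_sum (f := fun i => (y i).natAbs) (fun _ _ => Nat.zero_le _)
        (Finset.mem_univ i)
    have h2 : ∑ i, (y i).natAbs ≤ n :=
      Finset.single_le_sum (f := fun x : Zd d => ∑ i, (x i).natAbs) (fun _ _ => Nat.zero_le _) hyF
    have h3 : (y i).natAbs ≤ n := h1.trans h2
    have h4 : |y i| = ((y i).natAbs : ℤ) := Int.abs_eq_natAbs (y i)
    rw [h4]
    exact_mod_cast h3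

end Pool.WF
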