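import Pool.Agent.Helper56.WF.St
import Pool.Agent.Helper84.LE.BWT
import Pool.Agent.Helper84.LE.BGR
import Pool.Agent.Helper84.LE.BKP

/-! # Project WF: module Subm (hyperplane sums are submultiplicative) -/

set_option autoImplicit false

open scoped BigOperators ENNReal Topology
open Pool.LE Pool.NL

namespace Pool.WF

/-- discrete intermediate value along a walk -/
private theorem ivt_Subm (hBox : StBox) {d : ℕ} {R : ℕ} (i : Fin d) (r : ℤ)
    {ω : Finset (Sym2 (Zd d))} (hω : ω ⊆ Eb d R) {x y : Zd d} (q : (gr ω).Walk x y) (hx : x i ≤ r)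
    (hy : r ≤ y i) : ∃ z ∈ q.support, z i = r := by
  induction q with
  | nil => exact ⟨_, SimpleGraph.Walk.start_mem_support _, le_antisymm hx hy⟩
  | @cons u v w hadj q ih =>
    by_cases h : v i ≤ r
    · obtain ⟨z, hz, e⟩ := ih h hy
      exact ⟨z, by rw [SimpleGraph.Walk.support_cons]; exact List.mem_cons_of_mem _ hz, e⟩
    · refine ⟨u, SimpleGraph.Walk.start_mem_support _, ?_⟩
      have hin : s(u, v) ∈ ES (bx d R) := hω (gr_adj.1 hadj).1
      have hnb : v ∈ nb u := (((hBox d).2.2.2.2.2.2.2.1 (bx d R) u v).1 hin).2.2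
      obtain ⟨j, hj⟩ := ((hBox d).2.2.1 u v).1 hnb
      have h1 : ∀ k : Fin d, (Pi.single j (1 : ℤ) : Fin d → ℤ) k ≤ 1 ∧
          0 ≤ (Pi.single j (1 : ℤ) : Fin d → ℤ) k := by
        intro k
        by_cases hk : k = j
        · rw [hk, Pi.single_eq_same]
          exact ⟨le_refl _, by norm_num⟩
        · rw [Pi.single_eq_of_ne hk]
          exact ⟨by norm_num, le_refl _⟩
      have h2 : v i ≤ u i + 1 := by
        rcases hj with hj | hj
        · rw [hj, Pi.add_apply]
          linarith [(h1 i).1]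
        · rw [hj, Pi.sub_apply]
          linarith [(h1 i).2]
      push Not at h
      omega

/-- a connection from `0` to the hyperplane `x_i = r + s` is a trail through `x_i = r` -/
private theorem con_TR_Subm (hBox : StBox) {d : ℕ} {R : ℕ} (i : Fin d) (r s : ℕ)
    {ω : Finset (Sym2 (Zd d))} (hω : ω ⊆ Eb d R) {x : Zd d} (hx : x i = ((r + s : ℕ) : ℤ))
    (h : con ω 0 x) : ∃ y : Zd d, y i = (r : ℤ) ∧ TR ω (0, [y], x) := by
  obtain ⟨q0⟩ := h
  obtain ⟨q, hq⟩ : ∃ q : (gr ω).Walk 0 x, q.IsPath := ⟨q0.bypass, q0.bypass_isPath⟩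
  obtain ⟨y, hy, e⟩ := ivt_Subm hBox i (r : ℤ) hω q (by simp) (by rw [hx]; push_cast; omega)
  refine ⟨y, e, q, hq.isTrail, ?_⟩
  intro m hm
  rw [List.mem_singleton] at hm
  rw [hm]
  exact hy

/-- the bound of the two-point function -/
private theorem tauE_le_Subm (hTR : StTRcm) (hTD : StTauDom) (hBox : StBox) {d : ℕ} {p : ℝ}
    (i : Fin d) (r s : ℕ) (h0 : 0 ≤ p) (hp : p ≤ 1 / 2) {x : Zd d} (hx : x i = ((r + s : ℕ) : ℤ)) :
    tauE d p x ≤ ∑' y : Zd d, if y i = (r : ℤ) then tauE d p y * tauE d p (x - y) else 0 := by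
  unfold tauE
  refine iSup_le fun R => ?_
  change Pr (Eb d R) p (fun ω => con ω 0 x) ≤
    ∑' y : Zd d, if y i = (r : ℤ) then tauE d p y * tauE d p (x - y) else 0
  have h1 : Pr (Eb d R) p (fun ω => con ω 0 x) ≤
      Pr (Eb d R) p (fun ω => ∃ y : Zd d, y i = (r : ℤ) ∧ TR ω (0, [y], x)) :=
    Pr_mono fun ω hω hc => con_TR_Subm hBox i r s hω hx hc
  refine h1.trans ((Pr_exists_le _).trans (ENNReal.tsum_le_tsum fun y => ?_))
  by_cases hy : y i = (r : ℤ)
  · rw [if_pos hy]
    have hdom : LE.Dom (Eb d R) p (tk d p) := fun a b =>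
      hTD d p (Eb d R) a b h0 (by linarith) ((hBox d).2.2.2.2.2.2.2.2.1 (bx d R))
    have h2 := hTR (Zd d) (Eb d R) p (tk d p) h0 hp hdom (0, [y], x)
    rw [cm_one] at h2
    have h3 : tk d p 0 y = tauE d p y := by
      unfold tk
      rw [sub_zero]
    have h4 : tk d p y x = tauE d p (x - y) := rfl
    rw [h3, h4] at h2
    exact (Pr_mono fun ω _ hc => hc.2).trans h2
  · rw [if_neg hy]
    have h2 : Pr (Eb d R) p (fun ω => y i = (r : ℤ) ∧ TR ω (0, [y], x)) = 0 := by
      unfold Pr ExE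
      refine Finset.sum_eq_zero fun ω _ => ?_
      have h3 : ¬ (y i = (r : ℤ) ∧ TR ω (0, [y], x)) := fun hc => hy hc.1
      simp only [h3, if_false, mul_zero]
    exact h2.le

/-- **Subm** -/
theorem hSubm (hTR : StTRcm) (hTD : StTauDom) (hBox : StBox) : StSubm := by
  intro d p i r s h0 hp
  unfold Gs
  have h1 : ∀ x : Zd d, (if x i = ((r + s : ℕ) : ℤ) then tauE d p x else 0) ≤
      ∑' y : Zd d, if x i = ((r + s : ℕ) : ℤ) ∧ y i = (r : ℤ) then
        tauE d p y * tauE d p (x - y) else 0 := by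
    intro x
    by_cases hx : x i = ((r + s : ℕ) : ℤ)
    · rw [if_pos hx]
      refine (tauE_le_Subm hTR hTD hBox i r s h0 hp hx).trans (le_of_eq (tsum_congr fun y => ?_))
      simp only [hx, true_and]
    · rw [if_neg hx]
      exact zero_le
  refine (ENNReal.tsum_le_tsum h1).trans (le_of_eq ?_)
  rw [ENNReal.tsum_comm]
  have h2 : ∀ y : Zd d, (∑' x : Zd d, if x i = ((r + s : ℕ) : ℤ) ∧ y i = (r : ℤ) then
      tauE d p y * tauE d p (x - y) else 0) =
      (if y i = (r : ℤ) then tauE d p y else 0) *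
        ∑' z : Zd d, if z i = (s : ℤ) then tauE d p z else 0 := by
    intro y
    by_cases hy : y i = (r : ℤ)
    · rw [if_pos hy, ← ENNReal.tsum_mul_left, ← (Equiv.addLeft y).tsum_eq]
      refine tsum_congr fun z => ?_
      have e1 : (Equiv.addLeft y) z = y + z := rfl
      rw [e1, add_sub_cancel_left]
      by_cases hz : z i = (s : ℤ)
      · rw [if_pos hz, if_pos]
        refine ⟨?_, hy⟩
        rw [Pi.add_apply, hy, hz]
        push_cast
        ring
      · rw [if_neg hz, if_neg, mul_zero]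
        rintro ⟨h3, -⟩
        rw [Pi.add_apply, hy] at h3
        push_cast at h3
        apply hz
        linarith
    · rw [if_neg hy, zero_mul]
      refine (tsum_congr fun x => ?_).trans tsum_zero
      rw [if_neg]
      rintro ⟨-, h3⟩
      exact hy h3
  rw [tsum_congr h2, ENNReal.tsum_mul_right]

end Pool.WF
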