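import Pool.Agent.Helper56.WF.St
import Pool.Agent.Helper84.LE.BGR
import Pool.Agent.Helper84.LE.BWT

/-! # Project WF: module Sum -/

set_option autoImplicit false

open scoped BigOperators ENNReal Topology
open Pool.LE Pool.NL

namespace Pool.WF

private theorem nb_step_Sum (hBox : StBox) {d : ℕ} (x b : Zd d) (h : b ∈ nb x) (i : Fin d) :
    b i ≤ x i + 1 := by
  obtain ⟨-, -, hnb, -⟩ := hBox d
  obtain ⟨j, hj | hj⟩ := (hnb x b).1 h
  · rw [hj, Pi.add_apply]
    by_cases hij : i = j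
    · subst hij
      rw [Pi.single_eq_same]
    · rw [Pi.single_eq_of_ne hij]
      omega
  · rw [hj, Pi.sub_apply]
    by_cases hij : i = j
    · subst hij
      rw [Pi.single_eq_same]
      omega
    · rw [Pi.single_eq_of_ne hij]
      omega

private theorem ivt_Sum (hBox : StBox) {d : ℕ} {S : Finset (Zd d)} {ω : Finset (Sym2 (Zd d))}
    (hω : ω ⊆ ES S) (i : Fin d) (r : ℤ) {x y : Zd d} (q : (gr ω).Walk x y) :
    x i ≤ r → r ≤ y i → ∃ z : Zd d, z i = r ∧ con ω x z := by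
  induction q with
  | nil =>
    intro h1 h2
    exact ⟨_, le_antisymm h1 h2, SimpleGraph.Reachable.refl _⟩
  | cons hadj q ih =>
    rename_i u v w
    intro h1 h2
    rcases eq_or_lt_of_le h1 with h3 | h3
    · exact ⟨u, h3, SimpleGraph.Reachable.refl _⟩
    · obtain ⟨-, -, -, -, -, -, -, hES, -⟩ := hBox d
      have h4 : v ∈ nb u := ((hES S u v).1 (hω (gr_adj.1 hadj).1)).2.2
      have h5 := nb_step_Sum hBox u v h4 i
      obtain ⟨z, hz, hc⟩ := ih (by omega) h2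
      exact ⟨z, hz, hadj.reachable.trans hc⟩

theorem hSum (hA : StArm) (hS : StSumB) (hB : StBasic) (hBox : StBox) (hS6 : StS6d) : StSum := by
  obtain ⟨d₁, hd1, hA⟩ := hA
  refine ⟨d₁, hd1, fun d hd i => ?_⟩
  obtain ⟨C, hC, hA⟩ := hA d hd
  obtain ⟨hp0, hp2⟩ := hS6 d (by omega)
  have hp1 : pH d ≤ 1 := by linarith
  refine hS (fun r => ⨆ R : ℕ, Pr (Eb d R) (pH d) (armF i r)) (ENNReal.ofReal C)
    ENNReal.ofReal_ne_top ?_ ?_ ?_
  · intro r s hrs
    refine iSup_mono fun R => Pr_mono fun ω hω => ?_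
    rintro ⟨y, hy, ⟨q⟩⟩
    obtain ⟨z, hz, hc⟩ := ivt_Sum hBox (S := bx d R) hω i (r : ℤ) q (by simp) (by rw [hy]; exact_mod_cast hrs)
    exact ⟨z, hz, hc⟩
  · exact iSup_le fun R => Pr_le_one hp0.le hp1 _ _
  · intro m hm
    have hm0 : (0 : ℝ) < (m : ℝ) ^ 45 := by
      have : (0 : ℝ) < m := by exact_mod_cast hm
      positivity
    have hx : 0 ≤ C / (m : ℝ) ^ 45 := by positivity
    set b : ℝ := (C / (m : ℝ) ^ 45) ^ (((4 : ℕ) : ℝ)⁻¹) with hb
    have hb0 : 0 ≤ b := Real.rpow_nonneg hx _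
    have hb4 : b ^ 4 = C / (m : ℝ) ^ 45 := Real.rpow_inv_natCast_pow hx (by norm_num)
    have hle : (⨆ R : ℕ, Pr (Eb d R) (pH d) (armF i (m ^ 11))) ≤ ENNReal.ofReal b := by
      refine iSup_le fun R => ?_
      obtain ⟨-, -, -, -, -, -, hpr, -⟩ := hB (Zd d) (Eb d R) (pH d) hp0.le hp1
      obtain ⟨hq0, -, hqE, -⟩ := hpr (armF i (m ^ 11))
      rw [hqE]
      refine ENNReal.ofReal_le_ofReal ?_
      have h1 := hA i m R hm
      have h2 : pr (Eb d R) (pH d) (armF i (m ^ 11)) ^ 4 ≤ b ^ 4 := by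
        rw [hb4, le_div_iff₀ hm0, mul_comm]
        exact h1
      exact (pow_le_pow_iff_left₀ hq0 hb0 (by norm_num)).1 h2
    calc (m : ENNReal) ^ 45 * (⨆ R : ℕ, Pr (Eb d R) (pH d) (armF i (m ^ 11))) ^ 4
        ≤ (m : ENNReal) ^ 45 * (ENNReal.ofReal b) ^ 4 := by gcongr
      _ = ENNReal.ofReal ((m : ℝ) ^ 45 * b ^ 4) := by
          rw [ENNReal.ofReal_mul (by positivity), ENNReal.ofReal_pow hb0, ENNReal.ofReal_pow (by positivity),
            ENNReal.ofReal_natCast]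
      _ = ENNReal.ofReal C := by
          rw [hb4, mul_div_cancel₀]
          exact hm0.ne'
      _ ≤ ENNReal.ofReal C := le_refl _

end Pool.WF
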