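import Pool.Agent.Helper56.WF.St

set_option autoImplicit false

open scoped BigOperators ENNReal Topology
open Pool.LE Pool.NL

namespace Pool.WF

private theorem bd_SumB (Q : ℕ → ℝ) (C : ℝ) (hC : 0 ≤ C) (h0 : ∀ r, 0 ≤ Q r)
    (hanti : ∀ r s, r ≤ s → Q s ≤ Q r)
    (hm : ∀ m : ℕ, 1 ≤ m → (m : ℝ) ^ 45 * Q (m ^ 11) ^ 4 ≤ C) (r : ℕ) (hr : 1 ≤ r) :
    Q r ≤ (2 ^ 45 * C) ^ (1 / 4 : ℝ) * (r : ℝ) ^ (-(45 / 44) : ℝ) := by
  have hx1 : (1 : ℝ) ≤ r := by exact_mod_cast hr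
  have hx0 : (0 : ℝ) < r := by linarith
  set y : ℝ := (r : ℝ) ^ (1 / 11 : ℝ) with hy
  have hy1 : 1 ≤ y := Real.one_le_rpow hx1 (by norm_num)
  have hy0 : 0 < y := by linarith
  have hy11 : y ^ 11 = r := by
    rw [hy, ← Real.rpow_natCast, ← Real.rpow_mul hx0.le]
    norm_num
  set m : ℕ := ⌊y⌋₊ with hmdef
  have hm1 : 1 ≤ m := Nat.le_floor (by simpa using hy1)
  have hmy : (m : ℝ) ≤ y := Nat.floor_le hy0.le
  have hym : y < m + 1 := Nat.lt_floor_add_one y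
  have hm1' : (1 : ℝ) ≤ m := by exact_mod_cast hm1
  have hhalf : y / 2 ≤ m := by linarith
  have hmr : m ^ 11 ≤ r := by
    have : (m : ℝ) ^ 11 ≤ r := by
      rw [← hy11]
      exact pow_le_pow_left₀ (by linarith) hmy 11
    exact_mod_cast this
  have hQr : Q r ≤ Q (m ^ 11) := hanti _ _ hmr
  have hq4 : Q r ^ 4 ≤ Q (m ^ 11) ^ 4 := pow_le_pow_left₀ (h0 r) hQr 4
  have h1 : (y / 2) ^ 45 * Q r ^ 4 ≤ C := by
    refine le_trans ?_ (hm m hm1)
    exact mul_le_mul (pow_le_pow_left₀ (by linarith) hhalf 45) hq4 (by positivity) (by positivity)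
  have hA0 : 0 ≤ (2 ^ 45 * C) ^ (1 / 4 : ℝ) * (r : ℝ) ^ (-(45 / 44) : ℝ) := by positivity
  refine le_of_pow_le_pow_left₀ (n := 4) (by norm_num) hA0 ?_
  rw [mul_pow]
  have e1 : ((2 ^ 45 * C) ^ (1 / 4 : ℝ)) ^ 4 = 2 ^ 45 * C := by
    rw [← Real.rpow_natCast, ← Real.rpow_mul (by positivity)]
    norm_num
  have e2 : ((r : ℝ) ^ (-(45 / 44) : ℝ)) ^ 4 = (y ^ 45)⁻¹ := by
    rw [hy, ← Real.rpow_natCast, ← Real.rpow_mul hx0.le, ← Real.rpow_natCast, ← Real.rpow_mul hx0.le,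
      ← Real.rpow_neg hx0.le]
    norm_num
  rw [e1, e2, ← div_eq_mul_inv, le_div_iff₀ (by positivity)]
  have h2 : (y / 2) ^ 45 = y ^ 45 / 2 ^ 45 := by rw [div_pow]
  rw [h2, div_mul_eq_mul_div, div_le_iff₀ (by positivity)] at h1
  linarith

theorem hSumB : StSumB := by
  intro q C hC hanti hq0 hm
  have hq1 : ∀ r, q r ≤ 1 := fun r => (hanti 0 r (Nat.zero_le r)).trans hq0
  have hqt : ∀ r, q r ≠ ⊤ := fun r => ne_top_of_le_ne_top ENNReal.one_ne_top (hq1 r)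
  have hb := bd_SumB (fun r => (q r).toReal) C.toReal ENNReal.toReal_nonneg
    (fun r => ENNReal.toReal_nonneg)
    (fun r s h => ENNReal.toReal_mono (hqt r) (hanti r s h))
    (fun m h1 => by
      have h2 := ENNReal.toReal_mono hC (hm m h1)
      rwa [ENNReal.toReal_mul, ENNReal.toReal_pow, ENNReal.toReal_pow, ENNReal.toReal_natCast] at h2)
  have hs : Summable fun r => (q r).toReal := by
    have h1 : Summable fun r : ℕ => (2 ^ 45 * C.toReal) ^ (1 / 4 : ℝ) * (r : ℝ) ^ (-(45 / 44) : ℝ) :=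
      (Real.summable_nat_rpow.2 (by norm_num)).mul_left _
    rw [← summable_nat_add_iff 1] at h1 ⊢
    exact Summable.of_nonneg_of_le (fun r => ENNReal.toReal_nonneg) (fun r => hb (r + 1) (by omega)) h1
  have h2 := hs.tsum_ofReal_ne_top
  simpa only [ENNReal.ofReal_toReal (hqt _)] using h2

end Pool.WF
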