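import Pool.Agent.Helper56.WF.St
import Pool.Agent.Helper22.NL.M_Tree

/-! # Project WF: change of the parameter for events of the explored cluster -/

set_option autoImplicit false

open scoped BigOperators ENNReal Topology
open Pool.LE Pool.NL

namespace Pool.WF
namespace Tree4

open Pool.NL.Tree

variable {V : Type} [DecidableEq V]

/-- the condition on the cluster -/
def Cd (N : ℕ) (Q : Finset V → Prop) (c : Prop) (R : Finset V) : Prop :=
  (R.card < N ∧ Q R) ∨ (N ≤ R.card ∧ c)

theorem pr_congr {E : Finset (Sym2 V)} {p : ℝ} {A B : Finset (Sym2 V) → Prop}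
    (h : ∀ ω, ω ⊆ E → (A ω ↔ B ω)) : pr E p A = pr E p B := by
  unfold pr Ex
  refine Finset.sum_congr rfl fun ω hω => ?_
  have h1 := h ω (Finset.mem_powerset.1 hω)
  show wt E p ω • ind (A ω) = wt E p ω • ind (B ω)
  unfold ind
  by_cases hA : A ω
  · rw [if_pos hA, if_pos (h1.1 hA)]
  · rw [if_neg hA, if_neg (fun hB => hA (h1.2 hB))]

theorem pr_true (hB : StBasic) (E : Finset (Sym2 V)) (q : ℝ) (h0 : 0 ≤ q) (h1 : q ≤ 1) :
    pr E q (fun _ => True) = 1 := by
  have h3 := (hB V E q h0 h1).2.1 1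
  unfold pr ind
  unfold ex at h3
  simpa using h3

theorem pr_false (hB : StBasic) (E : Finset (Sym2 V)) (q : ℝ) (h0 : 0 ≤ q) (h1 : q ≤ 1) :
    pr E q (fun _ => False) = 0 := by
  have h3 := (hB V E q h0 h1).2.1 0
  unfold pr ind
  unfold ex at h3
  simpa using h3

/-- constant events -/
theorem const_case (hB : StBasic) {E : Finset (Sym2 V)} {p p' r : ℝ} (hp : 0 < p) (hp1 : p < 1)
    (hp' : 0 ≤ p') (hp1' : p' ≤ 1) (hr1 : 1 ≤ r) (k : ℕ) {A : Finset (Sym2 V) → Prop} (c : Prop)
    (h : ∀ ω, ω ⊆ E → (A ω ↔ c)) :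
    (pr E p' A) ^ 4 ≤ r ^ k * (pr E p A) ^ 3 := by
  by_cases hc : c
  · have h1 : ∀ q : ℝ, 0 ≤ q → q ≤ 1 → pr E q A = 1 := by
      intro q h0 h1
      rw [← pr_true hB E q h0 h1]
      exact pr_congr (fun ω hω => by simp [h ω hω, hc])
    rw [h1 p' hp' hp1', h1 p hp.le hp1.le]
    have := one_le_pow₀ (n := k) hr1
    linarith
  · have h1 : ∀ q : ℝ, 0 ≤ q → q ≤ 1 → pr E q A = 0 := by
      intro q h0 h1
      rw [← pr_false hB E q h0 h1]
      exact pr_congr (fun ω hω => by simp [h ω hω, hc])
    rw [h1 p' hp' hp1', h1 p hp.le hp1.le]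
    simp

theorem main (hE : StEdge) (hB : StBasic) (hH : StHol) (hK : StKap) (L : Finset V) (D : ℕ)
    (p p' : ℝ) (hp : 0 < p) (hp1 : p < 1) (hp' : 0 ≤ p') (hp1' : p' ≤ 1) (N : ℕ)
    (Q : Finset V → Prop) (c : Prop) :
    ∀ n : ℕ, ∀ F : Finset (Sym2 V), F.card = n → FG L F D → ∀ K : Finset V, K ⊆ L →
      (pr F p' (fun ω => Cd N Q c (rs L K ω))) ^ 4 ≤
        kap p p' ^ ((∑ w ∈ K, dg F w) + D * (N - K.card)) *
          (pr F p (fun ω => Cd N Q c (rs L K ω))) ^ 3 := by
  have hr1 : 1 ≤ kap p p' := hK.1 p p' hp hp1 hp' hp1'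
  have hr0 : 0 ≤ kap p p' := by linarith
  intro n
  induction n with
  | zero =>
    intro F hF hG K hKL
    have hF0 : F = ∅ := Finset.card_eq_zero.mp hF
    refine const_case hB hp hp1 hp' hp1' hr1 _ (Cd N Q c K) ?_
    intro ω hω
    have h5 : rs L K ω ⊆ K := by
      apply rs_le hω
      intro u v _ _ h6
      rw [hF0] at h6
      simp at h6
    rw [Finset.Subset.antisymm h5 (rs_ge hKL ω)]
  | succ n ih =>
    intro F hF hG K hKL
    by_cases hs : N ≤ K.card
    · refine const_case hB hp hp1 hp' hp1' hr1 _ c ?_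
      intro ω _
      have h1 : N ≤ (rs L K ω).card := hs.trans (Finset.card_le_card (rs_ge hKL ω))
      unfold Cd
      constructor
      · rintro (⟨h2, _⟩ | ⟨_, h2⟩)
        · omega
        · exact h2
      · intro hc
        exact Or.inr ⟨h1, hc⟩
    · by_cases hno : ∀ u v, u ∈ K → v ∉ K → s(u, v) ∉ F
      · refine const_case hB hp hp1 hp' hp1' hr1 _ (Cd N Q c K) ?_
        intro ω hω
        have h5 : rs L K ω ⊆ K := rs_le hω hno
        rw [Finset.Subset.antisymm h5 (rs_ge hKL ω)]
      · push Not at hno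
        obtain ⟨u, v, hu, hv, he⟩ := hno
        have hvL : v ∈ L := hG.inside _ he v (Sym2.mem_mk_right u v)
        have hcard : (F.erase s(u, v)).card = n := by
          rw [Finset.card_erase_of_mem he, hF]; rfl
        have hG' : FG L (F.erase s(u, v)) D := by
          refine ⟨fun e he' => hG.inside e (Finset.mem_of_mem_erase he'),
            fun e he' => hG.noloop e (Finset.mem_of_mem_erase he'), ?_⟩
          intro w hw
          exact (dg_erase_le F s(u, v) w).trans (hG.deg w hw)
        have hK' : insert v K ⊆ L := by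
          intro w hw
          rw [Finset.mem_insert] at hw
          rcases hw with rfl | hw
          · exact hvL
          · exact hKL hw
        have hsplit : ∀ q : ℝ, pr F q (fun ω => Cd N Q c (rs L K ω)) =
            q * pr (F.erase s(u, v)) q (fun ω => Cd N Q c (rs L (insert v K) ω)) +
            (1 - q) * pr (F.erase s(u, v)) q (fun ω => Cd N Q c (rs L K ω)) := by
          intro q
          have h1 := (hE V F q s(u, v) (fun ω => ind (Cd N Q c (rs L K ω))) he).1
          have h2 : (fun ω => ind (Cd N Q c (rs L K (insert s(u, v) ω)))) =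
              fun ω => ind (Cd N Q c (rs L (insert v K) ω)) := by
            funext ω
            rw [rs_insert L K ω hu hv]
          simp only [h2] at h1
          exact h1
        have ih1 := ih (F.erase s(u, v)) hcard hG' (insert v K) hK'
        have ih0 := ih (F.erase s(u, v)) hcard hG' K hKL
        have hm0 : (∑ w ∈ K, dg (F.erase s(u, v)) w) + D * (N - K.card) + 1 ≤
            (∑ w ∈ K, dg F w) + D * (N - K.card) := by
          have := sum_dg he hu (Sym2.mem_mk_left u v)
          omega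
        have hm1 : (∑ w ∈ insert v K, dg (F.erase s(u, v)) w) + D * (N - (insert v K).card) + 1 ≤
            (∑ w ∈ K, dg F w) + D * (N - K.card) := by
          rw [Finset.sum_insert hv, Finset.card_insert_of_notMem hv]
          have h1 := sum_dg he hu (Sym2.mem_mk_left u v)
          have h2 := dg_erase_mem he (Sym2.mem_mk_right u v)
          have h3 : dg F v ≤ D := hG.deg v hvL
          have h4 : D * (N - K.card) = D * (N - (K.card + 1)) + D := by
            have : N - K.card = (N - (K.card + 1)) + 1 := by omega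
            rw [this]; ring
          omega
        set m := (∑ w ∈ K, dg F w) + D * (N - K.card) with hm
        obtain ⟨k, hk⟩ : ∃ k, m = k + 1 := ⟨m - 1, by omega⟩
        obtain ⟨a1, -⟩ := (hB V (F.erase s(u, v)) p hp.le hp1.le).2.2.2.2.2.2.1
          (fun ω => Cd N Q c (rs L (insert v K) ω))
        obtain ⟨a0, -⟩ := (hB V (F.erase s(u, v)) p hp.le hp1.le).2.2.2.2.2.2.1
          (fun ω => Cd N Q c (rs L K ω))
        obtain ⟨a1', -⟩ := (hB V (F.erase s(u, v)) p' hp' hp1').2.2.2.2.2.2.1
          (fun ω => Cd N Q c (rs L (insert v K) ω))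
        obtain ⟨a0', -⟩ := (hB V (F.erase s(u, v)) p' hp' hp1').2.2.2.2.2.2.1
          (fun ω => Cd N Q c (rs L K ω))
        have j1 := ih1.trans (mul_le_mul_of_nonneg_right
          (pow_le_pow_right₀ hr1 (show _ ≤ k by omega)) (pow_nonneg a1 3))
        have j0 := ih0.trans (mul_le_mul_of_nonneg_right
          (pow_le_pow_right₀ hr1 (show _ ≤ k by omega)) (pow_nonneg a0 3))
        rw [hsplit p', hsplit p, hk, pow_succ]
        have := hH p p' _ _ _ _ (kap p p' ^ k) hp hp1 hp' hp1' a1 a0 a1' a0' (pow_nonneg hr0 k) j1 j0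
        calc _ ≤ _ := this
          _ = _ := by ring

end Tree4

open Pool.NL.Tree Tree4 in
theorem hTree4 (hE : StEdge) (hB : StBasic) (hH : StHol) (hK : StKap) : StTree4 := by
  intro V _ L E D p p' hG hp hp1 hp' hp1' x hx N hN Q c
  have h := Tree4.main hE hB hH hK L D p p' hp hp1 hp' hp1' N Q c E.card E rfl hG {x}
    (by simpa using hx)
  have hX : ∀ ω : Finset (Sym2 V), rs L {x} ω = clu L ω x := by
    intro ω
    unfold rs clu
    ext y
    simp
  have hEv : (fun ω : Finset (Sym2 V) => Cd N Q c (rs L {x} ω)) = Ev L x N Q c := by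
    funext ω
    rw [hX]
    rfl
  rw [hEv] at h
  refine h.trans ?_
  apply mul_le_mul_of_nonneg_right
  · apply pow_le_pow_right₀ (hK.1 p p' hp hp1 hp' hp1')
    rw [Finset.sum_singleton, Finset.card_singleton]
    have h3 : dg E x ≤ D := hG.deg x hx
    have h4 : D * N = D * (N - 1) + D := by
      obtain ⟨t, rfl⟩ : ∃ t, N = t + 1 := ⟨N - 1, by omega⟩
      simp; ring
    omega
  · exact pow_nonneg ((hB V E p hp.le hp1.le).2.2.2.2.2.2.1 _).1 3

end Pool.WF
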