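import Pool.Agent.Helper84.LE.All
import Pool.Agent.Helper22.NL.M_KpTau
import Pool.Agent.Helper22.NL.M_KpSup
import Pool.Agent.Helper22.NL.M_TauLeft
import Pool.Agent.Helper22.NL.M_Bn
import Pool.Agent.Helper22.NL.M_Basic
import Pool.Agent.Helper22.NL.M_Clu
import Pool.Agent.Helper22.NL.M_Hh
import Pool.Agent.Helper22.NL.M_Edge
import Pool.Agent.Helper22.NL.M_MK
import Pool.Agent.Helper22.NL.M_Off
import Pool.Agent.Helper22.NL.M_TG2
import Pool.Agent.Helper22.NL.M_Pair1
import Pool.Agent.Helper56.WF.M_FG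
import Pool.Agent.Helper56.WF.M_Cp
import Pool.Agent.Helper56.WF.M_Mom
import Pool.Agent.Helper56.WF.M_Subm
import Pool.Agent.Helper56.WF.M_Dec
import Pool.Agent.Helper56.WF.M_ArmG
import Pool.Agent.Helper56.WF.M_Der
import Pool.Agent.Helper56.WF.M_PHlow
import Pool.Agent.Helper56.WF.M_K3
import Pool.Agent.Helper56.WF.M_PE
import Pool.Agent.Helper56.WF.M_Hc
import Pool.Agent.Helper56.WF.M_HcLim
import Pool.Agent.Helper56.WF.M_FV
import Pool.Agent.Helper56.WF.M_Dbl
import Pool.Agent.Helper56.WF.M_ChiUp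
import Pool.Agent.Helper56.WF.M_Hol
import Pool.Agent.Helper56.WF.M_Kap
import Pool.Agent.Helper56.WF.M_Tree4
import Pool.Agent.Helper56.WF.M_Arm
import Pool.Agent.Helper56.WF.M_SumB
import Pool.Agent.Helper56.WF.M_Sum
import Pool.Agent.Helper56.WF.M_LawW
import Pool.Agent.Helper56.WF.M_ReW
import Pool.Agent.Helper56.WF.M_ArmW
import Pool.Agent.Helper56.WF.M_PcW
import Pool.Agent.Helper56.WF.M_FinW

/-!
# Project WF: the one-arm probabilities are summable at the critical point in high dimension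
-/

set_option autoImplicit false

open Pool.LE Pool.NL

namespace Pool.WF

/-- finiteness of the constant `a_w`, and `pc < 1/2` -/
theorem allWF : StFinW := by
  have hPE' := LE.hPolyExp
  have hPH : StPH := LE.hPH LE.hPhi
  have hDiag := LE.allFinite
  have hCoef : StCoef := LE.allCoef
  have hBox : StBox := LE.hBox
  have hW := LE.hWalkBox hBox
  have hT := LE.hTransl
  have hCLc := LE.hCoefLoc (LE.hCoefLoc0 hW) hT
  have hGE := LE.hGmEq
  have hRX := LE.hRenX
  have hSupp : StSupp := LE.hSupp hW hBox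
  have hGcoef : StGcoef := LE.hGcoef hCoef hCLc hGE hSupp hBox
  have hSyT := LE.hSymT
  have hSyG := LE.hSymG hSyT
  have hPoly := LE.hPoly hGE
  have hTN := LE.hTnNonneg
  have hTS := LE.hTauSum hCLc hBox hW
  have hTauDom : StTauDom := LE.hTauDom hT hBox
  have hTauMono : StTauMono := LE.hTauMono
  have hTauBasic : StTauBasic := LE.hTauBasic hTS hSyT
  have hQw : StQw := LE.hQw
  have hDZ := LE.hDiagZ hDiag hGcoef hTauDom hTauBasic hQw hBox
  have hNuProb : StNuProb := LE.hNuProb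
  have hCos1 : StCos1 := LE.hCos1
  have hRW : StRW := LE.hRW LE.hRW0 (LE.hRW1 hNuProb) (LE.hDh2 hNuProb) hCos1 hNuProb
  have hDh : StDh := LE.hDh
  have hFTb := LE.hFTb
  have hFTadd := LE.hFTadd
  have hCv := LE.hCv hQw
  have hCvFT := LE.hCvFT hCv hFTb
  have hJf := LE.hJf hBox
  have hInv : StInv := LE.hInv hNuProb
  have hKpInt : StKpInt := LE.hKpInt hInv
  have hIso := LE.hIso
  have hSec := LE.hSec hIso hDh hFTb
  have hBK : StBK := LE.hBK
  have hEM := LE.hExpMom (LE.hExit hBK hT hBox) hTauBasic hBox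
  have hSub := LE.hSub hPH hEM hPE' hTauBasic
  have hTBx := LE.hTauBox hBox hTauBasic
  have hTC := LE.hTauCont (LE.hTauCont0 hTBx hSub hTauMono hTauBasic) hSub hTauMono hTauBasic
  have hSp := LE.hSphere hBox hTauDom
  have hCI := LE.hChiInf hSp hPH
  have hChL := LE.hChiLim hCI hPH hTauBasic hSub
  obtain ⟨h6a, h6b, h6c, hS6d⟩ := LE.hS6 hSub hTC hChL hPH
  have hTh := LE.hTheta LE.hRusso (LE.hPivCount hBox) hPH hBox
  have hThS := LE.hThetaSub hSub hTauDom hTauBasic hBox
  have hAE : StAE := LE.hAE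
  have hB1 : StB1 := LE.hB1 h6a hS6d hTauBasic
  have hKft : StKft := LE.hKft hB1 hFTb hDh
  have hEta := LE.hEta hB1 hAE hKft hRW hKpInt hDZ hTauBasic hDh
  have hCvA : StCvA := LE.hCvA hSyG hFTb
  have hCvB := LE.hCvB hTS hTauBasic hRX hSupp hBox hTN hCvA
  have hImpF := LE.hImpF hCv hCvFT hFTadd hJf hFTb
  have hImp := LE.hImp hImpF LE.hImpR hSec hDh
  have hBoot := LE.hBoot hB1 hEta hCvA hCvB hImp hTauBasic
  have hOCc := LE.hOCc h6b hB1 hFTadd hFTb hDh
  have hB7 : StB7 := LE.hB7 hBoot LE.hOC0 (LE.hOC1 hOCc) LE.hCon01 hS6d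
  have hLim := LE.hLim hPoly
  have hGc := LE.hGcont hPoly hSupp
  have hCrit := LE.hCrit h6a h6c hTauBasic hCvA hCvB hImpF hGc hS6d hB1
  have hB8 : StB8 := LE.hB8 hB7 hLim hCrit hS6d
  have hTRcm : StTRcm := LE.hTRcm hBK
  have hDRBK : StDRBK := LE.hDRBK hBK hTRcm
  have hATT : StATT := LE.hATT LE.hWIT
  -- NL
  have hTauLeft : StTauLeft := Pool.NL.hTauLeft hPH hTauMono
  have hKpSup : StKpSup := Pool.NL.hKpSup
  have hKpTau : StKpTau := Pool.NL.hKpTau hTauLeft hKpSup hB7 hB1 hKpInt hRW hTauBasic hAE hTauMono hS6d hDh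
  have hBn : StBn := Pool.NL.hBn hBox
  have hBasic : StBasic := Pool.NL.hBasic
  have hClu : StClu := Pool.NL.hClu
  have hHh : StHh := Pool.NL.hHh hBasic hClu
  have hEdge : StEdge := Pool.NL.hEdge
  have hTG2 : StTG2 := Pool.NL.hTG2 hATT hDRBK hBasic hHh
  have hMK : StMK := Pool.NL.hMK
  have hOff : StOff := Pool.NL.hOff hBK hBasic hHh hClu
  have hPair1 : StPair1 := Pool.NL.hPair1 hMK hOff hTG2 hBasic hHh hClu
  -- WF
  have wFG : StFG := hFG hBox
  have wCp : StCp := hCp hTauDom hTauBasic hBasic wFG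
  have wMom : StMom := hMom hB7 hB1 hTauBasic hFTb
  have wSubm : StSubm := hSubm hTRcm hTauDom hBox
  have wDec : StDec := hDec wMom wSubm hB1 hTauBasic hS6d
  have wArmG : StArmG := hArmG hBox
  have wDer : StDer := hDer LE.hRusso hBasic hClu
  have wPHlow : StPHlow := hPHlow hBox
  have wK3 : StK3 := hK3 hKpTau hTauMono hTauBasic wPHlow hBox hS6d
  have wPE : StPE := hPE wK3 wCp hHh wFG hB1 hTauBasic hBox
  have wHc : StHc := hHc hT hBasic hBox
  have wHcLim : StHcLim := hHcLim hB1 hTauBasic hTauDom hBasic hBox hS6d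
  have wFV : StFV := hFV wDer wPE wHc hPair1 wFG hClu hHh hBn hB1 hBox hTauMono hTauBasic hS6d
  have wDbl : StDbl := hDbl wFV wHcLim hB1
  have wChiUp : StChiUp := hChiUp wDbl hB1 hTauMono hTauBasic
  have wHol : StHol := hHol
  have wKap : StKap := hKap
  have wTree4 : StTree4 := hTree4 hEdge hBasic wHol wKap
  have wArm : StArm := hArm wTree4 wKap wChiUp wDec wArmG wPE wFG hBasic hHh hClu hB1 hB7 hS6d hBox wPHlow
  have wSum : StSum := hSum wArm hSumB hBasic hBox hS6d
  have wReW : StReW := hReW hBox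
  have wArmW : StArmW := hArmW hLawW wReW
  have wPcW : StPcW := hPcW hLawW wReW hTh hThS hPH hBox
  exact hFinW wSum wArmW wPcW hB8

/-- the critical probability lies in the unit interval -/
theorem pcW_mem (d : ℕ) : pcW d ∈ unitInterval := by
  constructor
  · exact Real.sSup_nonneg (fun p hp => hp.1.1)
  · exact Real.sSup_le (fun p hp => hp.1.2) zero_le_one

end Pool.WF
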