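import Pool.Agent.Helper56.WF.St

set_option autoImplicit false

open scoped BigOperators ENNReal Topology
open Pool.LE Pool.NL

namespace Pool.WF

private theorem sum_ChiUp {d : ℕ} {f : Zd d → ℝ} (h0 : ∀ x, 0 ≤ f x) (hf : SumQ f) :
    Summable f := by
  apply Summable.of_nonneg_of_le h0 _ hf
  intro x
  have h1 : (1 : ℝ) ≤ Qw x := by
    unfold Qw LE.sq
    have : (0 : ℝ) ≤ ∑ i, (x i : ℝ) ^ 2 := Finset.sum_nonneg fun i _ => sq_nonneg _
    linarith
  rw [abs_of_nonneg (h0 x)]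
  nlinarith [h0 x]

theorem hChiUp (hD : StDbl) (hB1 : StB1) (hTM : StTauMono) (hTB : StTauBasic) : StChiUp := by
  obtain ⟨d₁, hd₁, H⟩ := hD
  refine ⟨d₁, hd₁, ?_⟩
  intro d hd p hp hpH
  by_contra hcon
  push Not at hcon
  have hd0 : 0 < d := by omega
  have hchi1 : ∀ q : ℝ, 0 ≤ q → q < pH d → 1 ≤ chi d q := fun q h0 h1 =>
    (hB1 d q hd0 h0 h1).2.2.1
  have hhalf : ∀ q : ℝ, 0 ≤ q → q < pH d → q ≤ 1 / 2 := fun q h0 h1 => (hB1 d q hd0 h0 h1).1
  have hmono : ∀ q r : ℝ, 0 ≤ q → q ≤ r → r < pH d → chi d q ≤ chi d r := by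
    intro q r hq hqr hr
    have hq' : q < pH d := hqr.trans_lt hr
    have hr0 : 0 ≤ r := hq.trans hqr
    have hr1 : r ≤ 1 := (hhalf r hr0 hr).trans (by norm_num)
    have hq1 : q ≤ 1 := hqr.trans hr1
    have bq := hTB d q hq hq1
    have br := hTB d r hr0 hr1
    have sq := sum_ChiUp (fun x => (bq.2.2.2.2 x).1) (hB1 d q hd0 hq hq').2.1
    have sr := sum_ChiUp (fun x => (br.2.2.2.2 x).1) (hB1 d r hd0 hr0 hr).2.1
    unfold chi
    apply Summable.tsum_le_tsum _ sq sr
    intro x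
    unfold tau
    apply ENNReal.toReal_mono
    · exact ne_top_of_le_ne_top ENNReal.one_ne_top (br.1 x)
    · exact hTM d q r x hq hqr hr1
  set c := chi d p with hc
  have hc1 : 1 ≤ c := hchi1 p hp.le hpH
  have hc0 : 0 < c := by linarith
  have hps : p + 4 / c < pH d := by
    have : 4 / c < pH d - p := by
      rw [div_lt_iff₀ hc0]
      linarith
    linarith
  -- the sequence
  set P : ℕ → ℝ := fun k => p + 4 / c * (1 - (1 / 2) ^ k) with hP
  have h4c : 0 < 4 / c := by positivity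
  have hhp : ∀ k : ℕ, (0 : ℝ) < (1 / 2) ^ k := fun k => by positivity
  have hhp1 : ∀ k : ℕ, ((1 : ℝ) / 2) ^ k ≤ 1 := fun k => pow_le_one₀ (by norm_num) (by norm_num)
  have hPlo : ∀ k, p ≤ P k := by
    intro k
    simp only [hP]
    have : 0 ≤ 4 / c * (1 - (1 / 2) ^ k) := mul_nonneg h4c.le (by linarith [hhp1 k])
    linarith
  have hPhi : ∀ k, P k ≤ p + 4 / c := by
    intro k
    simp only [hP]
    have : 4 / c * (1 - (1 / 2) ^ k) ≤ 4 / c * 1 :=
      mul_le_mul_of_nonneg_left (by linarith [hhp k]) h4c.le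
    linarith
  have hPstep : ∀ k, P (k + 1) - P k = 2 / c * (1 / 2) ^ k := by
    intro k
    simp only [hP, pow_succ]
    ring
  have hgrow : ∀ k : ℕ, 2 ^ k * c ≤ chi d (P k) := by
    intro k
    induction k with
    | zero => simp [hP, hc]
    | succ k ih =>
      have hlt : P k < P (k + 1) := by
        have := hPstep k
        have h3 : 0 < 2 / c * (1 / 2) ^ k := by positivity
        linarith
      have hlt2 : P (k + 1) < pH d := (hPhi (k + 1)).trans_lt hps
      have h0 : 0 < P k := hp.trans_le (hPlo k)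
      have hnot : ¬ chi d (P (k + 1)) ≤ 2 * chi d (P k) := by
        intro hle
        have h5 := H d hd (P k) (P (k + 1)) h0 hlt hlt2 hle
        rw [hPstep k] at h5
        have h6 : 2 / c * (1 / 2) ^ k * (2 ^ k * c) ≤ 2 / c * (1 / 2) ^ k * chi d (P k) :=
          mul_le_mul_of_nonneg_left ih (by positivity)
        have h7 : 2 / c * (1 / 2) ^ k * (2 ^ k * c) = 2 := by
          have : ((1 : ℝ) / 2) ^ k * 2 ^ k = 1 := by
            rw [← mul_pow]; norm_num
          calc 2 / c * (1 / 2) ^ k * (2 ^ k * c) = (2 / c * c) * ((1 / 2) ^ k * 2 ^ k) := by ring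
            _ = 2 := by rw [this]; field_simp
        linarith
      push Not at hnot
      calc 2 ^ (k + 1) * c = 2 * (2 ^ k * c) := by ring
        _ ≤ 2 * chi d (P k) := by linarith
        _ ≤ _ := hnot.le
  -- contradiction
  obtain ⟨k, hk⟩ := pow_unbounded_of_one_lt (chi d (p + 4 / c)) (show (1 : ℝ) < 2 by norm_num)
  have h8 := hgrow k
  have h9 := hmono (P k) (p + 4 / c) (hp.le.trans (hPlo k)) (hPhi k) hps
  have h10 : (2 : ℝ) ^ k ≤ 2 ^ k * c := le_mul_of_one_le_right (by positivity) hc1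
  linarith

end Pool.WF
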