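import Pool.Agent.Helper22.NL.StT
import Pool.Agent.Helper22.NL.StM
import Pool.Agent.Helper84.LE.St4
import Pool.Agent.Helper56.WP.Defs

/-!
# Project WF (MP_65faa7): finiteness of the constant `a_w` in high dimension

`∑_L P_{pc}(0 ↔ {x_i = L}) < ∞`. Plan:
1. below `pH`: `∑ |x|² τ ≤ 2 χ²` (LE), sums over hyperplanes are submultiplicative (BK), so
   `P_p(0 ↔ {x_i = L}) ≤ χ 4^{-L/(2R₀)}` as soon as `R₀³ ≥ 8 χ²`;
2. `χ(p) (pH - p) ≤ 4` (differential inequality for boxes);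
3. change of the parameter from `pH - δ` to `pH` for events determined by exploring at most `N`
   points of the cluster (Hölder with exponent 4);
4. summation.

All facts of the LE library (`Pool.LE`, files `Pool/Agent/Helper84/LE/`) and of the NL library
(`Pool.NL`, files `Pool/Agent/Helper22/NL/`) may be used; they are passed as hypotheses
(`StBox`, `StTauDom`, ...), exactly as in those projects. Useful proved lemmas (import
`Pool.Agent.Helper84.LE.BWT`, `.BGR`, `.BKP`): `Pr_mono`, `Pr_mono_edges`, `Pr_mono_p`,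
`Pr_exists_le`, `Pr_or_le`, `ExE_tsum`, `Ex_map`, `con_mono`, `con_trans`, `mem_drt`, `gr_adj`,
`cm_one`, `kp_mono`, `kp_add`, `kp_one`, `kp_symm`; in `M_TauDom`: `mem_trE`, `trE_trE_neg`, `con_inc`.
-/

set_option autoImplicit false

open scoped BigOperators ENNReal Topology
open Pool.LE Pool.NL Filter MeasureTheory

namespace Pool.WF

/-! ## 0. Basic facts -/

/-- **FG** `theorem hFG (hBox : StBox) : StFG`. Finite subsets of the lattice. Proof: copy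
`Pool/Agent/Helper22/NL/M_Bn.lean` (there for `S = Bn d n`), only `StBox` is used. -/
def StFG : Prop := ∀ (d : ℕ) (S : Finset (Zd d)), FG S (ES S) (2 * d) ∧
  ((ES S : Finset (Sym2 (Zd d))) : Set (Sym2 (Zd d))) ⊆ latE d

/-- **Cp** `theorem hCp (hTD : StTauDom) (hTB : StTauBasic) (hB : StBasic) (hF : StFG) : StCp`.
Domination by the lattice two-point function, real valued. Proof: copy
`Pool/Agent/Helper22/NL/M_CpTau.lean`. -/
def StCp : Prop := ∀ (d : ℕ) (S : Finset (Zd d)) (p : ℝ) (x y : Zd d), 0 ≤ p → p ≤ 1 →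
  cp (ES S) p x y ≤ tau d p (y - x)

/-! ## 1. Hyperplane sums below `pH` -/

/-- sum of the two-point function over the hyperplane `x_i = r` -/
noncomputable def Gs (d : ℕ) (p : ℝ) (i : Fin d) (r : ℕ) : ENNReal :=
  ∑' x : Zd d, if x i = (r : ℤ) then tauE d p x else 0

/-- `0` is connected to the hyperplane `x_i = r` -/
def armF {d : ℕ} (i : Fin d) (r : ℕ) (ω : Finset (Sym2 (Zd d))) : Prop :=
  ∃ y : Zd d, y i = (r : ℤ) ∧ con ω 0 y

/-- **Mom** `theorem hMom (hB7 : StB7) (hB1 : StB1) (hTB : StTauBasic) (hFTb : StFTb) : StMom`.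
The second moment below `pH`. Proof: `StB7` gives `Bd 2 d p`, whose field `mt` at `k = 0` reads
`|MT (tau d p) 0| * (1 - lam d p * Dh 0) ^ 2 ≤ 2`; `Dh 0 = 1` (`d ≥ 1`), `1 - lam = 1 / χ` (`StB1`),
`MT (tau d p) 0 = ∑' x, sq x * tau d p x` (`cos 0 = 1`), summable by `StFTb` (`SumQ` from `StB1`);
`tauE = ofReal tau` (`StTauBasic`), `ENNReal.ofReal_tsum_of_nonneg`. -/
def StMom : Prop := ∃ d₁ : ℕ, 1 ≤ d₁ ∧ ∀ d : ℕ, d₁ ≤ d → ∀ p : ℝ, 0 ≤ p → p < pH d →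
  ∑' x : Zd d, ENNReal.ofReal (LE.sq x) * tauE d p x ≤ ENNReal.ofReal (2 * chi d p ^ 2)

/-- **Subm** `theorem hSubm (hTR : StTRcm) (hTD : StTauDom) (hBox : StBox) : StSubm`.
Submultiplicativity. Proof: let `x i = r + s`, `R : ℕ`. If `con ω 0 x` with `ω ⊆ Eb d R`, take a path
(`SimpleGraph.Reachable` gives a walk, make it a path with `toPath`) from `0` to `x`; consecutive
vertices are neighbours, so the `i`-th coordinate changes by at most one per step and there is a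
vertex `y` of the path with `y i = r` (`0 ≤ r ≤ r + s`): induction on the walk. Hence
`TR ω (0, [y], x)`. By `Pr_exists_le`, `StTRcm` (with `T = tk d p`, `Dom` from `StTauDom`) and
`cm_one`: `Pr (Eb d R) p (con 0 x) ≤ ∑' y, if y i = r then tauE y * tauE (x - y) else 0`; supremum
over `R` gives the same bound for `tauE d p x`. Sum over `x` with `x i = r + s`, exchange the sums
(`ENNReal.tsum_comm`), substitute `x = y + z` (`Equiv.addLeft`): `z i = s`. -/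
def StSubm : Prop := ∀ (d : ℕ) (p : ℝ) (i : Fin d) (r s : ℕ), 0 ≤ p → p ≤ 1 / 2 →
  Gs d p i (r + s) ≤ Gs d p i r * Gs d p i s

/-- **Dec** `theorem hDec (hM : StMom) (hS : StSubm) (hB1 : StB1) (hTB : StTauBasic)
(hS6 : StS6d) : StDec`. Exponential decay on the scale `χ^{2/3}`. Proof: `Gs d p i r ≤ ∑' x, tauE x
= ofReal χ` for all `r`. Since `(x i)² ≤ sq x`, `∑_{r ∈ (R₀, 2R₀]} r² Gs(r) ≤ ∑' x, sq x tauE x ≤
2 χ²`; the left side has `R₀` terms, each with `r² ≥ R₀²`, so some `r ∈ (R₀, 2R₀]` has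
`Gs(r) ≤ 2 χ² / R₀³ ≤ 1/4`. With `k = L / r`, `L = k r + t`: `Gs(L) ≤ Gs(r)^k Gs(t) ≤ (1/4)^k χ`
(`StSubm`, induction) and `k ≥ L / (2 R₀)`. (`p ≤ 1/2` from `StB1`.) -/
def StDec : Prop := ∃ d₁ : ℕ, 1 ≤ d₁ ∧ ∀ d : ℕ, d₁ ≤ d → ∀ p : ℝ, 0 ≤ p → p < pH d →
  ∀ (i : Fin d) (R₀ : ℕ), 1 ≤ R₀ → 8 * chi d p ^ 2 ≤ (R₀ : ℝ) ^ 3 →
    ∀ L : ℕ, Gs d p i L ≤ ENNReal.ofReal (chi d p * (1 / 4) ^ (L / (2 * R₀)))

/-- **ArmG** `theorem hArmG (hBox : StBox) : StArmG`. The arm probability is at most the hyperplane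
sum. Proof: `Pr_exists_le` over `y : Zd d` (countable union bound), and
`Pr (Eb d R) p (con 0 y) ≤ tauE d p y` by definition (`le_iSup`). -/
def StArmG : Prop := ∀ (d : ℕ) (p : ℝ) (i : Fin d) (L R : ℕ), 0 ≤ p → p ≤ 1 →
  Pr (Eb d R) p (armF i L) ≤ Gs d p i L

/-! ## 2. The susceptibility -/

/-- **Der** `theorem hDer (hR : StRusso) (hB : StBasic) (hC : StClu) : StDer`. Derivative of the
total mean cluster size. Proof: `∑ x ∈ L, hh L E q x = ∑ x ∈ L, ∑ y ∈ L, Ex E q (1[con x y])`; apply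
`StRusso` to the increasing event `con x y` and add (`HasDerivAt.sum`): the derivative is at least
`Ex E p (∑ x y ∈ L, ∑ e ∈ E, 1[¬ con ω x y ∧ con (insert e ω) x y])`. Pathwise for `ω ⊆ E`, this sum
is at least `∑ (u,b) ∈ drt E, X_u X_b 1[¬ con ω u b]`: for `(u,b) ∈ drt E` not connected the pairs
`(x,y) ∈ clu u × clu b` satisfy `¬ con ω x y ∧ con (insert s(u,b) ω) x y`, and for a fixed edge
`e = s(u,b)` the two orientations give disjoint sets of pairs (`clu u × clu b`, `clu b × clu u`), so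
`((u,b),(x,y)) ↦ (s(u,b),(x,y))` is injective on the triples with `con u x`, `con b y`, `¬ con u b`.
-/
def StDer : Prop := ∀ (V : Type) [DecidableEq V] (L : Finset V) (E : Finset (Sym2 V)) (D : ℕ)
  (p : ℝ), FG L E D → 0 < p → p < 1 →
    ∃ D' : ℝ, HasDerivAt (fun q : ℝ => ∑ x ∈ L, hh L E q x) D' p ∧ brg L E p ≤ D'

/-- **PHlow** `theorem hPHlow (hBox : StBox) : StPHlow`. Proof: for `0 ≤ p < 1/(2d) ≤ 1/2` take
`S = {0}` in the definition of `pH`: `phiS d p {0} = p * 2d * 1 < 1` (`0 ∉ nb 0`, `card (nb 0) = 2d`,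
`Pr _ p (con 0 0) = 1`), so `p ≤ pH d` (`le_csSup`, the set is bounded by `1/2`); let `p ↑ 1/(2d)`. -/
def StPHlow : Prop := ∀ d : ℕ, 1 ≤ d → 1 / (2 * (d : ℝ)) ≤ pH d

/-- **K3** `theorem hK3 (hK : StKpTau) (hTM : StTauMono) (hTB : StTauBasic) (hP : StPHlow)
(hBox : StBox) (hS6 : StS6d) : StK3`. The convolution `τ * τ * τ` at a neighbour is small. Proof:
`StKpTau 3` with `y = x`: `∑ b ∈ nb x, pH kp(3) b x ≤ C/√d`. The function `kp (tk d p) 3` is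
invariant under bijections `φ` of `Zd d` with `tk (φ x) (φ y) = tk x y` (induction on the power,
`Equiv.tsum_eq`), in particular under `z ↦ x + sgp σ s (z - x)` (`SymF (tau d p)` from `StTauBasic`,
`tauE = ofReal tau`), and these act transitively on `nb x`; so all `2d` terms are equal and
`kp(3) b x ≤ C/√d / (2 d pH) ≤ C/√d ≤ 1/16` for large `d` (`2 d pH ≥ 1` by `StPHlow`). Monotone in `p`:
`StTauMono`, `kp_mono`. -/
def StK3 : Prop := ∃ d₁ : ℕ, 1 ≤ d₁ ∧ ∀ d : ℕ, d₁ ≤ d → ∀ p : ℝ, 0 ≤ p → p ≤ pH d →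
  ∀ x : Zd d, ∀ b ∈ nb x, kp (tk d p) 3 b x ≤ ENNReal.ofReal (1 / 16)

/-- **PE** `theorem hPE (hK : StK3) (hC : StCp) (hH : StHh) (hF : StFG) (hB1 : StB1)
(hTB : StTauBasic) (hBox : StBox) : StPE`. Proof: `hh S (ES S) p x = ∑ y ∈ S, cp x y ≤ ∑ y ∈ S,
tau (y - x) ≤ χ` (sum of a nonnegative summable function, translation `Equiv.subRight`). All terms of
`pairErr` are nonnegative (`StHh`), so `pairErr a b ≤ χ² ∑_w ∑_z τ(w-b) τ(z-w) τ(a-z)` and the double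
sum is at most `(kp (tk d p) 3 b a).toReal ≤ 1/16` (`kp T 3 b a = ∑' w, T b w ∑' z, T w z T z a`;
`b ∈ nb a` because `s(a,b) ∈ ES S`, `StBox`). -/
def StPE : Prop := ∃ d₁ : ℕ, 1 ≤ d₁ ∧ ∀ d : ℕ, d₁ ≤ d → ∀ p : ℝ, 0 ≤ p → p < pH d →
  ∀ S : Finset (Zd d), (∀ x, hh S (ES S) p x ≤ chi d p) ∧
    ∀ ab ∈ drt (ES S), pairErr S (ES S) p ab.1 ab.2 ≤ chi d p ^ 2 / 16

/-- mean cluster size of the centre of a box -/
noncomputable def hc (d m : ℕ) (p : ℝ) : ℝ := hh (bx d m) (Eb d m) p 0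

/-- **Hc** `theorem hHc (hT : StTransl) (hB : StBasic) (hBox : StBox) : StHc`. Monotone in `p`, and a
lower bound for points far from the boundary. Proof: `Pr_mono_p`, `Pr_mono_edges`, translation
`StTransl` with `v = x`: `Pr (trE x (Eb d m)) p (con x (x + y)) = Pr (Eb d m) p (con 0 y)` and
`trE x (Eb d m) ⊆ ES S` if `x + bx d m ⊆ S`; sum over `y ∈ bx d m` (the points `x + y` are distinct
elements of `S`, the other terms are nonnegative). Convert with `Pr = ENNReal.ofReal pr`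
(`StBasic`). -/
def StHc : Prop := ∀ (d m : ℕ), (∀ p q : ℝ, 0 ≤ p → p ≤ q → q ≤ 1 → hc d m p ≤ hc d m q) ∧
  (∀ p : ℝ, 0 ≤ p → p ≤ 1 → 0 ≤ hc d m p) ∧
  ∀ (p : ℝ) (S : Finset (Zd d)) (x : Zd d), 0 ≤ p → p ≤ 1 → (∀ y ∈ bx d m, x + y ∈ S) →
    hc d m p ≤ hh S (ES S) p x

/-- **HcLim** `theorem hHcLim (hB1 : StB1) (hTB : StTauBasic) (hTD : StTauDom) (hB : StBasic)
(hBox : StBox) (hS6 : StS6d) : StHcLim`. Proof: `hc d m p = ∑ y ∈ bx d m, f m y`,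
`f m y = (Pr (Eb d m) p (con 0 y)).toReal ↑ tau d p y` as `m → ∞` (`tauE` is the supremum, monotone
by `Pr_mono_edges`), and `χ = ∑' y, tau d p y` with `tau` summable (`StB1`: `SumQ` implies summable
as `Qw ≥ 1`). Upper bound: `f m y ≤ tau y`. Lower bound: for a finite set `F` with
`∑ y ∈ F, tau y ≥ χ - ε`, for large `m`: `F ⊆ bx d m` and `f m y ≥ tau y - ε / |F|` on `F`. Or use
`tendsto_tsum_of_dominated_convergence` with `g m y = if y ∈ bx d m then f m y else 0`. -/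
def StHcLim : Prop := ∀ (d : ℕ) (p : ℝ), 1 ≤ d → 0 ≤ p → p < pH d →
  Tendsto (fun m => hc d m p) atTop (𝓝 (chi d p))

/-- **FV** `theorem hFV (hD : StDer) (hPE : StPE) (hHc : StHc) (hP1 : StPair1) (hF : StFG)
(hC : StClu) (hH : StHh) (hBn : StBn) (hB1 : StB1) (hBox : StBox) (hTM : StTauMono)
(hTB : StTauBasic) (hS6 : StS6d) : StFV`. The finite volume inequality. Proof: `S = Bn d n`,
`F(q) = ∑ x ∈ S, hh S (ES S) q x`. For `q ∈ [p₁, p₂]` (`χ(q) ≤ χ(p₂) ≤ 2 χ(p₁)` since `tau` is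
monotone in `p`): `F'(q) ≥ brg(q) ≥ ∑_{(a,b) ∈ drt} (h(a) h(b) - pairErr a b)` (`StPair1`, the
bracket of `brg` has the same form) `≥ ∑_{drt} h(a) h(b) - 2 d n^d χ(q)² / 16` (`StPE`, `StClu`:
`card drt ≤ 2 d n^d`), and `χ(q)²/16 ≤ χ(p₁)²/4`. If `a + bx d (m+1) ⊆ S` (there are
`(n - 2m - 2)^d` such `a`: coordinates in `[m+1, n-2-m]`), then for each of the `2d` neighbours `b`
of `a`: `(a,b) ∈ drt (ES S)`, `b + bx d m ⊆ S`, so `h(a) h(b) ≥ hc d m q ^ 2 ≥ hc d m p₁ ^ 2`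
(`StHc`); all other terms `h h` are nonnegative. Mean value inequality
(`Convex.mul_sub_le_image_sub_of_le_deriv` or `image_le_of_...`): `F(p₂) - F(p₁) ≥ (p₂ - p₁) c`.
Finally `F(p₁) ≥ (n - 2m)^d hc d m p₁` (points with coordinates in `[m, n-1-m]`) and
`F(p₂) ≤ n^d χ(p₂)` (`StPE`). -/
def StFV : Prop := ∃ d₁ : ℕ, 1 ≤ d₁ ∧ ∀ d : ℕ, d₁ ≤ d → ∀ p₁ p₂ : ℝ, 0 < p₁ → p₁ < p₂ → p₂ < pH d →
  chi d p₂ ≤ 2 * chi d p₁ → ∀ m n : ℕ, 2 * m + 2 ≤ n →
    ((n - 2 * m : ℕ) : ℝ) ^ d * hc d m p₁ + (p₂ - p₁) * (2 * d) *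
        (((n - 2 * m - 2 : ℕ) : ℝ) ^ d * hc d m p₁ ^ 2 - (n : ℝ) ^ d * (chi d p₁ ^ 2 / 4)) ≤
      (n : ℝ) ^ d * chi d p₂

/-- **Dbl** `theorem hDbl (hFV : StFV) (hL : StHcLim) (hB1 : StB1) : StDbl`. Doubling. Proof: divide
`StFV` by `n^d` and let `n → ∞` (`(n - k)/n → 1`): `hc + (p₂ - p₁) 2d (hc² - χ(p₁)²/4) ≤ χ(p₂)`,
`hc = hc d m p₁`; `m → ∞` (`StHcLim`): `χ(p₁) + (p₂ - p₁) 2 d (3/4) χ(p₁)² ≤ χ(p₂) ≤ 2 χ(p₁)`. -/
def StDbl : Prop := ∃ d₁ : ℕ, 1 ≤ d₁ ∧ ∀ d : ℕ, d₁ ≤ d → ∀ p₁ p₂ : ℝ, 0 < p₁ → p₁ < p₂ →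
  p₂ < pH d → chi d p₂ ≤ 2 * chi d p₁ → (p₂ - p₁) * chi d p₁ ≤ 1

/-- **ChiUp** `theorem hChiUp (hD : StDbl) (hB1 : StB1) (hTM : StTauMono) (hTB : StTauBasic) :
StChiUp`. Mean field bound. Proof: suppose `χ(p) (pH - p) > 4`. Put
`p_k = p + (4/χ(p)) (1 - 2^{-k}) < p* = p + 4/χ(p) < pH`. Induction: `χ(p_k) ≥ 2^k χ(p)`; indeed
`(p_{k+1} - p_k) χ(p_k) ≥ (2/(2^k χ(p))) 2^k χ(p) = 2 > 1`, so by `StDbl` not
`χ(p_{k+1}) ≤ 2 χ(p_k)`. But `χ(p_k) ≤ χ(p*)` (monotone: `StTauMono`, summability from `StB1`),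
contradiction for large `k`. -/
def StChiUp : Prop := ∃ d₁ : ℕ, 1 ≤ d₁ ∧ ∀ d : ℕ, d₁ ≤ d → ∀ p : ℝ, 0 < p → p < pH d →
  chi d p * (pH d - p) ≤ 4

/-! ## 3. Change of the parameter -/

/-- the cost of one edge -/
noncomputable def kap (p p' : ℝ) : ℝ := p' ^ 4 / p ^ 3 + (1 - p') ^ 4 / (1 - p) ^ 3

/-- **Hol** `theorem hHol : StHol`. Hölder for two points. Proof: `a' ≤ K^{1/4} α³`,
`b' ≤ K^{1/4} β³` with `α = a^{1/4}`, `β = b^{1/4}` (`Real.rpow`), and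
`(p' α³ + (1-p') β³)⁴ ≤ kap (p α⁴ + (1-p) β⁴)³` is Hölder with exponents `4, 4/3`
(`Real.inner_le_Lp_mul_Lq`, or twice Cauchy-Schwarz: `(∑ u v)⁴ ≤ ...`). -/
def StHol : Prop := ∀ p p' a b a' b' K : ℝ, 0 < p → p < 1 → 0 ≤ p' → p' ≤ 1 → 0 ≤ a → 0 ≤ b →
  0 ≤ a' → 0 ≤ b' → 0 ≤ K → a' ^ 4 ≤ K * a ^ 3 → b' ^ 4 ≤ K * b ^ 3 →
    (p' * a' + (1 - p') * b') ^ 4 ≤ kap p p' * K * (p * a + (1 - p) * b) ^ 3

/-- **Kap** `theorem hKap : StKap`. Proof: with `t = δ/p`, `s = δ/(1-p) ≤ t ≤ 1`, `p t = (1-p) s`: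
`kap = p (1+t)⁴ + (1-p)(1-s)⁴ = 1 + 6 (p t² + (1-p) s²) + 4 (p t³ - (1-p) s³) + (p t⁴ + (1-p) s⁴) ≤
1 + 12 p t² + 4 p t² + 2 p t² ≤ 1 + 9 t²`. First part: `StHol` with `a = b = a' = b' = K = 1`, or
directly. -/
def StKap : Prop := (∀ p p' : ℝ, 0 < p → p < 1 → 0 ≤ p' → p' ≤ 1 → 1 ≤ kap p p') ∧
  ∀ p δ : ℝ, 0 < p → 0 ≤ δ → δ ≤ p → p + δ ≤ 1 / 2 → kap p (p + δ) ≤ 1 + 11 * (δ / p) ^ 2

/-- the event: the cluster of `x` has less than `N` points and satisfies `Q`, or it has at least `N`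
points and `c` holds -/
def Ev {V : Type} [DecidableEq V] (L : Finset V) (x : V) (N : ℕ) (Q : Finset V → Prop) (c : Prop)
    (ω : Finset (Sym2 V)) : Prop := (Xc L ω x < N ∧ Q (clu L ω x)) ∨ (N ≤ Xc L ω x ∧ c)

/-- **Tree4** `theorem hTree4 (hE : StEdge) (hB : StBasic) (hH : StHol) (hK : StKap) : StTree4`.
Change of the parameter. Proof: as `Pool/Agent/Helper22/NL/M_Tree.lean` (exploration of the cluster
edge by edge), with `cs_bound` replaced by `StHol` and the event `s ≤ (rs L K ω).card` replaced by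
the same condition `Ev` on the set `rs L K ω`; it is constant (`c`) if `N ≤ K.card` and constant
(`K.card < N ∧ Q K`) if no edge of `F` leaves `K` (then `rs L K ω = K`). -/
def StTree4 : Prop := ∀ (V : Type) [DecidableEq V] (L : Finset V) (E : Finset (Sym2 V)) (D : ℕ)
  (p p' : ℝ), FG L E D → 0 < p → p < 1 → 0 ≤ p' → p' ≤ 1 → ∀ x ∈ L, ∀ N : ℕ, 1 ≤ N →
    ∀ (Q : Finset V → Prop) (c : Prop),
      (pr E p' (Ev L x N Q c)) ^ 4 ≤ kap p p' ^ (D * N) * (pr E p (Ev L x N Q c)) ^ 3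

/-! ## 4. The one-arm bound at `pH` and summation -/

/-- **Arm** `theorem hArm (hT : StTree4) (hK : StKap) (hX : StChiUp) (hD : StDec) (hG : StArmG)
(hPE : StPE) (hF : StFG) (hB : StBasic) (hH : StHh) (hC : StClu) (hB1 : StB1) (hB7 : StB7)
(hS6 : StS6d) (hBox : StBox) (hPL : StPHlow) : StArm`. One scale, `L = m^11`. Proof: `δ = pH/2 ·
m^{-15}`, `p = pH - δ` (so `δ ≤ pH/2 ≤ p`), `N = m^30`, `S = bx d R`, `E = Eb d R = ES S`.
`kap p pH ^ (2 d N) ≤ (1 + 11 m^{-30})^{2 d m^30} ≤ exp (22 d)` (`δ/p ≤ m^{-15}`; `pH ≤ 1/2`).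
`χ(p) ≤ 4/δ = 8 m^15 / pH`. If `armF i (m^11) ω`, then `N ≤ Xc S ω 0`, or the cluster of `0` has
less than `N` points and contains a point `y` with `y i = m^11`; both are of the form `Ev`:
(i) `pr p (N ≤ X) ≤ χ/N` (Markov in `StBasic`, `ex X = hh ≤ χ` by `StHh`, `StPE`), so
`pr pH (N ≤ X)⁴ ≤ e^{22d} (8/pH)³ m^{-45}`;
(ii) `pr p (X < N, arm) ≤ pr p arm ≤ Gs ≤ χ (1/4)^{m^11 / (2 R₀)}` with `R₀ = K m^10`, `K : ℕ`,
`K ≥ 512/pH²` (then `8 χ² ≤ 512 m^30/pH² ≤ K³ m^30 = R₀³`) and `m^11 / (2 K m^10) = m / (2K)`, so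
`pr pH (X < N, arm)⁴ ≤ e^{22d} (8/pH)³ m^45 (1/4)^{3 (m/(2K))}`, and `m^90 (1/4)^{3 (m/(2K))}` is
bounded in `m`. Finally `(a + b)⁴ ≤ 8 (a⁴ + b⁴)`. -/
def StArm : Prop := ∃ d₁ : ℕ, 1 ≤ d₁ ∧ ∀ d : ℕ, d₁ ≤ d → ∃ C : ℝ, 0 < C ∧ ∀ (i : Fin d) (m R : ℕ),
  1 ≤ m → (m : ℝ) ^ 45 * (pr (Eb d R) (pH d) (armF i (m ^ 11))) ^ 4 ≤ C

/-- **SumB** `theorem hSumB : StSumB`. Summation over blocks. Proof: all `q r ≤ 1` are finite; for
`m ≥ 1` and `r ∈ [m^11, (m+1)^11)`: `q r ≤ q (m^11) ≤ (C m^{-45})^{1/4} = C' m^{-45/4}`; the block has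
at most `(m+1)^11 - m^11 ≤ 11 (m+1)^10 ≤ 11 · 2^10 m^10` elements, so the sum is at most
`q 0 + ∑_m C'' m^{-5/4} < ∞` (e.g. bound partial sums over `r < (M+1)^11` by induction on `M`). -/
def StSumB : Prop := ∀ (q : ℕ → ENNReal) (C : ENNReal), C ≠ ⊤ → (∀ r s, r ≤ s → q s ≤ q r) →
  q 0 ≤ 1 → (∀ m : ℕ, 1 ≤ m → (m : ENNReal) ^ 45 * q (m ^ 11) ^ 4 ≤ C) → ∑' r, q r ≠ ⊤

/-- **Sum** `theorem hSum (hA : StArm) (hS : StSumB) (hB : StBasic) (hBox : StBox) (hS6 : StS6d) :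
StSum`. The arm probabilities are summable at `pH`. Proof: `q r = ⨆ R, Pr (Eb d R) pH (armF i r)`;
antitone in `r`: for `r ≤ s`, `ω ⊆ Eb d R`, `armF i s ω → armF i r ω` (a path from `0` to a point
with `i`-th coordinate `s` passes through one with `i`-th coordinate `r`, discrete intermediate
value along the walk); `q 0 ≤ 1` by `Pr_le_one`; the bound at `m^11` from `StArm` and
`Pr = ENNReal.ofReal pr` (`StBasic`), suprema of powers (`ENNReal` monotone continuous, or: every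
`q < q(m^11)` is below some term). -/
def StSum : Prop := ∃ d₁ : ℕ, 1 ≤ d₁ ∧ ∀ d : ℕ, d₁ ≤ d → ∀ i : Fin d,
  ∑' r : ℕ, (⨆ R : ℕ, Pr (Eb d R) (pH d) (armF i r)) ≠ ⊤

/-! ## 5. The infinite lattice -/

open Pool.Agent.Helper56.WP in
open Classical in
/-- the open edges of a configuration inside a box -/
noncomputable def opW {d : ℕ} (R : ℕ) (ω : Cfg d) : Finset (Sym2 (Zd d)) :=
  (Eb d R).filter (fun e => ω e = true)

open Pool.Agent.Helper56.WP in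
/-- **LawW** `theorem hLawW : StLawW`. Law of the finite configurations. Proof: as
`Pool/Agent/Helper84/LE/M_Law.lean`, simpler (no labels): `{ω | opW R ω = η}` for `η ⊆ Eb d R` is the
cylinder `Set.pi (Eb d R) (fun e => if e ∈ η then {true} else {false})`, `Measure.infinitePi_pi`. -/
def StLawW : Prop := ∀ (d R : ℕ) (p : unitInterval) (A : Finset (Sym2 (Zd d)) → Prop),
  perc d p {ω | A (opW R ω)} = Pr (Eb d R) p A ∧ MeasurableSet {ω : Cfg d | A (opW R ω)}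

open Pool.Agent.Helper56.WP in
/-- **ReW** `theorem hReW (hBox : StBox) : StReW`. Connections in the lattice and in boxes. Proof:
`nn x y ↔ y ∈ nb x ↔ s(x, y) ∈ latE d` (sum of absolute values equal to one); a finite walk stays in a
box; last part as `hGinf` in `Pool/Agent/Helper84/LE/M_Gdist.lean`. -/
def StReW : Prop := ∀ (d : ℕ) (ω : Cfg d), (∀ y : Zd d, (openG Set.univ ω).Reachable 0 y ↔
    ∃ R : ℕ, con (opW R ω) 0 y) ∧ (∀ R R' : ℕ, R ≤ R' → opW R ω ⊆ opW R' ω) ∧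
  ({x : Zd d | (openG Set.univ ω).Reachable 0 x}.Infinite ↔ ∀ n : ℕ, Out n (opW (n + 1) ω))

open Pool.Agent.Helper56.WP in
/-- **ArmW** `theorem hArmW (hL : StLawW) (hR : StReW) : StArmW`. Proof: `arm d r` is the increasing
union over `R` of `{ω | armF 0 r (opW R ω)}` (`StReW`), continuity from below of the measure
(`Monotone.measure_iUnion`). -/
def StArmW : Prop := ∀ (d : ℕ) [NeZero d] (p : unitInterval) (r : ℕ),
  perc d p (arm d r) = ⨆ R : ℕ, Pr (Eb d R) p (armF 0 r)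

open Pool.Agent.Helper56.WP in
/-- the critical probability: supremum of the `p` such that the cluster of the origin is almost
surely finite -/
noncomputable def pcW (d : ℕ) : ℝ :=
  sSup {p : ℝ | ∃ h : p ∈ unitInterval,
    perc d ⟨p, h⟩ {ω | {x : Fin d → ℤ | (openG Set.univ ω).Reachable 0 x}.Infinite} = 0}

/-- **PcW** `theorem hPcW (hL : StLawW) (hR : StReW) (hTh : StTheta) (hTS : StThetaSub)
(hPH : StPH) (hBox : StBox) : StPcW`. Proof: the event of an infinite cluster is the intersection of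
the decreasing events `{ω | Out n (opW (n+1) ω)}` (`StReW`; decreasing: leaving a large box means
leaving the smaller one), so its probability is `⨅ n, Pr (Eb d (n+1)) p (Out n) = ⨅ n, ofReal (th d n
p)`. For `p < pH` it is `0` (`StThetaSub`); for `pH < p ≤ 1/2` it is at least
`1 - exp (-2 (p - pH)) > 0` (`StTheta`); for `1/2 < p ≤ 1` it is at least the value at `1/2`
(`Pr_mono_p`, increasing event). So the set lies in `[0, pH]` and contains `[0, pH)`. Compare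
`Pool/Agent/Helper84/LE/M_Pc.lean`. -/
def StPcW : Prop := ∀ (d : ℕ), 1 ≤ d → pH d < 1 / 2 → pcW d = pH d

open Pool.Agent.Helper56.WP in
/-- **FinW** `theorem hFinW (hS : StSum) (hA : StArmW) (hP : StPcW) (hB8 : StB8) : StFinW`. Finiteness
of the constant at the critical point. -/
def StFinW : Prop := ∃ d₀ : ℕ, ∀ (d : ℕ) [NeZero d], d₀ ≤ d → ∀ p : unitInterval,
  (p : ℝ) = pcW d → aw d p ≠ ⊤

end Pool.WF
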